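import Mathlib
import Pool.Agent.Lib.P0c8ca5Q.Defs
import Pool.Agent.Lib.P0c8ca5S.Tra
import Pool.Agent.Lib.P0c8ca5N.Final
import Pool.Agent.Lib.P0c8ca5C.Defs
import Pool.Agent.Lib.P0c8ca5P.Red

/-!
# Fong's second reduction for the weight numbers: definitions

* `Cov p φ e`: `φ : A → B` is surjective, its kernel `N` is a p'-group and `e` is an `A`-invariant block of `N`.
* `cut φ T b`: the part of `b` supported on the elements with image in `T`; `cutC φ U b`: the same for
  `T = C_B(U)`.
* `wN p Y S c`: the number of the blocks of defect zero of `N_Y(S) / S` below the image of `c`; so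
  `Fr.Ws p Y c` is the sum of `|N_Y(S)| * wN p Y S c` over the p-subgroups `S` of `Y`.
* `lft p φ T`: a p-subgroup of `A` with image `T` (a p-subgroup of `B`).
* `Star p φ e φ' υ`: `φ' : A' → B` is a central extension of `B` by a p'-group and `υ` embeds `A'` into
  the lines of `e`: `υ w` is in the line of `x` if `φ' w = φ x`.
* `lam e υ z`: the scalar of `υ z` for `z` in the kernel of `φ'`.
* `es φ' e υ`: the block of the kernel of `φ'` given by `lam`.
* `ex υ`: the linear extension of `υ`, `∑ a_w w ↦ ∑ a_w υ(w)`.
* `CSec p H G`: `H` is a central extension by a p'-group of a section of `G`.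
-/

namespace Pool.Agent.Lib.P0c8ca5.Fg

open MonoidAlgebra Ps Bq

variable {p : ℕ} {k : Type*} [Field k] {A A' B : Type*} [Group A] [Group A'] [Group B]

/-- `φ` is surjective, its kernel is a p'-group and `e` is an invariant block of the kernel -/
structure Cov (p : ℕ) (φ : A →* B) (e : MonoidAlgebra k A) : Prop where
  surj : Function.Surjective φ
  tri : Tri p φ.ker ⊤ e

/-- the part of `b` supported on the elements whose image is in `T` -/
noncomputable def cut (φ : A →* B) (T : Set B) (b : MonoidAlgebra k A) : MonoidAlgebra k A :=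
  resS (φ ⁻¹' T) b

/-- the part of `b` over the centralizer of `U` -/
noncomputable def cutC (φ : A →* B) (U : Subgroup B) (b : MonoidAlgebra k A) :
    MonoidAlgebra k A :=
  cut φ (Subgroup.centralizer (U : Set B) : Set B) b

/-- the number of the blocks of defect zero of `N_Y(S) / S` below the image of `c` -/
noncomputable def wN (p : ℕ) [Fintype A] (Y S : Subgroup A) (c : MonoidAlgebra k A) : ℕ :=
  Nat.card {f : MonoidAlgebra k (NQ S) | IsDZ p (sec Y S) f ∧ f * proj S c = f}

open Classical in
/-- a p-subgroup with image `T` -/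
noncomputable def lft (p : ℕ) (φ : A →* B) (T : Subgroup B) : Subgroup A :=
  if h : ∃ S : Subgroup A, IsPGroup p S ∧ S.map φ = T then h.choose else ⊥

/-- `A'` is a central extension of `B` by a p'-group, embedded by `υ` into the lines of `e` -/
structure Star (p : ℕ) (φ : A →* B) (e : MonoidAlgebra k A) (φ' : A' →* B)
    (υ : A' → MonoidAlgebra k A) : Prop where
  cov : Cov p φ e
  surj : Function.Surjective φ'
  ker : ¬ p ∣ Nat.card φ'.ker
  mem : ∀ w x, φ' w = φ x → υ w ∈ Ln φ.ker e x
  mul : ∀ w w', υ (w * w') = υ w * υ w'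
  one : υ 1 = e
  inj : ∀ w, φ' w = 1 → υ w = e → w = 1

/-- the scalar of `υ z` for `z` in the kernel -/
noncomputable def lam (e : MonoidAlgebra k A) (υ : A' → MonoidAlgebra k A) (z : A') : k :=
  (υ z).coeff 1 * (e.coeff 1)⁻¹

open Classical in
/-- the block of the kernel of `φ'` -/
noncomputable def es [Finite A'] (φ' : A' →* B) (e : MonoidAlgebra k A)
    (υ : A' → MonoidAlgebra k A) : MonoidAlgebra k A' :=
  MonoidAlgebra.ofCoeff (Finsupp.equivFunOnFinite.symm fun w =>
    if φ' w = 1 then lam e υ w⁻¹ * (Nat.card φ'.ker : k)⁻¹ else 0)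

/-- the linear extension of `υ` -/
noncomputable def ex [Fintype A'] (υ : A' → MonoidAlgebra k A) :
    MonoidAlgebra k A' →ₗ[k] MonoidAlgebra k A where
  toFun a := ∑ w, a.coeff w • υ w
  map_add' a b := by
    rw [← Finset.sum_add_distrib]
    refine Finset.sum_congr rfl fun w _ => ?_
    rw [coeff_add, Finsupp.add_apply, add_smul]
  map_smul' c a := by
    rw [RingHom.id_apply, Finset.smul_sum]
    refine Finset.sum_congr rfl fun w _ => ?_
    rw [coeff_smul_apply, smul_smul, smul_eq_mul]

theorem ex_apply [Fintype A'] (υ : A' → MonoidAlgebra k A) (a : MonoidAlgebra k A') :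
    ex υ a = ∑ w, a.coeff w • υ w := rfl

universe u

/-- `H` is a central extension by a p'-group of a section of `G` -/
def CSec (p : ℕ) (H : Type u) [Group H] (G : Type*) [Group G] : Prop :=
  ∃ (L : Type u) (_ : Group L) (π : H →* L), Function.Surjective π ∧
    π.ker ≤ Subgroup.center H ∧ ¬ p ∣ Nat.card π.ker ∧ IsSection L G

end Pool.Agent.Lib.P0c8ca5.Fg
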