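import Mathlib
import Pool.Agent.Lib.P0c8ca5F.Defs
import Pool.Agent.Lib.P0c8ca5S.LnB

/-!
# Module StA: first properties of `Star`

`h.cov.tri : Tri p φ.ker ⊤ e`.  Lemmas on lines: `Ln_mul`, `Ln_congr`, `e_mem_Ln`, `ln_line`, `ln_inv`, `ln_conj`, `Ln_mul_e` (P0c8ca5S.LnB),
`Tri.coeff_one` (P0c8ca5S.LnA).

PROOFS.
* `mul_inv`: `υ w * υ w⁻¹ = υ (w * w⁻¹) = υ 1 = e`.  `ne_zero`: `e ≠ 0` (`h.cov.tri.blk.ne_zero`).
* `line`: `υ w ∈ Ln φ.ker e x` (`h.mem`) is not zero, `ln_line`.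
* `cj_star`: `ln_conj` with `u = υ w`, `v = υ w⁻¹`, `b = υ v`: `υ w * υ v * υ w⁻¹ = cj x (υ v)` (`υ v` is `φ.ker`-invariant and `υ v * e = υ v`: it
  is in a line, `Ln_mul_e`; every `v` lies over some `y ∈ A` by `h.cov.surj`), and `h.mul`.
* `lam_spec`: `φ' z = 1 = φ 1`, so `υ z ∈ Ln φ.ker e 1` and `υ z = c • e` (`ln_line` with `e ∈ Ln φ.ker e 1`); the coefficient at
  `1`: `c = (υ z).coeff 1 * (e.coeff 1)⁻¹ = lam e υ z`.
* `lam_smul`: `υ (z * w) = υ z * υ w = lam z • (e * υ w) = lam z • υ w`.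
* `lam_one`, `lam_mul`, `lam_ne_zero`: compare the multiples of `e ≠ 0` in `υ (z * w) = υ z * υ w`; `lam z * lam z⁻¹ = lam 1 = 1`.
* `lam_inj`: `υ z = lam z • e = e`, `h.inj`.
* `ker_central`: for `z ∈ φ'.ker` and `w`: `x = z * w * z⁻¹ * w⁻¹ ∈ φ'.ker` and `υ x = υ z * υ w * υ z⁻¹ * υ w⁻¹ = lam z * lam z⁻¹ • (υ w * υ w⁻¹) =
  e`, so `x = 1` (`h.inj`).
* `comm_of`: `z = v * w * v⁻¹ * w⁻¹ ∈ φ'.ker` is central, so `v * w * v⁻¹ = z * w`, i.e. `w⁻¹ * v * w = z' * v` with `z'` central in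
  `φ'.ker` (`z' = z⁻¹` or so); the power `p ^ n`: `1 = w⁻¹ * v ^ p ^ n * w = z' ^ p ^ n * v ^ p ^ n = z' ^ p ^ n`; as `|φ'.ker|` is prime to `p`
  (`h.ker`) `z' = 1` (`orderOf z'` divides `p ^ n` and `Nat.card φ'.ker`).
-/

namespace Pool.Agent.Lib.P0c8ca5.Fg

open MonoidAlgebra Ps Bq

variable {p : ℕ} {k : Type*} [Field k] {A A' B : Type*} [Group A] [Group A'] [Group B]
  {φ : A →* B} {e : MonoidAlgebra k A} {φ' : A' →* B} {υ : A' → MonoidAlgebra k A}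

namespace StAAux

theorem smul_inj {a b : k} (he : e ≠ 0) (h : a • e = b • e) : a = b := by
  have h1 := sub_eq_zero.2 h
  rw [← sub_smul, smul_eq_zero] at h1
  rcases h1 with h1 | h1
  · exact sub_eq_zero.1 h1
  · exact absurd h1 he

end StAAux

open StAAux

theorem Star.mul_inv (h : Star p φ e φ' υ) (w : A') : υ w * υ w⁻¹ = e := by
  rw [← h.mul, mul_inv_cancel, h.one]

theorem Star.inv_mul (h : Star p φ e φ' υ) (w : A') : υ w⁻¹ * υ w = e := by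
  rw [← h.mul, inv_mul_cancel, h.one]

theorem Star.ne_zero (h : Star p φ e φ' υ) (w : A') : υ w ≠ 0 := by
  intro h0
  have h1 := h.mul_inv w
  rw [h0, zero_mul] at h1
  exact h.cov.tri.blk.ne_zero h1.symm

theorem Star.over (h : Star p φ e φ' υ) (w : A') : ∃ x : A, φ' w = φ x := by
  obtain ⟨x, hx⟩ := h.cov.surj (φ' w)
  exact ⟨x, hx.symm⟩

theorem Star.over' (h : Star p φ e φ' υ) (x : A) : ∃ w : A', φ' w = φ x :=
  h.surj (φ x)

theorem Star.line [Fact p.Prime] [CharP k p] [IsAlgClosed k] [Fintype A]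
    (h : Star p φ e φ' υ) {w : A'} {x : A} (hw : φ' w = φ x) {u : MonoidAlgebra k A}
    (hu : u ∈ Ln φ.ker e x) : ∃ c : k, u = c • υ w :=
  ln_line h.cov.tri (Subgroup.mem_top x) (h.mem w x hw) (h.ne_zero w) hu

theorem Star.cj_star (h : Star p φ e φ' υ) {w : A'} {x : A} (hw : φ' w = φ x) (v : A') :
    cj x (υ v) = υ (w * v * w⁻¹) := by
  obtain ⟨y, hy⟩ := h.over v
  have hv := h.mem v y hy
  have h1 := ln_conj h.cov.tri (Subgroup.mem_top x) (h.mem w x hw) (h.mul_inv w)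
    (mem_Ln.1 hv).2.1 (Ln_mul_e h.cov.tri (Subgroup.mem_top y) hv)
  rw [← h1, h.mul, h.mul]

theorem Star.lam_spec [Fact p.Prime] [CharP k p] [IsAlgClosed k] [Fintype A]
    (h : Star p φ e φ' υ) {z : A'} (hz : φ' z = 1) : υ z = lam e υ z • e := by
  have h1 : υ z ∈ Ln φ.ker e 1 := h.mem z 1 (by rw [hz, map_one])
  obtain ⟨c, hc⟩ := ln_line h.cov.tri (Subgroup.mem_top 1) (e_mem_Ln h.cov.tri)
    h.cov.tri.blk.ne_zero h1
  have h2 : lam e υ z = c := by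
    rw [lam, hc, coeff_smul_apply, smul_eq_mul, mul_assoc,
      mul_inv_cancel₀ h.cov.tri.coeff_one, mul_one]
  rw [h2]
  exact hc

theorem Star.lam_smul [Fact p.Prime] [CharP k p] [IsAlgClosed k] [Fintype A]
    (h : Star p φ e φ' υ) {z : A'} (hz : φ' z = 1) (w : A') :
    υ (z * w) = lam e υ z • υ w := by
  obtain ⟨x, hx⟩ := h.over w
  rw [h.mul, h.lam_spec hz, smul_mul_assoc, (mem_Ln.1 (h.mem w x hx)).2.2]

theorem Star.lam_one [Fact p.Prime] [CharP k p] [IsAlgClosed k] [Fintype A]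
    (h : Star p φ e φ' υ) : lam e υ (1 : A') = 1 := by
  rw [lam, h.one, mul_inv_cancel₀ h.cov.tri.coeff_one]

theorem Star.lam_mul [Fact p.Prime] [CharP k p] [IsAlgClosed k] [Fintype A]
    (h : Star p φ e φ' υ) {z w : A'} (hz : φ' z = 1) (hw : φ' w = 1) :
    lam e υ (z * w) = lam e υ z * lam e υ w := by
  refine smul_inj h.cov.tri.blk.ne_zero ?_
  rw [← h.lam_spec (by rw [map_mul, hz, hw, mul_one]), h.lam_smul hz, mul_smul,
    ← h.lam_spec hw]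

theorem Star.lam_ne_zero [Fact p.Prime] [CharP k p] [IsAlgClosed k] [Fintype A]
    (h : Star p φ e φ' υ) {z : A'} (hz : φ' z = 1) : lam e υ z ≠ 0 := by
  intro h0
  have h1 := h.lam_mul hz (w := z⁻¹) (by rw [map_inv, hz, inv_one])
  rw [mul_inv_cancel, h.lam_one, h0, zero_mul] at h1
  exact one_ne_zero h1

theorem Star.lam_inj [Fact p.Prime] [CharP k p] [IsAlgClosed k] [Fintype A]
    (h : Star p φ e φ' υ) {z : A'} (hz : φ' z = 1) (h1 : lam e υ z = 1) : z = 1 := by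
  refine h.inj z hz ?_
  rw [h.lam_spec hz, h1, one_smul]

theorem Star.ker_central [Fact p.Prime] [CharP k p] [IsAlgClosed k] [Fintype A]
    (h : Star p φ e φ' υ) : φ'.ker ≤ Subgroup.center A' := by
  intro z hz
  have hz1 : φ' z = 1 := hz
  have hz2 : φ' z⁻¹ = 1 := by rw [map_inv, hz1, inv_one]
  rw [Subgroup.mem_center_iff]
  intro w
  have h1 : z * w * (z⁻¹ * w⁻¹) = 1 := by
    refine h.inj _ ?_ ?_
    · rw [map_mul, map_mul, map_mul, hz1, hz2, one_mul, one_mul, ← map_mul, mul_inv_cancel,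
        map_one]
    · rw [h.mul, h.lam_smul hz1, h.lam_smul hz2, smul_mul_smul_comm, h.mul_inv,
        ← h.lam_mul hz1 hz2, mul_inv_cancel, h.lam_one, one_smul]
  have h2 : z * w * (z⁻¹ * w⁻¹) * (w * z) = z * w := by group
  rw [h1, one_mul] at h2
  exact h2

theorem Star.comm_of [Fact p.Prime] [CharP k p] [IsAlgClosed k] [Fintype A] [Finite A']
    (h : Star p φ e φ' υ) {v w : A'} {n : ℕ} (hv : v ^ p ^ n = 1)
    (hvw : φ' (v * w) = φ' (w * v)) : v * w = w * v := by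
  have hp : p.Prime := Fact.out
  obtain ⟨z, hz⟩ : ∃ z, z = w⁻¹ * v * w * v⁻¹ := ⟨_, rfl⟩
  have hz1 : φ' z = 1 := by
    have h1 : z = w⁻¹ * (v * w) * v⁻¹ := by rw [hz]; group
    rw [h1, map_mul, map_mul, hvw, ← map_mul, ← map_mul]
    have h2 : w⁻¹ * (w * v) * v⁻¹ = 1 := by group
    rw [h2, map_one]
  have hzc := Subgroup.mem_center_iff.1 (h.ker_central (MonoidHom.mem_ker.2 hz1))
  have h3 : z * v = w⁻¹ * v * w⁻¹⁻¹ := by rw [hz]; group
  have h4 : z ^ p ^ n = 1 := by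
    have h5 : (z * v) ^ p ^ n = z ^ p ^ n * v ^ p ^ n := (Commute.mul_pow (hzc v).symm _)
    rw [h3, conj_pow, hv, mul_one, mul_inv_cancel, mul_one] at h5
    exact h5.symm
  have h6 : orderOf z ∣ Nat.card φ'.ker := Subgroup.orderOf_dvd_natCard _ (MonoidHom.mem_ker.2 hz1)
  obtain ⟨m, -, hm⟩ := (Nat.dvd_prime_pow hp).1 (orderOf_dvd_of_pow_eq_one h4)
  have hm0 : m = 0 := by
    by_contra hm0
    refine h.ker (dvd_trans ?_ h6)
    rw [hm]
    exact dvd_pow_self p hm0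
  rw [hm0, pow_zero, orderOf_eq_one_iff] at hm
  rw [hm, one_mul, inv_inv] at h3
  have h7 : w * v = w * (w⁻¹ * v * w) := by rw [← h3]
  rw [h7]
  group

end Pool.Agent.Lib.P0c8ca5.Fg
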