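import Mathlib
import Pool.Agent.Lib.P0c8ca5F.StD
import Pool.Agent.Lib.P0c8ca5Q.RvB

/-!
# Module StE: the numbers of irreducible representations of `A'` and `A`

`N = φ.ker`, `Y = M.comap φ`, `Y' = M.comap φ'`, `e' = es φ' e υ`.  `Rs p Y' c`: the `a` with `SuppIn Y' a`, `InvBy Y' a`, `a.coeff (pr p z) =
a.coeff z` for `z ∈ Y'`, `c * a = a` (`mem_Rs`).

PROOFS.
* `rs_iff`: left to right: `e' * a = e' * c * a = c * a = a`; `ex_supp`, `ex_inv`, `sec_iff`, `ex υ c * ex υ a = ex υ (c * a) = ex υ a`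
  (`ex_mul`).  Right to left: the same lemmas; `c * a = a` by `ex_inj`: `e' * (c * a) = c * a`, `ex υ (c * a) = ex υ c * ex υ a = ex υ a`.
* `card_irX`: `finrank_Rs` (P0c8ca5Q.RvB) for `(Y', c)` and for `(Y, ex υ c)`: `ex υ c ∈ fixAlg k Y Y` (`mem_fixAlg`, `ex_supp`, `ex_inv`),
  `ex υ c * ex υ c = ex υ (c * c) = ex υ c`.  `ex υ` restricts to a linear bijection from `Rs p Y' c` to `Rs p Y (ex υ c)`: into by
  `rs_iff`, injective by `ex_inj`, surjective: `u ∈ Rs p Y (ex υ c)` is in `Tc N ⊤ e 1`: it is `N`-invariant (`N ≤ Y`) and `e * u = e * (ex υ c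
  * u) = ex υ (e' * c) * u = ex υ c * u = u` (`ex_es`, `ex_mul`); `ex_surj` gives `a`, `rs_iff`.  `LinearEquiv.ofBijective`,
  `LinearEquiv.finrank_eq`.
* `exists_block`: `b ∈ Tc N ⊤ e 1` (`b` is central in `kA`: `hb.invBy`; `e * b = b`), `ex_surj` gives `b'`.  `b'` is `A'`-invariant by `ex_inv`
  with `M = ⊤` (`Subgroup.comap_top`), idempotent by `ex_inj` and `ex_mul`, not zero.  Primitive: let `f ∈ fixAlg k ⊤ ⊤`, `f * f = f`, `f * b' = f`
  (see the field `prim` of `IsBlock`); `e' * f = f * e' = f * b' * e' = f` (`es_comm`), so `ex υ f` is central in `kA` (`ex_inv`), idempotent,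
  `ex υ f * b = ex υ f`, so `ex υ f = 0` or `ex υ f = b`, and `f = 0` or `f = b'` by `ex_inj`.
-/

namespace Pool.Agent.Lib.P0c8ca5.Fg

open MonoidAlgebra Ps Bq

variable {p : ℕ} {k : Type*} [Field k] {A A' B : Type*} [Group A] [Group A'] [Group B]
  {φ : A →* B} {e : MonoidAlgebra k A} {φ' : A' →* B} {υ : A' → MonoidAlgebra k A}

theorem Star.ex_fix [Fact p.Prime] [CharP k p] [IsAlgClosed k] [Fintype A] [Fintype A']
    (h : Star p φ e φ' υ) {M : Subgroup B} {c : MonoidAlgebra k A'}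
    (hc : es φ' e υ * c = c) (hcM : c ∈ fixAlg k (M.comap φ') (M.comap φ')) :
    ex υ c ∈ fixAlg k (M.comap φ) (M.comap φ) ∧ e * ex υ c = ex υ c := by
  obtain ⟨h1, h2⟩ := mem_fixAlg.1 hcM
  refine ⟨mem_fixAlg.2 ⟨(h.ex_supp hc M).1 h1, (h.ex_inv hc M).1 h2⟩, ?_⟩
  have h3 := h.ex_mul (es φ' e υ) c
  rw [hc, h.ex_es] at h3
  exact h3.symm

theorem Star.rs_iff [Fact p.Prime] [CharP k p] [IsAlgClosed k] [Fintype A] [Fintype A']
    (h : Star p φ e φ' υ) {M : Subgroup B} {c a : MonoidAlgebra k A'}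
    (hc : es φ' e υ * c = c) (hcM : c ∈ fixAlg k (M.comap φ') (M.comap φ')) :
    a ∈ Rs p (M.comap φ') c ↔
      es φ' e υ * a = a ∧ ex υ a ∈ Rs p (M.comap φ) (ex υ c) := by
  constructor
  · intro ha
    obtain ⟨h1, h2, h3, h4⟩ := mem_Rs.1 ha
    have hea : es φ' e υ * a = a := by
      rw [← h4, ← mul_assoc, hc]
    refine ⟨hea, mem_Rs.2 ⟨(h.ex_supp hea M).1 h1, (h.ex_inv hea M).1 h2,
      (h.sec_iff hea h1).1 h3, ?_⟩⟩
    rw [← h.ex_mul, h4]
  · rintro ⟨hea, ha⟩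
    obtain ⟨h1, h2, h3, h4⟩ := mem_Rs.1 ha
    have hs := (h.ex_supp hea M).2 h1
    refine mem_Rs.2 ⟨hs, (h.ex_inv hea M).2 h2, (h.sec_iff hea hs).2 h3, ?_⟩
    refine h.ex_inj ?_ hea ?_
    · rw [← mul_assoc, hc]
    · rw [h.ex_mul, h4]

theorem Star.card_irX [Fact p.Prime] [CharP k p] [IsAlgClosed k] [Fintype A] [Fintype A']
    (h : Star p φ e φ' υ) {M : Subgroup B} {c : MonoidAlgebra k A'}
    (hc : es φ' e υ * c = c) (hcM : c ∈ fixAlg k (M.comap φ') (M.comap φ'))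
    (hcc : c * c = c) :
    Nat.card (IrX (M.comap φ') c) = Nat.card (IrX (M.comap φ) (ex υ c)) := by
  obtain ⟨hf, he⟩ := h.ex_fix hc hcM
  have hee : ex υ c * ex υ c = ex υ c := by rw [← h.ex_mul, hcc]
  rw [← finrank_Rs hcM hcc, ← finrank_Rs hf hee]
  let L : ↥(Rs p (M.comap φ') c) →ₗ[k] ↥(Rs p (M.comap φ) (ex υ c)) :=
    ((ex υ).domRestrict (Rs p (M.comap φ') c)).codRestrict (Rs p (M.comap φ) (ex υ c))
      (fun a => ((h.rs_iff hc hcM).1 a.2).2)
  have hL : Function.Bijective L := by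
    constructor
    · intro a b hab
      have h1 : ex υ (a : MonoidAlgebra k A') = ex υ (b : MonoidAlgebra k A') :=
        congrArg Subtype.val hab
      exact Subtype.ext (h.ex_inj ((h.rs_iff hc hcM).1 a.2).1 ((h.rs_iff hc hcM).1 b.2).1 h1)
    · intro u
      obtain ⟨h1, h2, h3, h4⟩ := mem_Rs.1 u.2
      have hT : (u : MonoidAlgebra k A) ∈ Tc φ.ker ⊤ e 1 := by
        refine mem_Tc.2 ⟨fun z _ => Subgroup.mem_top _, h2.mono ?_, ?_⟩
        · intro z hz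
          rw [Subgroup.mem_comap, MonoidHom.mem_ker.1 hz]
          exact M.one_mem
        · rw [← h4, ← mul_assoc, he]
      obtain ⟨a, ha, hau⟩ := h.ex_surj hT
      have ha2 : a ∈ Rs p (M.comap φ') c := (h.rs_iff hc hcM).2 ⟨ha, by rw [hau]; exact u.2⟩
      exact ⟨⟨a, ha2⟩, Subtype.ext hau⟩
  exact (LinearEquiv.ofBijective L hL).finrank_eq

theorem Star.exists_block [Fact p.Prime] [CharP k p] [IsAlgClosed k] [Fintype A] [Fintype A']
    (h : Star p φ e φ' υ) {b : MonoidAlgebra k A} (hb : IsBlock ⊤ b) (heb : e * b = b) :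
    ∃ b' : MonoidAlgebra k A', es φ' e υ * b' = b' ∧ ex υ b' = b ∧ IsBlock ⊤ b' := by
  have hbi : InvBy ⊤ b := (mem_fixAlg.1 hb.mem).2
  have hT : b ∈ Tc φ.ker ⊤ e 1 :=
    mem_Tc.2 ⟨fun z _ => Subgroup.mem_top _, hbi.mono le_top, heb⟩
  obtain ⟨b', h1, h2⟩ := h.ex_surj hT
  have hinv : ∀ f : MonoidAlgebra k A', es φ' e υ * f = f → (InvBy ⊤ f ↔ InvBy ⊤ (ex υ f)) := by
    intro f hf
    have h3 := h.ex_inv hf ⊤
    rwa [Subgroup.comap_top, Subgroup.comap_top] at h3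
  refine ⟨b', h1, h2, ?_, ?_, ?_, ?_⟩
  · refine mem_fixAlg.2 ⟨fun z _ => Subgroup.mem_top _, (hinv b' h1).2 ?_⟩
    rw [h2]
    exact hbi
  · refine h.ex_inj ?_ h1 ?_
    · rw [← mul_assoc, h1]
    · rw [h.ex_mul, h2, hb.idem]
  · intro h3
    apply hb.ne_zero
    rw [← h2, h3, map_zero]
  · intro f hf hff hfb
    have hef : es φ' e υ * f = f := by
      calc es φ' e υ * f = es φ' e υ * (f * b') := by rw [hfb]
        _ = (es φ' e υ * f) * b' := by rw [mul_assoc]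
        _ = (f * es φ' e υ) * b' := by rw [h.es_comm f]
        _ = f * (es φ' e υ * b') := by rw [mul_assoc]
        _ = f := by rw [h1, hfb]
    have hmem : ex υ f ∈ fixAlg k ⊤ ⊤ :=
      mem_fixAlg.2 ⟨fun z _ => Subgroup.mem_top _, (hinv f hef).1 (mem_fixAlg.1 hf).2⟩
    have h4 : ex υ f * ex υ f = ex υ f := by rw [← h.ex_mul, hff]
    have h5 : ex υ f * b = ex υ f := by rw [← h2, ← h.ex_mul, hfb]
    rcases hb.prim (ex υ f) hmem h4 h5 with h6 | h6
    · left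
      refine h.ex_inj hef (mul_zero _) ?_
      rw [h6, map_zero]
    · right
      refine h.ex_inj hef h1 ?_
      rw [h6, h2]

end Pool.Agent.Lib.P0c8ca5.Fg
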