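import Mathlib
import Pool.Agent.Lib.P0c8ca5F.Defs

/-!
# Module GrA: p-subgroups and a surjective homomorphism `φ : A → B`

PROOFS.
* `exists_lift`: let `Y = T.comap φ` and `S₀` a Sylow p-subgroup of `Y` (as a subgroup of `A`); the image of `S₀` has index
  prime to `p` in `φ(Y) = T` (the index of `f(S₀)` in `f(Y)` divides the index of `S₀` in `Y`:
  `Subgroup.relIndex_map_map` / `Subgroup.index_map_dvd`), and `T` is a p-group, so the image is `T`.
* `conj_lift` (Sylow): `S` and `S'` are contained in `φ.ker ⊔ S = φ.ker ⊔ S'` (both are `(S.map φ).comap φ`: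
  `Subgroup.comap_map_eq`), and they are Sylow p-subgroups of it (`φ.ker` is a p'-group: `φ.ker ⊓ S = ⊥`,
  `|φ.ker ⊔ S| = |φ.ker| |S|`).  So they are conjugate by some `n * s`, `n ∈ φ.ker`, `s ∈ S`
  (`φ.ker` is normal: `Subgroup.mul_mem_sup`, `mem_sup_norm` in P0c8ca5), so by `n`.  Compare `Par.frat` in P0c8ca5Q.Gq and
  `exists_syl` in P0c8ca5S.Wgt for the same argument.
* `map_inj`: `φ.ker ⊓ S` is a p-group and a p'-group.
-/

namespace Pool.Agent.Lib.P0c8ca5.Fg

open MonoidAlgebra Ps Bq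

variable {p : ℕ} {A B : Type*} [Group A] [Group B] {φ : A →* B}

namespace GrAAux

theorem inf_bot' [Fact p.Prime] [Finite A] {N D : Subgroup A} (hN : ¬ p ∣ Nat.card N)
    (hD : IsPGroup p D) : N ⊓ D = ⊥ := by
  rw [eq_bot_iff]
  intro x hx
  obtain ⟨hxN, hxD⟩ := Subgroup.mem_inf.1 hx
  obtain ⟨n, hn⟩ := hD ⟨x, hxD⟩
  have h1 : x ^ p ^ n = 1 := congrArg Subtype.val hn
  have h2 : orderOf x ∣ Nat.card N := by
    have := orderOf_dvd_natCard (⟨x, hxN⟩ : N)
    rwa [Subgroup.orderOf_mk] at this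
  obtain ⟨j, -, hj⟩ := (Nat.dvd_prime_pow Fact.out).1 (orderOf_dvd_of_pow_eq_one h1)
  have h3 : j = 0 := by
    by_contra hne
    exact hN (dvd_trans (by rw [hj]; exact dvd_pow_self p hne) h2)
  rw [h3, pow_zero, orderOf_eq_one_iff] at hj
  exact hj

theorem card_syl [Fact p.Prime] [Finite A] {N S P : Subgroup A} (hN : ¬ p ∣ Nat.card N)
    (hn : S ≤ Subgroup.normalizer (N : Set A)) (hS : IsPGroup p S) (hP : IsPGroup p P)
    (hle : P ≤ N ⊔ S) : Nat.card P ≤ Nat.card S := by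
  have h1 := card_sup_disj hn (inf_bot' hN hS)
  have h2 : Nat.card P ∣ Nat.card N * Nat.card S := by
    rw [← h1]
    exact Subgroup.card_dvd_of_le hle
  obtain ⟨j, hj⟩ := IsPGroup.iff_card.1 hP
  have h3 : (Nat.card P).Coprime (Nat.card N) := by
    rw [hj]
    exact Nat.Coprime.pow_left _ ((Nat.Prime.coprime_iff_not_dvd Fact.out).2 hN)
  exact Nat.le_of_dvd Nat.card_pos (h3.dvd_of_dvd_mul_left h2)

theorem eq_cg [Finite A] {S P : Subgroup A} {g : A} (hle : S ≤ cg g P)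
    (hc : Nat.card P ≤ Nat.card S) : S = cg g P := by
  have h1 : Nat.card (cg g P) ≤ Nat.card S := by rw [card_cg]; exact hc
  exact eq_of_le_of_card hle h1

end GrAAux

theorem exists_lift [Fact p.Prime] [Finite A] (hφ : Function.Surjective φ) {T : Subgroup B}
    (hT : IsPGroup p T) : ∃ S : Subgroup A, IsPGroup p S ∧ S.map φ = T := by
  obtain ⟨S, hS⟩ := exists_isSyl (p := p) (T.comap φ)
  refine ⟨S, hS.isPGroup, ?_⟩
  have hYT : (T.comap φ).map φ = T := Subgroup.map_comap_eq_self_of_surjective hφ T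
  have hle : S.map φ ≤ T := by
    have := Subgroup.map_mono (f := φ) hS.le
    rwa [hYT] at this
  refine le_antisymm hle ?_
  rw [← Subgroup.relIndex_eq_one]
  have h1 : (S.map φ).relIndex T ∣ S.relIndex (T.comap φ) := by
    conv_lhs => rw [← hYT]
    have hker : T.comap φ ⊔ φ.ker = T.comap φ :=
      sup_eq_left.2 (Subgroup.ker_le_comap φ T)
    rw [Subgroup.relIndex_map_map, hker]
    exact Subgroup.relIndex_dvd_of_le_left _ le_sup_left
  have : Finite B := Finite.of_surjective φ hφ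
  obtain ⟨n, hn⟩ := IsPGroup.iff_card.1 hT
  have h2 : (S.map φ).relIndex T ∣ p ^ n := by
    rw [← hn]
    exact Subgroup.relIndex_dvd_card _ _
  obtain ⟨j, -, hj⟩ := (Nat.dvd_prime_pow Fact.out).1 h2
  have h3 : j = 0 := by
    by_contra hne
    exact hS.ndvd (dvd_trans (by rw [hj]; exact dvd_pow_self p hne) h1)
  rw [hj, h3, pow_zero]

theorem lft_spec [Fact p.Prime] [Finite A] (hφ : Function.Surjective φ) {T : Subgroup B}
    (hT : IsPGroup p T) : IsPGroup p (lft p φ T) ∧ (lft p φ T).map φ = T := by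
  have h : ∃ S : Subgroup A, IsPGroup p S ∧ S.map φ = T := exists_lift hφ hT
  unfold lft
  rw [dif_pos h]
  exact h.choose_spec

theorem conj_lift [Fact p.Prime] [Finite A] (hker : ¬ p ∣ Nat.card φ.ker) {S S' : Subgroup A}
    (hS : IsPGroup p S) (hS' : IsPGroup p S') (h : S.map φ = S'.map φ) :
    ∃ n ∈ φ.ker, S' = cg n S := by
  have e1 : φ.ker ⊔ S = φ.ker ⊔ S' := by
    rw [sup_comm, sup_comm φ.ker S', ← Subgroup.comap_map_eq, ← Subgroup.comap_map_eq, h]
  have hn : ∀ R : Subgroup A, R ≤ Subgroup.normalizer (φ.ker : Set A) := fun R => by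
    rw [Subgroup.normalizer_eq_top]
    exact le_top
  obtain ⟨P, hP⟩ := exists_isSyl (p := p) (φ.ker ⊔ S)
  obtain ⟨g, hg, hle⟩ := hP.conj S le_sup_right hS
  obtain ⟨g', hg', hle'⟩ := hP.conj S' (by rw [e1]; exact le_sup_right) hS'
  have h1 : S = cg g P := GrAAux.eq_cg hle
    (GrAAux.card_syl hker (hn S) hS hP.isPGroup hP.le)
  have h2 : S' = cg g' P := GrAAux.eq_cg hle'
    (GrAAux.card_syl hker (hn S') hS' hP.isPGroup (by rw [← e1]; exact hP.le))
  have h3 : S' = cg (g' * g⁻¹) S := by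
    rw [h1, cg_cg, inv_mul_cancel_right, ← h2]
  have h4 : g' * g⁻¹ ∈ φ.ker ⊔ S := Subgroup.mul_mem _ hg' (Subgroup.inv_mem _ hg)
  rw [mem_sup_norm (hn S)] at h4
  obtain ⟨n, hn', s, hs, hns⟩ := h4
  refine ⟨n, hn', ?_⟩
  rw [h3, ← hns, ← cg_cg, cg_eq_self_iff.2 (Subgroup.le_normalizer hs)]

/-- the p-subgroups of `A` are isomorphic to their images -/
theorem map_inj [Fact p.Prime] [Finite A] (hker : ¬ p ∣ Nat.card φ.ker) {S : Subgroup A}
    (hS : IsPGroup p S) {x : A} (hx : x ∈ S) (h : φ x = 1) : x = 1 := by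
  have h1 : x ∈ φ.ker ⊓ S := Subgroup.mem_inf.2 ⟨MonoidHom.mem_ker.2 h, hx⟩
  rw [GrAAux.inf_bot' hker hS] at h1
  exact Subgroup.mem_bot.1 h1

end Pool.Agent.Lib.P0c8ca5.Fg
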