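import Mathlib
import Pool.Agent.Lib.P0c8ca5F.GrA
import Pool.Agent.Lib.P0c8ca5S.Wgt

/-!
# Module CutA: the sections `N_Y(S) / S` and the parts `cutC φ U b`

PROOFS.
* `sec_cut`: `sec Y S` is the image of `Y ⊓ N(S)` in `N(S) / S` (`sec`, `Subgroup.map`, `Subgroup.mem_subgroupOf`); an element `x` of `N(S)`
  has `φ x ∈ N(S.map φ)` (`φ` maps `x S x⁻¹ = S` to its image), so for `x ∈ N(S)`: `φ x ∈ M` iff `φ x ∈ M ⊓ N(S.map φ)`.
* `cutC_invBy`: `coeff_resS`; for `y` with `φ y ∈ N(U)` and `b` invariant under `y`: `φ (y z y⁻¹) ∈ C(U)` iff `φ z ∈ C(U)`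
  (`U` is normalized, so its centralizer is normalized).
* `cutC_suppIn`: `z` in the support has `φ z ∈ C(U)`.
* `proj_cut`: `proj S a = proj S (resS C(S) a)` for `a` with `InvBy S a` (`proj_resS` in P0c8ca5S.Wgt with `P = Q = S`; it is
  `theorem proj_resS`, possibly in a namespace ending in `Aux`), and the parts of
  `cutC φ U b` and `cutC φ (U ⊔ S.map φ) b` supported on `C(S)` agree: for `z ∈ C(S)` `φ z` centralizes `S.map φ`, so
  `φ z ∈ C(U)` iff `φ z ∈ C(U ⊔ S.map φ)` (`Subgroup.centralizer` of a supremum: an element centralizing `U` and `S.map φ`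
  centralizes the subgroup generated by them, e.g. by `Subgroup.le_centralizer_iff`).  Both parts are `S`-invariant by `cutC_invBy`:
  for `s ∈ S` `φ s ∈ S.map φ` normalizes `U` by `hU` and so also `U ⊔ S.map φ`.
-/

namespace Pool.Agent.Lib.P0c8ca5.Fg

open MonoidAlgebra Ps Bq

variable {p : ℕ} {k : Type*} [Field k] {A B : Type*} [Group A] [Group B] {φ : A →* B}

namespace CutAAux

omit [Field k] in
theorem map_norm {S : Subgroup A} {x : A} (hx : x ∈ Subgroup.normalizer (S : Set A)) :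
    φ x ∈ Subgroup.normalizer ((S.map φ : Subgroup B) : Set B) := by
  rw [Subgroup.mem_normalizer_iff]
  intro y
  constructor
  · rintro ⟨s, hs, rfl⟩
    refine ⟨x * s * x⁻¹, (Subgroup.mem_normalizer_iff.1 hx s).1 hs, ?_⟩
    rw [map_mul, map_mul, map_inv]
  · rintro ⟨s, hs, h⟩
    have h1 : x * (x⁻¹ * s * x) * x⁻¹ ∈ S := by
      have e1 : x * (x⁻¹ * s * x) * x⁻¹ = s := by group
      rw [e1]
      exact hs
    refine ⟨x⁻¹ * s * x, (Subgroup.mem_normalizer_iff.1 hx _).2 h1, ?_⟩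
    rw [map_mul, map_mul, map_inv, h]
    group

theorem cent_conj {U : Subgroup B} {n : B} (hn : n ∈ Subgroup.normalizer (U : Set B)) {c : B}
    (hc : c ∈ Subgroup.centralizer (U : Set B)) :
    n * c * n⁻¹ ∈ Subgroup.centralizer (U : Set B) := by
  rw [Subgroup.mem_centralizer_iff]
  intro u hu
  have h1 : n⁻¹ * u * n ∈ U := by
    refine (Subgroup.mem_normalizer_iff.1 hn _).2 ?_
    have e1 : n * (n⁻¹ * u * n) * n⁻¹ = u := by group
    rw [e1]
    exact hu
  have h2 := Subgroup.mem_centralizer_iff.1 hc _ h1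
  calc u * (n * c * n⁻¹) = n * ((n⁻¹ * u * n) * c) * n⁻¹ := by group
    _ = n * (c * (n⁻¹ * u * n)) * n⁻¹ := by rw [h2]
    _ = n * c * n⁻¹ * u := by group

theorem cent_conj_iff {U : Subgroup B} {n : B} (hn : n ∈ Subgroup.normalizer (U : Set B)) {c : B} :
    n * c * n⁻¹ ∈ Subgroup.centralizer (U : Set B) ↔ c ∈ Subgroup.centralizer (U : Set B) := by
  constructor
  · intro h
    have h1 := cent_conj ((Subgroup.normalizer (U : Set B)).inv_mem hn) h
    have e1 : n⁻¹ * (n * c * n⁻¹) * n⁻¹⁻¹ = c := by group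
    rwa [e1] at h1
  · exact cent_conj hn

theorem cent_sup {U V : Subgroup B} {c : B} (hV : c ∈ Subgroup.centralizer (V : Set B)) :
    c ∈ Subgroup.centralizer (U : Set B) ↔
      c ∈ Subgroup.centralizer ((U ⊔ V : Subgroup B) : Set B) := by
  constructor
  · intro h
    have h1 : U ⊔ V ≤ Subgroup.centralizer ({c} : Set B) := by
      refine sup_le ?_ ?_
      · intro u hu
        rw [Subgroup.mem_centralizer_iff]
        intro g hg
        rw [Set.mem_singleton_iff.1 hg]
        exact (Subgroup.mem_centralizer_iff.1 h u hu).symm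
      · intro u hu
        rw [Subgroup.mem_centralizer_iff]
        intro g hg
        rw [Set.mem_singleton_iff.1 hg]
        exact (Subgroup.mem_centralizer_iff.1 hV u hu).symm
    rw [Subgroup.mem_centralizer_iff]
    intro u hu
    exact (Subgroup.mem_centralizer_iff.1 (h1 hu) c rfl).symm
  · intro h
    rw [Subgroup.mem_centralizer_iff] at h ⊢
    intro u hu
    exact h u ((le_sup_left : U ≤ U ⊔ V) hu)

theorem map_cent {S : Subgroup A} {z : A} (hz : z ∈ Subgroup.centralizer (S : Set A)) :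
    φ z ∈ Subgroup.centralizer ((S.map φ : Subgroup B) : Set B) := by
  rw [Subgroup.mem_centralizer_iff]
  rintro _ ⟨s, hs, rfl⟩
  have h := Subgroup.mem_centralizer_iff.1 hz s hs
  rw [← map_mul, h, map_mul]

end CutAAux

open CutAAux

theorem sec_cut (φ : A →* B) (M : Subgroup B) (S : Subgroup A) :
    sec (M.comap φ) S
      = sec ((M ⊓ Subgroup.normalizer ((S.map φ : Subgroup B) : Set B)).comap φ) S := by
  ext w
  rw [mem_sec, mem_sec]
  constructor
  · rintro ⟨x, hx, hxn, rfl⟩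
    exact ⟨x, Subgroup.mem_inf.2 ⟨hx, map_norm hxn⟩, hxn, rfl⟩
  · rintro ⟨x, hx, hxn, rfl⟩
    exact ⟨x, (Subgroup.mem_inf.1 hx).1, hxn, rfl⟩

theorem cutC_invBy {Y : Subgroup A} {U : Subgroup B}
    (hY : ∀ y ∈ Y, φ y ∈ Subgroup.normalizer (U : Set B)) {b : MonoidAlgebra k A}
    (hb : InvBy Y b) : InvBy Y (cutC φ U b) := by
  intro y hy z
  have h1 : y * z * y⁻¹ ∈ φ ⁻¹' (Subgroup.centralizer (U : Set B) : Set B) ↔
      z ∈ φ ⁻¹' (Subgroup.centralizer (U : Set B) : Set B) := by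
    rw [Set.mem_preimage, Set.mem_preimage, map_mul, map_mul, map_inv]
    exact cent_conj_iff (hY y hy)
  unfold cutC cut
  by_cases hz : z ∈ φ ⁻¹' (Subgroup.centralizer (U : Set B) : Set B)
  · rw [coeff_resS_of_mem _ hz, coeff_resS_of_mem _ (h1.2 hz), hb y hy z]
  · rw [coeff_resS_of_notMem _ hz, coeff_resS_of_notMem _ (fun h => hz (h1.1 h))]

theorem cutC_suppIn {M U : Subgroup B} (h : Subgroup.centralizer (U : Set B) ≤ M)
    (b : MonoidAlgebra k A) : SuppIn (M.comap φ) (cutC φ U b) := by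
  intro z hz
  by_cases hz' : z ∈ φ ⁻¹' (Subgroup.centralizer (U : Set B) : Set B)
  · exact h hz'
  · exact absurd (coeff_resS_of_notMem _ hz') hz

theorem proj_cut [Fact p.Prime] [CharP k p] [Fintype A] {b : MonoidAlgebra k A}
    (hb : InvBy ⊤ b) {S : Subgroup A} (hS : IsPGroup p S) {U : Subgroup B}
    (hU : S.map φ ≤ Subgroup.normalizer (U : Set B)) :
    proj S (cutC φ U b) = proj S (cutC φ (U ⊔ S.map φ) b) := by
  have hn1 : ∀ y ∈ S, φ y ∈ Subgroup.normalizer (U : Set B) := fun y hy =>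
    hU (Subgroup.mem_map_of_mem φ hy)
  have hn2 : ∀ y ∈ S, φ y ∈ Subgroup.normalizer ((U ⊔ S.map φ : Subgroup B) : Set B) := by
    intro y hy
    exact Subgroup.le_normalizer ((le_sup_right : S.map φ ≤ U ⊔ S.map φ)
      (Subgroup.mem_map_of_mem φ hy))
  have hb' : InvBy S b := hb.mono le_top
  rw [← WgtAux.proj_resS hS (cutC_invBy hn1 hb') le_rfl,
    ← WgtAux.proj_resS hS (cutC_invBy hn2 hb') le_rfl]
  congr 1
  ext z
  by_cases hz : z ∈ Subgroup.centralizer (S : Set A)
  · rw [coeff_resS_of_mem _ hz, coeff_resS_of_mem _ hz]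
    have h1 : z ∈ φ ⁻¹' (Subgroup.centralizer (U : Set B) : Set B) ↔
        z ∈ φ ⁻¹' (Subgroup.centralizer ((U ⊔ S.map φ : Subgroup B) : Set B) : Set B) :=
      cent_sup (U := U) (map_cent (φ := φ) hz)
    unfold cutC cut
    by_cases h2 : z ∈ φ ⁻¹' (Subgroup.centralizer (U : Set B) : Set B)
    · rw [coeff_resS_of_mem _ h2, coeff_resS_of_mem _ (h1.1 h2)]
    · have h3 : z ∉ φ ⁻¹' (Subgroup.centralizer ((U ⊔ S.map φ : Subgroup B) : Set B) : Set B) :=
        fun h => h2 (h1.2 h)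
      rw [coeff_resS_of_notMem _ h2, coeff_resS_of_notMem _ h3]
  · rw [coeff_resS_of_notMem _ hz, coeff_resS_of_notMem _ hz]

theorem wN_cut [Fact p.Prime] [CharP k p] [Fintype A] {b : MonoidAlgebra k A}
    (hb : InvBy ⊤ b) {S : Subgroup A} (hS : IsPGroup p S) {M U : Subgroup B}
    (hU : S.map φ ≤ Subgroup.normalizer (U : Set B)) :
    wN p (M.comap φ) S (cutC φ U b)
      = wN p ((M ⊓ Subgroup.normalizer ((S.map φ : Subgroup B) : Set B)).comap φ) S
          (cutC φ (U ⊔ S.map φ) b) := by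
  unfold wN
  rw [← sec_cut, proj_cut hb hS hU]

end Pool.Agent.Lib.P0c8ca5.Fg
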