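import Mathlib
import Pool.Agent.Lib.P0c8ca5F.CutA
import Pool.Agent.Lib.P0c8ca5Q.BetA
import Pool.Agent.Lib.P0c8ca5Q.Gq

/-!
# Module CutB: the parts `cutC φ U b` and the Brauer map

`S` is a p-subgroup of `A`, `N = φ.ker`; `Cp ⊤ S = ⊤ ⊓ C(S)`.

PROOFS.
* `comap_cent`: `⊇`: `N` maps to `1`, `C(S)` maps to `C(S.map φ)`.  `⊆` (Glauberman): let `φ x` centralize `S.map φ`; then for `s ∈ S`
  `s x s⁻¹ ∈ x N = N x`, so `S` acts by conjugation on the coset `N x`, a set of order `|N|` prime to `p`; so there is a fixed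
  point `n x ∈ C(S)` (`IsPGroup.card_modEq_card_fixedPoints`, or: `card` of the coset is `1` modulo... not divisible by `p`), and
  `x = n⁻¹ (n x)`.
* `cutC_mem`: the support of `cutC φ (S.map φ) b` is in `(C(S.map φ)).comap φ = N ⊔ Cp ⊤ S`; invariant under `N` by `cutC_invBy`
  (`φ n = 1`); `e * cut φ T b = cut φ T (e * b)` since `e` is supported on `N` (compare coefficients, `coeff_mul_fin`, or
  `resS_mul_cos` in P0c8ca5Q.DecA; only `z` and `n z` with `n ∈ N` are involved and they have the same image).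
* `br_cutC`: `z ∈ C(S)` implies `φ z ∈ C(S.map φ)`, `coeff_resS` (`br S a` is the part on `C(S)`).
* `cutC_idem` for `U = S.map φ` (`exists_lift`): put `c = cutC φ U b`.  `c, c * c ∈ Tc N (N ⊔ Cp ⊤ S) e 1` (`cutC_mem`, `tc_mul`), and
  `br S (c * c) = br S c * br S c = br S b * br S b = br S (b * b) = br S b = br S c` (`Par.br_mul`, `resS_mul`, `br_cutC`), so
  `c * c - c` is zero by `Par.br_inj` (it is in the submodule `Tc`, and `br S` is additive).  `Par p N ⊤ S e` is `⟨h.tri, le_top, hS⟩`.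
* `hasBr_iff`: `HasBr S b` says that `br S b = br S c ≠ 0`, `c = cutC φ (S.map φ) b`; `c = 0` gives `br S c = 0`, and `br S c = 0`
  gives `c = 0` by `Par.br_inj`.
-/

namespace Pool.Agent.Lib.P0c8ca5.Fg

open MonoidAlgebra Ps Bq

variable {p : ℕ} {k : Type*} [Field k] {A B : Type*} [Group A] [Group B] {φ : A →* B}
  {e : MonoidAlgebra k A}

namespace CutBAux

theorem mul_cut [Fintype A] (he : SuppIn φ.ker e) {b : MonoidAlgebra k A} (heb : e * b = b)
    (T : Set B) : e * cut φ T b = cut φ T b := by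
  ext z
  rw [coeff_mul_fin]
  by_cases hz : z ∈ φ ⁻¹' T
  · rw [cut, coeff_resS_of_mem _ hz]
    conv_rhs => rw [← heb, coeff_mul_fin]
    refine Finset.sum_congr rfl fun y _ => ?_
    by_cases hy : e.coeff y = 0
    · rw [hy, zero_mul, zero_mul]
    · have h1 : φ y = 1 := he y hy
      have h2 : y⁻¹ * z ∈ φ ⁻¹' T := by
        change φ (y⁻¹ * z) ∈ T
        rw [map_mul, map_inv, h1, inv_one, one_mul]
        exact hz
      rw [coeff_resS_of_mem _ h2]
  · rw [cut, coeff_resS_of_notMem _ hz]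
    refine Finset.sum_eq_zero fun y _ => ?_
    by_cases hy : e.coeff y = 0
    · rw [hy, zero_mul]
    · have h1 : φ y = 1 := he y hy
      have h2 : y⁻¹ * z ∉ φ ⁻¹' T := by
        intro h3
        apply hz
        have h4 : φ (y⁻¹ * z) ∈ T := h3
        rw [map_mul, map_inv, h1, inv_one, one_mul] at h4
        exact h4
      rw [coeff_resS_of_notMem _ h2, mul_zero]

end CutBAux

theorem Cov.comap_cent [Fact p.Prime] [Finite A] (h : Cov p φ e) {S : Subgroup A}
    (hS : IsPGroup p S) :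
    (Subgroup.centralizer ((S.map φ : Subgroup B) : Set B)).comap φ = φ.ker ⊔ Cp ⊤ S := by
  apply le_antisymm
  · intro x hx
    have hx' : φ x ∈ Subgroup.centralizer ((S.map φ : Subgroup B) : Set B) := hx
    have hmem : ∀ m, m ∈ φ.ker ⊔ S ↔ φ m ∈ S.map φ := by
      intro m
      rw [sup_comm, ← Subgroup.comap_map_eq]
      rfl
    have hxK : x ∈ Subgroup.normalizer ((φ.ker ⊔ S : Subgroup A) : Set A) := by
      rw [GqAux.nm_iff]
      intro m
      rw [hmem, hmem]
      constructor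
      · intro hm
        have h1 := (GqAux.cen_iff.1 hx') _ hm
        rw [map_mul, map_mul, map_inv, ← h1, mul_assoc, mul_inv_cancel, mul_one]
        exact hm
      · intro hm
        have h1 := (GqAux.cen_iff.1 hx') _ hm
        have h2 : φ m = φ (x * m * x⁻¹) := by
          have h3 : (φ x)⁻¹ * (φ (x * m * x⁻¹) * φ x) = (φ x)⁻¹ * (φ x * φ (x * m * x⁻¹)) := by
            rw [h1]
          rw [inv_mul_cancel_left, map_mul, map_mul, map_inv, inv_mul_cancel_right,
            inv_mul_cancel_left] at h3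
          rw [map_mul, map_mul, map_inv]
          exact h3
        rw [h2]
        exact hm
    have hP : Par p φ.ker (Subgroup.normalizer ((φ.ker ⊔ S : Subgroup A) : Set A)) S e :=
      ⟨⟨(le_sup_left : φ.ker ≤ φ.ker ⊔ S).trans (GqAux.self_le _), fun g _ => h.tri.nm (Subgroup.mem_top g),
        h.tri.pp, h.tri.blk, h.tri.inv.mono le_top⟩,
        (le_sup_right : S ≤ φ.ker ⊔ S).trans (GqAux.self_le _), hS⟩
    obtain ⟨n, hn, l, hl, rfl⟩ := hP.frat le_rfl hxK
    have hn1 : φ n = 1 := hn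
    have hl2 : l ∈ Subgroup.centralizer (S : Set A) := by
      rw [GqAux.cen_iff]
      intro s hs
      have h1 : l * s * l⁻¹ * s⁻¹ ∈ S := S.mul_mem (GqAux.nm_mem hl.2 hs) (S.inv_mem hs)
      have h2 : l * s * l⁻¹ * s⁻¹ ∈ φ.ker := by
        rw [MonoidHom.mem_ker]
        have h3 := (GqAux.cen_iff.1 hx') (φ s) ⟨s, hs, rfl⟩
        rw [map_mul, hn1, one_mul] at h3
        rw [map_mul, map_mul, map_mul, map_inv, map_inv, ← h3, mul_assoc (φ s), mul_inv_cancel,
          mul_one, mul_inv_cancel]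
      have h3 := GqAux.p_inf hS h.tri.pp h2 h1
      have h4 : l * s = s * l := by
        have h5 : l * s * l⁻¹ * s⁻¹ * (s * l) = s * l := by rw [h3, one_mul]
        rw [← h5]
        group
      exact h4.symm
    exact Subgroup.mul_mem _ ((le_sup_left : φ.ker ≤ φ.ker ⊔ Cp ⊤ S) hn)
      ((le_sup_right : Cp ⊤ S ≤ φ.ker ⊔ Cp ⊤ S) ⟨Subgroup.mem_top _, hl2⟩)
  · refine sup_le ?_ ?_
    · intro n hn
      have hn1 : φ n = 1 := hn
      change φ n ∈ Subgroup.centralizer ((S.map φ : Subgroup B) : Set B)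
      rw [hn1]
      exact Subgroup.one_mem _
    · intro c hc
      change φ c ∈ Subgroup.centralizer ((S.map φ : Subgroup B) : Set B)
      rw [GqAux.cen_iff]
      rintro _ ⟨s, hs, rfl⟩
      have h1 := (GqAux.cen_iff.1 hc.2) s hs
      change φ s * φ c = φ c * φ s
      rw [← map_mul, h1, map_mul]

theorem Cov.cutC_mem [Fact p.Prime] [CharP k p] [IsAlgClosed k] [Fintype A] (h : Cov p φ e)
    {S : Subgroup A} (hS : IsPGroup p S) {b : MonoidAlgebra k A} (hb : b ∈ Tc φ.ker ⊤ e 1) :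
    cutC φ (S.map φ) b ∈ Tc φ.ker (φ.ker ⊔ Cp ⊤ S) e 1 := by
  obtain ⟨_, h2, h3⟩ := mem_Tc.1 hb
  refine mem_Tc.2 ⟨fun z hz => ?_, ?_, ?_⟩
  · rw [inv_one, mul_one, ← h.comap_cent hS]
    by_contra hcon
    apply hz
    exact coeff_resS_of_notMem _ hcon
  · refine cutC_invBy (fun y hy => ?_) h2
    have hy1 : φ y = 1 := hy
    rw [hy1]
    exact Subgroup.one_mem _
  · exact CutBAux.mul_cut h.tri.blk.suppIn h3 _

theorem br_cutC (φ : A →* B) (S : Subgroup A) (b : MonoidAlgebra k A) :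
    br S (cutC φ (S.map φ) b) = br S b := by
  ext z
  by_cases hz : z ∈ (Subgroup.centralizer (S : Set A) : Set A)
  · have h1 : z ∈ φ ⁻¹' (Subgroup.centralizer ((S.map φ : Subgroup B) : Set B) : Set B) := by
      change φ z ∈ Subgroup.centralizer ((S.map φ : Subgroup B) : Set B)
      rw [GqAux.cen_iff]
      rintro _ ⟨s, hs, rfl⟩
      have h1 := (GqAux.cen_iff.1 hz) s hs
      change φ s * φ z = φ z * φ s
      rw [← map_mul, h1, map_mul]
    rw [br, br, coeff_resS_of_mem _ hz, coeff_resS_of_mem _ hz, cutC, cut,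
      coeff_resS_of_mem _ h1]
  · rw [br, br, coeff_resS_of_notMem _ hz, coeff_resS_of_notMem _ hz]

theorem Cov.mul_cutC (h : Cov p φ e) [Fintype A] {b : MonoidAlgebra k A} (heb : e * b = b)
    (U : Subgroup B) : e * cutC φ U b = cutC φ U b := by
  exact CutBAux.mul_cut h.tri.blk.suppIn heb _

theorem Cov.cutC_idem [Fact p.Prime] [CharP k p] [IsAlgClosed k] [Fintype A] (h : Cov p φ e)
    {b : MonoidAlgebra k A} (hb : InvBy ⊤ b) (hbb : b * b = b) (heb : e * b = b)
    {U : Subgroup B} (hU : IsPGroup p U) : cutC φ U b * cutC φ U b = cutC φ U b := by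
  obtain ⟨S, hS, rfl⟩ := exists_lift h.surj hU
  have hP : Par p φ.ker ⊤ S e := ⟨h.tri, le_top, hS⟩
  have hbT : b ∈ Tc φ.ker ⊤ e 1 :=
    mem_Tc.2 ⟨fun z _ => Subgroup.mem_top _, hb.mono le_top, heb⟩
  have hc := h.cutC_mem hS hbT
  have hcc := tc_mul h.tri hc hc
  have h1 : br S (cutC φ (S.map φ) b * cutC φ (S.map φ) b) = br S (cutC φ (S.map φ) b) := by
    rw [hP.br_mul hc hc, br_cutC]
    have h2 : br S (b * b) = br S b * br S b :=
      resS_mul hS (hb.mono le_top) (hb.mono le_top)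
    rw [← h2, hbb]
  have h2 : br S (cutC φ (S.map φ) b * cutC φ (S.map φ) b + (-1 : k) • cutC φ (S.map φ) b) = 0 := by
    rw [BetAAux.br_add, BetAAux.br_smul, h1, neg_smul, one_smul, add_neg_cancel]
  have h3 := hP.br_inj (Submodule.add_mem _ hcc (Submodule.smul_mem _ _ hc)) h2
  rw [neg_smul, one_smul, add_neg_eq_zero] at h3
  exact h3

theorem Cov.hasBr_iff [Fact p.Prime] [CharP k p] [IsAlgClosed k] [Fintype A] (h : Cov p φ e)
    {S : Subgroup A} (hS : IsPGroup p S) {b : MonoidAlgebra k A} (hb : b ∈ Tc φ.ker ⊤ e 1) :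
    HasBr S b ↔ cutC φ (S.map φ) b ≠ 0 := by
  have hP : Par p φ.ker ⊤ S e := ⟨h.tri, le_top, hS⟩
  have hc := h.cutC_mem hS hb
  constructor
  · rintro ⟨x, hx, hbx⟩ h0
    apply hbx
    have h1 := br_cutC φ S b
    rw [h0] at h1
    have h2 : (br S b).coeff x = b.coeff x := coeff_resS_of_mem _ hx
    rw [← h2, ← h1, BetAAux.br_zero]
    rfl
  · intro h0
    by_contra hcon
    apply h0
    apply hP.br_inj hc
    rw [br_cutC]
    ext z
    by_cases hz : z ∈ (Subgroup.centralizer (S : Set A) : Set A)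
    · rw [br, coeff_resS_of_mem _ hz]
      by_contra h1
      exact hcon ⟨z, hz, h1⟩
    · rw [br, coeff_resS_of_notMem _ hz]
      rfl

end Pool.Agent.Lib.P0c8ca5.Fg
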