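import Mathlib
import Pool.Agent.Lib.P0c8ca5F.GrA

/-!
# Module GrN: normalizers of p-subgroups and a surjective homomorphism `φ : A → B`

PROOFS.
* `map_norm` (Frattini): `⊇`: let `b ∈ M` normalize `S.map φ`, `b = φ a`; `S` and `cg a S` are p-subgroups with the same image, so
  `cg a S = cg n S` (`conj_lift`), `n⁻¹ * a` normalizes `S` and `φ (n⁻¹ * a) = b`.  `⊆`: clear.
* `card_norm`: `φ` restricted to `M.comap φ ⊓ N(S)` has image `M ⊓ N(S.map φ)` (`map_norm`) and kernel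
  `φ.ker ⊓ N(S)` (`φ.ker ≤ M.comap φ`).
* `card_fib`: `φ.ker` acts on the set `X` by conjugation, transitively by `conj_lift`; the stabilizer of `S` is
  `φ.ker ⊓ N(S)`.  (E.g. count the pairs `(n, S')`, `n ∈ φ.ker`, `S' = cg n S`: each `S' ∈ X` is `cg n S` for exactly
  `|φ.ker ⊓ N(S)|` elements `n ∈ φ.ker`: a coset.  Compare `card_conj` in P0c8ca5S.Wgt.)
-/

namespace Pool.Agent.Lib.P0c8ca5.Fg

open MonoidAlgebra Ps Bq

variable {p : ℕ} {A B : Type*} [Group A] [Group B] {φ : A →* B}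

namespace GrNAux

theorem map_cg (a : A) (S : Subgroup A) : (cg a S).map φ = cg (φ a) (S.map φ) := by
  unfold cg
  rw [Subgroup.map_map, Subgroup.map_map]
  congr 1
  ext x
  simp

theorem card_restrict (H : Subgroup A) :
    Nat.card ↥H = Nat.card ↥(φ.ker ⊓ H) * Nat.card ↥(H.map φ) := by
  have h1 := Subgroup.card_eq_card_quotient_mul_card_subgroup (φ.subgroupMap H).ker
  have h2 : Nat.card (↥H ⧸ (φ.subgroupMap H).ker) = Nat.card ↥(H.map φ) :=
    Nat.card_congr
      (QuotientGroup.quotientKerEquivOfSurjective (φ.subgroupMap H)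
        (φ.subgroupMap_surjective H)).toEquiv
  have h3 : Nat.card ↥((φ.subgroupMap H).ker) = Nat.card ↥(φ.ker ⊓ H) := by
    refine Nat.card_congr
      { toFun := fun x => ⟨x.1.1, ?_⟩
        invFun := fun y => ⟨⟨y.1, (Subgroup.mem_inf.1 y.2).2⟩, ?_⟩
        left_inv := ?_
        right_inv := ?_ }
    · refine Subgroup.mem_inf.2 ⟨?_, x.1.2⟩
      have := x.2
      rw [MonoidHom.mem_ker] at this ⊢
      exact congrArg Subtype.val this
    · rw [MonoidHom.mem_ker]
      apply Subtype.ext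
      have h4 := (Subgroup.mem_inf.1 y.2).1
      rw [MonoidHom.mem_ker] at h4
      exact h4
    · intro x
      rfl
    · intro y
      rfl
  rw [h1, h2, h3, mul_comm]

end GrNAux

open GrNAux

theorem map_norm [Fact p.Prime] [Finite A] (hφ : Function.Surjective φ)
    (hker : ¬ p ∣ Nat.card φ.ker) {S : Subgroup A} (hS : IsPGroup p S) (M : Subgroup B) :
    (M.comap φ ⊓ Subgroup.normalizer (S : Set A)).map φ
      = M ⊓ Subgroup.normalizer ((S.map φ : Subgroup B) : Set B) := by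
  apply le_antisymm
  · rintro _ ⟨a, ha, rfl⟩
    obtain ⟨h1, h2⟩ := Subgroup.mem_inf.1 ha
    refine Subgroup.mem_inf.2 ⟨h1, ?_⟩
    rw [← cg_eq_self_iff, ← map_cg, cg_eq_self_iff.2 h2]
  · intro b hb
    obtain ⟨h1, h2⟩ := Subgroup.mem_inf.1 hb
    obtain ⟨a, rfl⟩ := hφ b
    have h3 : S.map φ = (cg a S).map φ := by
      rw [map_cg, cg_eq_self_iff.2 h2]
    obtain ⟨n, hn, hn'⟩ := conj_lift hker hS (isPGroup_cg hS) h3
    refine ⟨n⁻¹ * a, Subgroup.mem_inf.2 ⟨?_, ?_⟩, ?_⟩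
    · rw [Subgroup.mem_comap, map_mul, map_inv, MonoidHom.mem_ker.1 hn, inv_one, one_mul]
      exact h1
    · rw [← cg_eq_self_iff, ← cg_cg, hn', cg_cg, inv_mul_cancel, cg_one]
    · rw [map_mul, map_inv, MonoidHom.mem_ker.1 hn, inv_one, one_mul]

theorem card_norm [Fact p.Prime] [Finite A] (hφ : Function.Surjective φ)
    (hker : ¬ p ∣ Nat.card φ.ker) {S : Subgroup A} (hS : IsPGroup p S) (M : Subgroup B) :
    Nat.card ↥(M.comap φ ⊓ Subgroup.normalizer (S : Set A))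
      = Nat.card ↥(φ.ker ⊓ Subgroup.normalizer (S : Set A))
        * Nat.card ↥(M ⊓ Subgroup.normalizer ((S.map φ : Subgroup B) : Set B)) := by
  rw [card_restrict (φ := φ) (M.comap φ ⊓ Subgroup.normalizer (S : Set A)),
    map_norm hφ hker hS M]
  have h1 : φ.ker ⊓ M.comap φ = φ.ker := by
    apply inf_eq_left.2
    intro x hx
    rw [Subgroup.mem_comap, MonoidHom.mem_ker.1 hx]
    exact M.one_mem
  rw [← inf_assoc, h1]

theorem card_fib [Fact p.Prime] [Finite A] (hker : ¬ p ∣ Nat.card φ.ker) {S : Subgroup A}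
    (hS : IsPGroup p S) (X : Finset (Subgroup A))
    (hX : ∀ S', S' ∈ X ↔ IsPGroup p S' ∧ S'.map φ = S.map φ) :
    X.card * Nat.card ↥(φ.ker ⊓ Subgroup.normalizer (S : Set A)) = Nat.card φ.ker := by
  classical
  have hc : ∀ S' : X, ∃ n ∈ φ.ker, S'.1 = cg n S := by
    intro S'
    obtain ⟨h1, h2⟩ := (hX _).1 S'.2
    exact conj_lift hker hS h1 h2.symm
  choose n hn hn' using hc
  have hmem : ∀ x ∈ φ.ker, cg x S ∈ X := by
    intro x hx
    refine (hX _).2 ⟨isPGroup_cg hS, ?_⟩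
    rw [map_cg, MonoidHom.mem_ker.1 hx, cg_one]
  have key : ∀ (a x : A), cg a S = cg x S → a⁻¹ * x ∈ Subgroup.normalizer (S : Set A) := by
    intro a x h
    rw [← cg_eq_self_iff, ← cg_cg, ← h, cg_cg, inv_mul_cancel, cg_one]
  have e : X × ↥(φ.ker ⊓ Subgroup.normalizer (S : Set A)) ≃ ↥φ.ker :=
    { toFun := fun q => ⟨n q.1 * q.2.1,
        φ.ker.mul_mem (hn q.1) (Subgroup.mem_inf.1 q.2.2).1⟩
      invFun := fun x => ⟨⟨cg x.1 S, hmem x.1 x.2⟩,
        ⟨(n ⟨cg x.1 S, hmem x.1 x.2⟩)⁻¹ * x.1, Subgroup.mem_inf.2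
          ⟨φ.ker.mul_mem (φ.ker.inv_mem (hn _)) x.2, key _ _ (hn' ⟨cg x.1 S, hmem x.1 x.2⟩).symm⟩⟩⟩
      left_inv := by
        rintro ⟨S', y⟩
        obtain ⟨hy1, hy2⟩ := Subgroup.mem_inf.1 y.2
        have h1 : (⟨cg (n S' * y.1) S,
            hmem _ (φ.ker.mul_mem (hn S') hy1)⟩ : X) = S' := by
          apply Subtype.ext
          change cg (n S' * y.1) S = S'.1
          rw [← cg_cg, cg_eq_self_iff.2 hy2, ← hn']
        apply Prod.ext
        · exact h1
        · apply Subtype.ext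
          change (n ⟨cg (n S' * y.1) S, _⟩)⁻¹ * (n S' * y.1) = y.1
          rw [h1, inv_mul_cancel_left]
      right_inv := by
        intro x
        apply Subtype.ext
        change n ⟨cg x.1 S, _⟩ * ((n ⟨cg x.1 S, _⟩)⁻¹ * x.1) = x.1
        rw [mul_inv_cancel_left] }
  rw [← Nat.card_congr e, Nat.card_prod, Nat.card_eq_fintype_card (α := X), Fintype.card_coe]

end Pool.Agent.Lib.P0c8ca5.Fg
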