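import Mathlib
import Pool.Agent.Lib.P0c8ca5F.GrN

/-!
# Module GrB: sums over the p-subgroups of `A` and of `B`

PROOF of `sum_fib`.  Group the sum over `D` by the image `T = S.map φ ∈ E` (`Finset.sum_fiberwise_of_maps_to`; the image of a
p-subgroup of `M.comap φ` is a p-subgroup of `M`).  For `T ∈ E` let `S₀ = lft p φ T` (`lft_spec`: `S₀.map φ = T`, so `S₀ ≤
M.comap φ`).  The fibre is the set `X` of all p-subgroups with image `T` (they are all contained in `M.comap φ`), `card_fib` for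
`S₀`.  Every `S` in the fibre is `cg n S₀` with `n ∈ φ.ker` (`conj_lift`), so `w S = w S₀` (`hw`) and, by `card_norm` for `S`,
`|M.comap φ ⊓ N(S)| = |φ.ker ⊓ N(S)| * |M ⊓ N(T)|` with `|φ.ker ⊓ N(S)| = |φ.ker ⊓ N(S₀)|` (conjugate by `n`; or apply `card_fib` to
both `S` and `S₀` with the same `X`: `X.card * |φ.ker ⊓ N(S)| = |φ.ker| = X.card * |φ.ker ⊓ N(S₀)|`, `X.card > 0`).  So the sum
over the fibre is `X.card * |φ.ker ⊓ N(S₀)| * |M ⊓ N(T)| * w S₀ = |φ.ker| * |M ⊓ N(T)| * w S₀`.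
-/

namespace Pool.Agent.Lib.P0c8ca5.Fg

open MonoidAlgebra Ps Bq

variable {p : ℕ} {A B : Type*} [Group A] [Group B] {φ : A →* B}

theorem sum_fib [Fact p.Prime] [Finite A] (hφ : Function.Surjective φ)
    (hker : ¬ p ∣ Nat.card φ.ker) (M : Subgroup B) (w : Subgroup A → ℕ)
    (hw : ∀ S, ∀ n ∈ φ.ker, w (cg n S) = w S) (D : Finset (Subgroup A))
    (hD : ∀ S, S ∈ D ↔ S ≤ M.comap φ ∧ IsPGroup p S) (E : Finset (Subgroup B))
    (hE : ∀ T, T ∈ E ↔ T ≤ M ∧ IsPGroup p T) :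
    ∑ S ∈ D, Nat.card ↥(M.comap φ ⊓ Subgroup.normalizer (S : Set A)) * w S
      = Nat.card φ.ker
        * ∑ T ∈ E, Nat.card ↥(M ⊓ Subgroup.normalizer (T : Set B)) * w (lft p φ T) := by
  classical
  have hmap : ∀ S ∈ D, S.map φ ∈ E := by
    intro S hS
    obtain ⟨h1, h2⟩ := (hD S).1 hS
    rw [hE]
    exact ⟨Subgroup.map_le_iff_le_comap.2 h1, h2.map φ⟩
  rw [← Finset.sum_fiberwise_of_maps_to hmap, Finset.mul_sum]
  refine Finset.sum_congr rfl ?_
  intro T hT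
  obtain ⟨hTM, hTp⟩ := (hE T).1 hT
  obtain ⟨hS0p, hS0⟩ := lft_spec hφ hTp
  set S₀ := lft p φ T with hS₀def
  set X := D.filter (fun S => S.map φ = T) with hX
  have hXm : ∀ S', S' ∈ X ↔ IsPGroup p S' ∧ S'.map φ = S₀.map φ := by
    intro S'
    rw [hX, Finset.mem_filter, hD, hS0]
    constructor
    · rintro ⟨⟨_, h2⟩, h3⟩
      exact ⟨h2, h3⟩
    · rintro ⟨h2, h3⟩
      exact ⟨⟨Subgroup.map_le_iff_le_comap.1 (le_of_eq_of_le h3 hTM), h2⟩, h3⟩
  have hS0X : S₀ ∈ X := (hXm S₀).2 ⟨hS0p, rfl⟩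
  have hcard := card_fib hker hS0p X hXm
  have hpos : 0 < X.card := Finset.card_pos.2 ⟨S₀, hS0X⟩
  have hterm : ∀ S ∈ X, Nat.card ↥(M.comap φ ⊓ Subgroup.normalizer (S : Set A)) * w S
      = Nat.card ↥(φ.ker ⊓ Subgroup.normalizer (S₀ : Set A))
        * Nat.card ↥(M ⊓ Subgroup.normalizer (T : Set B)) * w S₀ := by
    intro S hS
    obtain ⟨hSp, hSm⟩ := (hXm S).1 hS
    obtain ⟨n, hn, hSn⟩ := conj_lift hker hS0p hSp hSm.symm
    have hwS : w S = w S₀ := by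
      rw [hSn]
      exact hw S₀ n hn
    have hc2 : X.card * Nat.card ↥(φ.ker ⊓ Subgroup.normalizer (S : Set A))
        = Nat.card φ.ker := by
      apply card_fib hker hSp X
      intro S'
      rw [hXm, hSm]
    have hc3 : Nat.card ↥(φ.ker ⊓ Subgroup.normalizer (S : Set A))
        = Nat.card ↥(φ.ker ⊓ Subgroup.normalizer (S₀ : Set A)) :=
      Nat.eq_of_mul_eq_mul_left hpos (hc2.trans hcard.symm)
    rw [card_norm hφ hker hSp M, hc3, hwS, hSm, hS0]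
  rw [Finset.sum_congr rfl hterm, Finset.sum_const, smul_eq_mul, ← hcard]
  ring

end Pool.Agent.Lib.P0c8ca5.Fg
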