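import Mathlib
import Pool.Agent.Lib.P0c8ca5F.GrB
import Pool.Agent.Lib.P0c8ca5F.CutB
import Pool.Agent.Lib.P0c8ca5S.Wgt
import Pool.Agent.Lib.P0c8ca5N.Inv
import Pool.Agent.Lib.P0c8ca5N.Final

/-!
# The number of weights in terms of the chains of p-subgroups of `B`
-/

namespace Pool.Agent.Lib.P0c8ca5.Fg

open MonoidAlgebra Ps Bq

variable {p : ℕ} {k : Type*} [Field k] {A B : Type*} [Group A] [Group B] {φ : A →* B}
  {e : MonoidAlgebra k A}

theorem ch_mem {D : Finset (Subgroup B)} {τ : Finset (Subgroup B)} :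
    τ ∈ Ch D ↔ τ ⊆ D ∧ IsChain (· ≤ ·) (τ : Set (Subgroup B)) := by
  classical
  rw [Ch, Finset.mem_filter, Finset.mem_powerset]

theorem stab_le_norm {X : Subgroup B} {τ : Finset (Subgroup B)} {U : Subgroup B} (hU : U ∈ τ) :
    stab X τ ≤ Subgroup.normalizer (U : Set B) := fun _ hx => (mem_stab.1 hx).2 U hU

/-- the centralizer of the largest member is contained in the stabilizer -/
theorem cent_le_stab (τ : Finset (Subgroup B)) :
    Subgroup.centralizer ((τ.sup id : Subgroup B) : Set B) ≤ stab ⊤ τ := by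
  intro x hx
  rw [mem_stab]
  refine ⟨Subgroup.mem_top x, fun R hR => ?_⟩
  have hRS : R ≤ τ.sup id := Finset.le_sup (f := id) hR
  exact Subgroup.centralizer_le_normalizer _ (Subgroup.centralizer_le hRS hx)

theorem stab_le_norm_sup {τ : Finset (Subgroup B)}
    (hτ : IsChain (· ≤ ·) (τ : Set (Subgroup B))) :
    stab ⊤ τ ≤ Subgroup.normalizer ((τ.sup id : Subgroup B) : Set B) := by
  rcases τ.eq_empty_or_nonempty with h0 | h0
  · rw [h0, Finset.sup_empty]
    intro x _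
    rw [Subgroup.mem_normalizer_iff]
    intro y
    simp
  · exact stab_le_norm (sup_mem_chain h0 hτ)

theorem le_stab {τ : Finset (Subgroup B)} {Q : Subgroup B}
    (hmin : ∀ R ∈ τ, Q ≤ R) : Q ≤ stab ⊤ τ := by
  intro x hx
  rw [mem_stab]
  exact ⟨Subgroup.mem_top x, fun R hR => Subgroup.le_normalizer (hmin R hR hx)⟩

theorem lft_bot [Fact p.Prime] [Finite A] (hφ : Function.Surjective φ)
    (hker : ¬ p ∣ Nat.card φ.ker) : lft p φ ⊥ = ⊥ := by
  obtain ⟨h1, h2⟩ := lft_spec (p := p) hφ (IsPGroup.of_bot (G := B))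
  rw [eq_bot_iff]
  intro x hx
  rw [Subgroup.mem_bot]
  apply map_inj hker h1 hx
  have h3 : φ x ∈ (lft p φ ⊥).map φ := ⟨x, hx, rfl⟩
  rw [h2] at h3
  exact Subgroup.mem_bot.1 h3

theorem Cov.tri_le (h : Cov p φ e) (Y : Subgroup A) (hY : φ.ker ≤ Y) : Tri p φ.ker Y e :=
  { le := hY
    nm := le_top.trans h.tri.nm
    pp := h.tri.pp
    blk := h.tri.blk
    inv := h.tri.inv.mono le_top }

/-- there are no weights with trivial subgroup for a nonempty chain -/
theorem Cov.wN_bot [Fact p.Prime] [CharP k p] [IsAlgClosed k] [Fintype A] (h : Cov p φ e)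
    {b : MonoidAlgebra k A} (heb : e * b = b) {τ : Finset (Subgroup B)}
    (hne : τ.Nonempty) (hτ : IsChain (· ≤ ·) (τ : Set (Subgroup B)))
    (hτp : ∀ T ∈ τ, IsPGroup p T ∧ T ≠ ⊥) :
    wN p ((stab ⊤ τ).comap φ) ⊥ (cutC φ (τ.sup id) b) = 0 := by
  classical
  obtain ⟨Q, hQτ, hQmin⟩ := exists_least hne hτ
  obtain ⟨hQp, hQne⟩ := hτp Q hQτ
  obtain ⟨hP, hPQ⟩ := lft_spec (p := p) h.surj hQp
  set P := lft p φ Q with hPdef
  set Y := (stab ⊤ τ).comap φ with hY
  have hkY : φ.ker ≤ Y := Subgroup.ker_le_comap φ _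
  have hPY : P ≤ Y := by
    rw [hY, ← Subgroup.map_le_iff_le_comap, hPQ]
    exact le_stab hQmin
  have hNP : Y ≤ Subgroup.normalizer ((φ.ker ⊔ P : Subgroup A) : Set A) := by
    have h1 : φ.ker ⊔ P = Q.comap φ := by
      rw [← hPQ, Subgroup.comap_map_eq, sup_comm]
    rw [h1]
    intro y hy
    have h2 : φ y ∈ Subgroup.normalizer (Q : Set B) := stab_le_norm hQτ hy
    rw [Subgroup.mem_normalizer_iff] at h2 ⊢
    intro z
    rw [Subgroup.mem_comap, Subgroup.mem_comap, map_mul, map_mul, map_inv]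
    exact h2 (φ z)
  unfold wN
  have hemp : IsEmpty {f : MonoidAlgebra k (NQ (⊥ : Subgroup A)) |
      IsDZ p (sec Y ⊥) f ∧ f * proj ⊥ (cutC φ (τ.sup id) b) = f} := by
    constructor
    rintro ⟨f, hf, hfc⟩
    have hbot : ∀ a : MonoidAlgebra k A, InvBy (⊥ : Subgroup A) a := by
      intro a g hg z
      rw [Subgroup.mem_bot.1 hg]
      simp
    have hec := h.mul_cutC heb (τ.sup id)
    have hce : e * cutC φ (τ.sup id) b = cutC φ (τ.sup id) b * e := by
      have h1 : SuppIn (⊤ : Subgroup A) (cutC φ (τ.sup id) b) := fun _ _ => Subgroup.mem_top _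
      exact (commute_of h1 h.tri.inv).symm
    have hfe : f * proj ⊥ e = f := by
      calc f * proj ⊥ e = f * proj ⊥ (cutC φ (τ.sup id) b) * proj ⊥ e := by rw [hfc]
        _ = f * proj ⊥ (cutC φ (τ.sup id) b * e) := by
          rw [proj_mul (p := p) IsPGroup.of_bot (hbot _) (hbot _), mul_assoc]
        _ = f * proj ⊥ (cutC φ (τ.sup id) b) := by rw [← hce, hec]
        _ = f := hfc
    obtain ⟨g, _, hg⟩ := WgtAux.weight_inf (h.tri_le Y hkY) hPY hP hNP bot_le
      IsPGroup.of_bot hf hfe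
    rw [bot_inf_eq] at hg
    have h3 : P = ⊥ := by
      have h4 := congrArg (cg g⁻¹) hg
      rw [cg_cg, inv_mul_cancel, cg_one] at h4
      rw [← h4, eq_bot_iff]
      intro x hx
      rw [mem_cg, Subgroup.mem_bot] at hx
      rw [Subgroup.mem_bot]
      have h5 : x = g⁻¹ * (g * x * g⁻¹) * g := by group
      rw [inv_inv] at hx
      rw [h5, hx]
      group
    apply hQne
    rw [← hPQ, h3, Subgroup.map_bot]
  exact Nat.card_of_isEmpty

/-- **the number of weights** as an alternating sum over the chains of nontrivial p-subgroups of `B` -/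
theorem Cov.ws_chain [Fact p.Prime] [CharP k p] [IsAlgClosed k] [Fintype A] [Finite B]
    (h : Cov p φ e) {b : MonoidAlgebra k A} (hb : InvBy ⊤ b) (heb : e * b = b)
    (D : Finset (Subgroup B)) (hD : ∀ T, T ∈ D ↔ IsPGroup p T ∧ T ≠ ⊥) :
    (Fr.Ws p ⊤ b : ℤ) = Nat.card A * wN p ⊤ ⊥ b
      + ∑ τ ∈ (Ch D).filter (fun τ => τ.Nonempty), (-1) ^ (τ.card + 1)
        * (Fr.Ws p ((stab ⊤ τ).comap φ) (cutC φ (τ.sup id) b) : ℤ) := by
  classical
  have : Fintype (Subgroup B) := Fintype.ofFinite _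
  let W : Subgroup B → Subgroup B → Subgroup B → ℤ := fun M T S =>
    ((Nat.card M * wN p (M.comap φ) (lft p φ T) (cutC φ S b) : ℕ) : ℤ)
  have hinvol := involution (p := p) (⊤ : Subgroup B) D
    (fun Q hQ => ⟨le_top, ((hD Q).1 hQ).1⟩)
    (fun Q hQ R _ hR hQR => (hD R).2 ⟨hR, fun h0 => ((hD Q).1 hQ).2
      (by rw [h0] at hQR; exact le_bot_iff.1 hQR)⟩) W
  let F : Finset (Subgroup B) → ℕ := fun τ => ∑ T ∈ D.filter (fun T => T ≤ stab ⊤ τ),
    Nat.card ↥(stab ⊤ τ ⊓ Subgroup.normalizer (T : Set B))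
      * wN p ((stab ⊤ τ).comap φ) (lft p φ T) (cutC φ (τ.sup id) b)
  have hchain : ∀ τ ∈ Ch D, IsChain (· ≤ ·) (τ : Set (Subgroup B)) := fun τ hτ =>
    (ch_mem.1 hτ).2
  have hF : ∀ τ ∈ Ch D, ∑ T ∈ D.filter (fun T => T ≤ stab ⊤ τ),
      W (stab ⊤ τ ⊓ Subgroup.normalizer (T : Set B)) T (τ.sup id ⊔ T) = (F τ : ℤ) := by
    intro τ hτ
    rw [Nat.cast_sum]
    refine Finset.sum_congr rfl fun T hT => ?_
    obtain ⟨h1, h2⟩ := Finset.mem_filter.1 hT
    obtain ⟨h3, h4⟩ := lft_spec (p := p) h.surj ((hD T).1 h1).1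
    have h5 : (lft p φ T).map φ ≤ Subgroup.normalizer ((τ.sup id : Subgroup B) : Set B) := by
      rw [h4]
      exact h2.trans (stab_le_norm_sup (hchain τ hτ))
    have h6 := wN_cut (φ := φ) hb h3 (M := stab ⊤ τ) h5
    rw [h4] at h6
    change ((_ * _ : ℕ) : ℤ) = ((_ * _ : ℕ) : ℤ)
    rw [h6]
  -- the full sums
  have hfull : ∀ τ ∈ Ch D, Fr.Ws p ((stab ⊤ τ).comap φ) (cutC φ (τ.sup id) b)
      = Nat.card φ.ker * (F τ + Nat.card ↥(stab ⊤ τ)
        * wN p ((stab ⊤ τ).comap φ) ⊥ (cutC φ (τ.sup id) b)) := by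
    intro τ hτ
    let Y := (stab ⊤ τ).comap φ
    let c := cutC φ (τ.sup id) b
    let w : Subgroup A → ℕ := fun S => wN p Y S c
    have hcs : SuppIn Y c := cutC_suppIn (cent_le_stab τ) b
    have hci : InvBy Y c := by
      refine cutC_invBy (fun y hy => ?_) (hb.mono le_top)
      exact stab_le_norm_sup (hchain τ hτ) hy
    have hw : ∀ S, ∀ n ∈ φ.ker, w (cg n S) = w S := fun S n hn =>
      card_cg_eq hcs hci (Subgroup.ker_le_comap φ _ hn)
    have h1 := sum_fib (p := p) h.surj h.tri.pp (stab ⊤ τ) w hw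
      (Finset.univ.filter (fun S : Subgroup A => S ≤ Y ∧ IsPGroup p S)) (fun S => by
        rw [Finset.mem_filter]
        exact ⟨fun h => h.2, fun h => ⟨Finset.mem_univ _, h⟩⟩)
      (Finset.univ.filter (fun T : Subgroup B => T ≤ stab ⊤ τ ∧ IsPGroup p T)) (fun T => by
        rw [Finset.mem_filter]
        exact ⟨fun h => h.2, fun h => ⟨Finset.mem_univ _, h⟩⟩)
    have h2 : Fr.Ws p Y c = ∑ S ∈ Finset.univ.filter
        (fun S : Subgroup A => S ≤ Y ∧ IsPGroup p S),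
        Nat.card ↥(Y ⊓ Subgroup.normalizer (S : Set A)) * w S := by
      unfold Fr.Ws
      exact Finset.sum_congr (Finset.filter_congr_decidable _ _ _) (fun _ _ => rfl)
    have h3 : Finset.univ.filter (fun T : Subgroup B => T ≤ stab ⊤ τ ∧ IsPGroup p T)
        = insert ⊥ (D.filter (fun T => T ≤ stab ⊤ τ)) := by
      ext T
      rw [Finset.mem_filter, Finset.mem_insert, Finset.mem_filter, hD]
      constructor
      · rintro ⟨_, h4, h5⟩
        by_cases h6 : T = ⊥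
        · exact Or.inl h6
        · exact Or.inr ⟨⟨h5, h6⟩, h4⟩
      · rintro (h4 | ⟨⟨h5, _⟩, h4⟩)
        · rw [h4]
          exact ⟨Finset.mem_univ _, bot_le, IsPGroup.of_bot⟩
        · exact ⟨Finset.mem_univ _, h4, h5⟩
    have h4 : (⊥ : Subgroup B) ∉ D.filter (fun T => T ≤ stab ⊤ τ) := by
      intro h5
      exact ((hD _).1 (Finset.mem_filter.1 h5).1).2 rfl
    have h5 : (stab ⊤ τ ⊓ Subgroup.normalizer ((⊥ : Subgroup B) : Set B)) = stab ⊤ τ := by
      rw [inf_eq_left]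
      intro x _
      rw [Subgroup.mem_normalizer_iff]
      intro y
      simp
    change Fr.Ws p Y c = _
    rw [h2, h1, h3, Finset.sum_insert h4, h5, lft_bot h.surj h.tri.pp]
    change Nat.card φ.ker * (_ + F τ) = Nat.card φ.ker * (F τ + _)
    rw [add_comm]
  have hmem : (∅ : Finset (Subgroup B)) ∈ Ch D := by
    rw [Ch, Finset.mem_filter]
    exact ⟨Finset.empty_mem_powerset _, by simp⟩
  have herase : (Ch D).filter (fun τ => τ.Nonempty) = (Ch D).erase ∅ := by
    ext τ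
    rw [Finset.mem_filter, Finset.mem_erase, Finset.nonempty_iff_ne_empty]
    tauto
  have h1 : ∑ τ ∈ Ch D, (-1 : ℤ) ^ τ.card * (F τ : ℤ) = 0 := by
    rw [← hinvol]
    exact Finset.sum_congr rfl fun τ hτ => by rw [hF τ hτ]
  rw [← Finset.add_sum_erase _ _ hmem, Finset.card_empty, pow_zero, one_mul] at h1
  -- the empty chain
  have h2 := hfull ∅ hmem
  have hs0 : stab (⊤ : Subgroup B) ∅ = ⊤ := stab_empty ⊤
  have hc0 : cutC φ ((∅ : Finset (Subgroup B)).sup id) b = b := by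
    rw [Finset.sup_empty]
    ext x
    change (resS _ b).coeff x = _
    rw [coeff_resS, if_pos]
    change φ x ∈ Subgroup.centralizer ((⊥ : Subgroup B) : Set B)
    rw [Subgroup.mem_centralizer_iff]
    intro y hy
    rw [Subgroup.mem_bot.1 hy]
    simp
  rw [hs0, hc0, Subgroup.comap_top] at h2
  have hcard : Nat.card φ.ker * Nat.card ↥(⊤ : Subgroup B) = Nat.card A := by
    have h3 := Subgroup.card_mul_index φ.ker
    rw [Subgroup.index_ker] at h3
    rw [← h3, Subgroup.card_top, MonoidHom.range_eq_top.2 h.surj, Subgroup.card_top]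
  have h3 : ∀ τ ∈ (Ch D).erase ∅, (-1 : ℤ) ^ (τ.card + 1)
        * (Fr.Ws p ((stab ⊤ τ).comap φ) (cutC φ (τ.sup id) b) : ℤ)
      = -((Nat.card φ.ker : ℤ) * ((-1) ^ τ.card * (F τ : ℤ))) := by
    intro τ hτ
    rw [Finset.mem_erase] at hτ
    have h4 := h.wN_bot heb (Finset.nonempty_iff_ne_empty.2 hτ.1) (hchain τ hτ.2)
      (fun T hT => (hD T).1 ((ch_mem.1 hτ.2).1 hT))
    rw [hfull τ hτ.2, h4, mul_zero, add_zero, pow_succ]
    push_cast
    ring
  rw [h2, herase, Finset.sum_congr rfl h3, Finset.sum_neg_distrib, ← Finset.mul_sum, ← hcard]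
  push_cast
  linear_combination (Nat.card φ.ker : ℤ) * h1

end Pool.Agent.Lib.P0c8ca5.Fg
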