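import Mathlib
import Pool.Agent.Lib.P0c8ca5F.Ws
import Pool.Agent.Lib.P0c8ca5F.StE
import Pool.Agent.Lib.P0c8ca5R.Base0

/-!
# Fong's second reduction for the weight equality
-/

namespace Pool.Agent.Lib.P0c8ca5.Fg

open MonoidAlgebra Ps Bq

variable {p : ℕ} {k : Type*} [Field k] {A A' B : Type*} [Group A] [Group A'] [Group B]
  {φ : A →* B} {e : MonoidAlgebra k A} {φ' : A' →* B} {υ : A' → MonoidAlgebra k A}

/-- `τ` is a nonempty chain of nontrivial p-subgroups -/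
structure PCh (p : ℕ) (τ : Finset (Subgroup B)) : Prop where
  ne : τ.Nonempty
  chain : IsChain (· ≤ ·) (τ : Set (Subgroup B))
  pgrp : ∀ T ∈ τ, IsPGroup p T ∧ T ≠ ⊥

theorem card_comap (hφ : Function.Surjective φ) (M : Subgroup B) [Finite A] :
    Nat.card ↥(M.comap φ) = Nat.card φ.ker * Nat.card M := by
  have h1 := Subgroup.card_mul_index (φ.ker.subgroupOf (M.comap φ))
  have h2 : Nat.card ↥(φ.ker.subgroupOf (M.comap φ)) = Nat.card φ.ker :=
    Nat.card_congr (Subgroup.subgroupOfEquivOfLe (Subgroup.ker_le_comap φ M)).toEquiv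
  have h3 : (φ.ker.subgroupOf (M.comap φ)).index = Nat.card M := by
    let g : ↥(M.comap φ) →* B := φ.comp (M.comap φ).subtype
    have h4 : g.ker = φ.ker.subgroupOf (M.comap φ) := by
      ext x
      rw [Subgroup.mem_subgroupOf, MonoidHom.mem_ker, MonoidHom.mem_ker]
      rfl
    have h5 : g.range = M := by
      ext y
      constructor
      · rintro ⟨x, rfl⟩
        exact x.2
      · intro hy
        obtain ⟨x, rfl⟩ := hφ y
        exact ⟨⟨x, hy⟩, rfl⟩
    rw [← h4, Subgroup.index_ker, h5]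
  rw [← h1, h2, h3]

theorem wN_zero [Fact p.Prime] [CharP k p] [Fintype A] {b : MonoidAlgebra k A}
    (hb : IsBlock ⊤ b) {P : Subgroup A} (hP : IsPGroup p P) (hne : P ≠ ⊥) (hbr : HasBr P b) :
    wN p ⊤ ⊥ b = 0 :=
  (Rk.card_w_bot hb).2 (fun hdz => hne (hdz.dz P le_top hP hbr))

/-- **Fong's second reduction**: the weight equality for `(A', b')` and for the pairs over the chains of
nontrivial p-subgroups of `B` implies the weight equality for `(A, b)`. -/
theorem Star.weq_of [Fact p.Prime] [CharP k p] [IsAlgClosed k] [Fintype A] [Fintype A']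
    (h : Star p φ e φ' υ) {b' : MonoidAlgebra k A'} (hb' : InvBy ⊤ b') (hbb' : b' * b' = b')
    (heb' : es φ' e υ * b' = b')
    (h1 : ∀ τ : Finset (Subgroup B), PCh p τ →
      Cy.WEq p ((stab ⊤ τ).comap φ) (cutC φ (τ.sup id) (ex υ b')))
    (h2 : ∀ τ : Finset (Subgroup B), PCh p τ →
      Cy.WEq p ((stab ⊤ τ).comap φ') (cutC φ' (τ.sup id) b'))
    (h3 : Cy.WEq p ⊤ b') (h4 : wN p ⊤ ⊥ (ex υ b') = 0) (h5 : wN p ⊤ ⊥ b' = 0) :
    Cy.WEq p ⊤ (ex υ b') := by
  classical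
  have hfin : Finite B := Finite.of_surjective φ h.cov.surj
  have : Fintype (Subgroup B) := Fintype.ofFinite _
  set b := ex υ b' with hbdef
  have hcov' := h.cov'
  have htop : ∀ {a : MonoidAlgebra k A'}, InvBy ⊤ a →
      a ∈ fixAlg k ((⊤ : Subgroup B).comap φ') ((⊤ : Subgroup B).comap φ') := by
    intro a ha
    rw [Subgroup.comap_top]
    exact mem_fixAlg.2 ⟨fun _ _ => Subgroup.mem_top _, ha⟩
  obtain ⟨hbfix, heb⟩ := h.ex_fix heb' (htop hb')
  rw [Subgroup.comap_top] at hbfix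
  have hb : InvBy ⊤ b := (mem_fixAlg.1 hbfix).2
  let D : Finset (Subgroup B) := Finset.univ.filter (fun T => IsPGroup p T ∧ T ≠ ⊥)
  have hD : ∀ T, T ∈ D ↔ IsPGroup p T ∧ T ≠ ⊥ := by
    intro T
    rw [Finset.mem_filter]
    exact ⟨fun h => h.2, fun h => ⟨Finset.mem_univ _, h⟩⟩
  have hA := h.cov.ws_chain hb heb D hD
  have hA' := hcov'.ws_chain hb' heb' D hD
  rw [h4, Nat.cast_zero, mul_zero, zero_add] at hA
  rw [h5, Nat.cast_zero, mul_zero, zero_add] at hA'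
  have hτ : ∀ τ ∈ (Ch D).filter (fun τ => τ.Nonempty),
      Nat.card φ'.ker * Fr.Ws p ((stab ⊤ τ).comap φ) (cutC φ (τ.sup id) b)
        = Nat.card φ.ker * Fr.Ws p ((stab ⊤ τ).comap φ') (cutC φ' (τ.sup id) b') := by
    intro τ hτ
    obtain ⟨h6, h7⟩ := Finset.mem_filter.1 hτ
    obtain ⟨h8, h9⟩ := ch_mem.1 h6
    have hp : PCh p τ := ⟨h7, h9, fun T hT => (hD T).1 (h8 hT)⟩
    have hW := h1 τ hp
    have hW' := h2 τ hp
    have hU : IsPGroup p ↥(τ.sup id) := (hp.pgrp _ (sup_mem_chain h7 h9)).1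
    have hc1 : es φ' e υ * cutC φ' (τ.sup id) b' = cutC φ' (τ.sup id) b' :=
      hcov'.mul_cutC heb' _
    have hc2 : cutC φ' (τ.sup id) b' * cutC φ' (τ.sup id) b' = cutC φ' (τ.sup id) b' :=
      hcov'.cutC_idem hb' hbb' heb' hU
    have hc3 : cutC φ' (τ.sup id) b'
        ∈ fixAlg k ((stab ⊤ τ).comap φ') ((stab ⊤ τ).comap φ') := by
      refine mem_fixAlg.2 ⟨cutC_suppIn (cent_le_stab τ) b', ?_⟩
      exact cutC_invBy (fun y hy => stab_le_norm_sup h9 hy) (hb'.mono le_top)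
    have hirr := h.card_irX (M := stab ⊤ τ) hc1 hc3 hc2
    have hex : ex υ (cutC φ' (τ.sup id) b') = cutC φ (τ.sup id) b :=
      h.ex_cut (Subgroup.centralizer ((τ.sup id : Subgroup B) : Set B) : Set B) b'
    rw [hex] at hirr
    change Nat.card ↥((stab ⊤ τ).comap φ) * _ = _ at hW
    change Nat.card ↥((stab ⊤ τ).comap φ') * _ = _ at hW'
    rw [← hW, ← hW', hirr, card_comap h.cov.surj, card_comap h.surj]
    ring
  have hsum : (Nat.card φ'.ker : ℤ) * (Fr.Ws p ⊤ b : ℤ)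
      = (Nat.card φ.ker : ℤ) * (Fr.Ws p ⊤ b' : ℤ) := by
    rw [hA, hA', Finset.mul_sum, Finset.mul_sum]
    refine Finset.sum_congr rfl fun τ hτ' => ?_
    have h6 := hτ τ hτ'
    have h7 : (Nat.card φ'.ker : ℤ)
        * (Fr.Ws p ((stab ⊤ τ).comap φ) (cutC φ (τ.sup id) b) : ℤ)
        = (Nat.card φ.ker : ℤ)
          * (Fr.Ws p ((stab ⊤ τ).comap φ') (cutC φ' (τ.sup id) b') : ℤ) := by
      exact_mod_cast h6
    linear_combination (-1) ^ (τ.card + 1) * h7
  have hsum' : Nat.card φ'.ker * Fr.Ws p ⊤ b = Nat.card φ.ker * Fr.Ws p ⊤ b' := by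
    exact_mod_cast hsum
  have hirr0 := h.card_irX (M := ⊤) heb' (htop hb') hbb'
  rw [Subgroup.comap_top, Subgroup.comap_top] at hirr0
  have hcA := card_comap (φ := φ) h.cov.surj ⊤
  have hcA' := card_comap (φ := φ') h.surj ⊤
  rw [Subgroup.comap_top] at hcA hcA'
  change Nat.card ↥(⊤ : Subgroup A) * Nat.card (IrX ⊤ b) = Fr.Ws p ⊤ b
  have h6 : Nat.card ↥(⊤ : Subgroup A') * Nat.card (IrX ⊤ b') = Fr.Ws p ⊤ b' := h3
  have hpos : 0 < Nat.card φ'.ker := Nat.card_pos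
  apply Nat.eq_of_mul_eq_mul_left hpos
  rw [hsum', ← h6, ← hirr0, hcA, hcA']
  ring

end Pool.Agent.Lib.P0c8ca5.Fg
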