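import Mathlib
import Pool.Agent.Lib.P0c8ca5F.ExA

/-!
# Module ExB: existence of the central extension

PROOF.  `n, u` from `Cov.exists_norm` (ExA), `N = φ.ker`.  `u b` is in the line of every `x` over `b`; `e * u b = u b = u b * e` (`Ln_mul_e`).  `u 1` is in
the line of `1`, which is spanned by `e` (`e_mem_Ln`, `ln_line`): `u 1 = c • e`, `c ≠ 0`, `c ^ 2 = β * c` for `β` from `u 1 * u 1 = β • u 1`, so
`c ^ n = 1`.  `u b * u b⁻¹ = β • u 1 = β * c • e` with `(β c) ^ n = 1`, the same for `u b⁻¹ * u b` (the scalars agree: `u b` has a unique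
inverse in `e kA e`).
For a unit `t` of `kA` and `b : B` let `P (b, t)` say `∃ ζ, ζ ^ n = 1 ∧ (t : kA) = ζ • u b + (1 - e)`.  As `u b * (1 - e) = 0 = (1 - e) * u b` and
`(1 - e) ^ 2 = 1 - e`: `(ζ • u b + (1 - e)) * (η • u c + (1 - e)) = (ζ * η * β) • u (b * c) + (1 - e)`.  So `{(b, t) | P (b, t)}` is a subgroup `U` of
`B × (MonoidAlgebra k A)ˣ`: it contains `1` (`ζ = c⁻¹`), is closed under products, and under inverses (the element `η • u b⁻¹ + (1 - e)`
with `η = (ζ * β * c)⁻¹` is the inverse of `t`).  `U` is finite: `(b, t)` is determined by `b` and `ζ`, and `{ζ | ζ ^ n = 1}` is finite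
(`n > 0`; roots of a polynomial: `rootsOfUnity` or `Polynomial.nthRoots`).
`φ' (b, t) = b` (`MonoidHom.fst` restricted), surjective: for `b` the element `u b + (1 - e)` is a unit (its inverse is `η • u b⁻¹ + (1 -
e)`).  `υ (b, t) = t * e = ζ • u b`.
* `mem`: `u b` is in the line of `x` for `φ x = b`.
* `mul`: `t * t' * e = t * (e * t' * e) = (t * e) * (t' * e)`, as `t' * e = ζ' • u b' = e * (ζ' • u b')`.
* `one`: `1 * e = e`.  `inj`: `b = 1`, `t * e = e`: `t = t * e + t * (1 - e) = e + (1 - e) = 1` (`t * (1 - e) = 1 - e`).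
* `ker`: suppose `p` divides the order of the kernel; then (Cauchy) there is `(1, t)` of order `p` in it, `t = ζ' • e + (1 - e)` (`u 1 = c • e`),
  `t ^ p = ζ' ^ p • e + (1 - e) = 1`, so `ζ' ^ p = 1`, `(ζ' - 1) ^ p = 0` (characteristic `p`), `ζ' = 1`, `t = 1`, a contradiction.
Universe: `U` is finite, so small (`Countable.toSmall`/`small_of_...`), and `A' = Shrink.{u} U` is a group isomorphic to `U`
(`Shrink.mulEquiv`); transport `φ'` and `υ` (compose with the isomorphism).
-/

namespace Pool.Agent.Lib.P0c8ca5.Fg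

open MonoidAlgebra Ps Bq

universe u v w

namespace ExBAux

theorem no_p_of {p : ℕ} [Fact p.Prime] {G : Type*} [Group G] [Finite G]
    (h : ∀ g : G, g ^ p = 1 → g = 1) : ¬ p ∣ Nat.card G := by
  intro hd
  obtain ⟨g, hg⟩ := exists_prime_orderOf_dvd_card' p hd
  have h1 : g ^ p = 1 := by rw [← hg]; exact pow_orderOf_eq_one g
  have h2 := h g h1
  rw [h2, orderOf_one] at hg
  exact (Fact.out : p.Prime).one_lt.ne hg

theorem eu_sub {k : Type*} [Field k] {A : Type*} [Group A] {e x : MonoidAlgebra k A}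
    (h : x * e = x) : x * (1 - e) = 0 := by
  rw [mul_sub, mul_one, h, sub_self]

theorem sub_eu {k : Type*} [Field k] {A : Type*} [Group A] {e x : MonoidAlgebra k A}
    (h : e * x = x) : (1 - e) * x = 0 := by
  rw [sub_mul, one_mul, h, sub_self]

theorem mul_form {k : Type*} [Field k] {A : Type*} [Group A] {e x y : MonoidAlgebra k A}
    (hee : e * e = e) (hx : x * e = x) (hy : e * y = y) (a b : k) :
    (a • x + (1 - e)) * (b • y + (1 - e)) = (a * b) • (x * y) + (1 - e) := by
  have h1 : (1 - e) * (1 - e) = 1 - e := by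
    rw [mul_sub, mul_one, sub_mul, one_mul, hee, sub_self, sub_zero]
  rw [add_mul, mul_add, mul_add, smul_mul_smul_comm, smul_mul_assoc, eu_sub hx, smul_zero,
    add_zero, mul_smul_comm, sub_eu hy, smul_zero, zero_add, h1]

end ExBAux

open ExBAux

theorem exists_star {p : ℕ} [Fact p.Prime] {k : Type v} [Field k] [IsAlgClosed k] [CharP k p]
    {A : Type u} [Group A] [Finite A] {B : Type w} [Group B] {φ : A →* B}
    {e : MonoidAlgebra k A} (h : Cov p φ e) :
    ∃ (A' : Type u) (_ : Group A') (_ : Finite A') (φ' : A' →* B)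
      (υ : A' → MonoidAlgebra k A), Star p φ e φ' υ := by
  classical
  haveI : Fintype A := Fintype.ofFinite A
  haveI : Finite B := Finite.of_surjective φ h.surj
  obtain ⟨n, u, hn, hmem, hne, hcoc⟩ := h.exists_norm
  have hT := h.tri
  have hee : e * e = e := hT.blk.idem
  have heu : ∀ b, e * u b = u b := by
    intro b
    obtain ⟨x, rfl⟩ := h.surj b
    exact (mem_Ln.1 (hmem x)).2.2
  have hue : ∀ b, u b * e = u b := by
    intro b
    obtain ⟨x, rfl⟩ := h.surj b
    exact Ln_mul_e hT (Subgroup.mem_top x) (hmem x)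
  have he0 : e ≠ 0 := by
    intro h0
    apply hne 1
    rw [← heu 1, h0, zero_mul]
  obtain ⟨c, hc⟩ : ∃ c : k, u 1 = c • e := by
    have h1 := hmem 1
    rw [map_one] at h1
    exact ln_line hT (Subgroup.mem_top 1) (e_mem_Ln hT) he0 h1
  have hc0 : c ≠ 0 := by
    intro h0
    apply hne 1
    rw [hc, h0, zero_smul]
  have hcn : c ^ n = 1 := by
    obtain ⟨β, hβ, h1⟩ := hcoc 1 1
    rw [mul_one, hc, smul_mul_smul_comm, hee, smul_smul] at h1
    have h2 : c * c = β * c := by
      by_contra hcon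
      have h3 : (c * c - β * c) • e = 0 := by rw [sub_smul, h1, sub_self]
      rcases smul_eq_zero.1 h3 with h4 | h4
      · exact hcon (sub_eq_zero.1 h4)
      · exact he0 h4
    rw [mul_right_cancel₀ hc0 h2]
    exact hβ
  have hinv : ∀ b, ∃ γ : k, γ ^ n = 1 ∧ γ ≠ 0 ∧ u b * u b⁻¹ = γ • e := by
    intro b
    obtain ⟨β, hβ, h1⟩ := hcoc b b⁻¹
    rw [mul_inv_cancel, hc, smul_smul] at h1
    have hb : β ≠ 0 := by
      intro h0
      rw [h0, zero_pow hn.ne'] at hβ
      exact zero_ne_one hβ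
    exact ⟨β * c, by rw [mul_pow, hβ, hcn, one_mul], mul_ne_zero hb hc0, h1⟩
  let P : B → MonoidAlgebra k A → Prop := fun b t => ∃ ζ : k, ζ ^ n = 1 ∧ t = ζ • u b + (1 - e)
  have hPmul : ∀ {b d : B} {t s : MonoidAlgebra k A}, P b t → P d s → P (b * d) (t * s) := by
    rintro b d t s ⟨ζ, h1, rfl⟩ ⟨η, h2, rfl⟩
    obtain ⟨β, hβ, h3⟩ := hcoc b d
    refine ⟨ζ * η * β, by rw [mul_pow, mul_pow, h1, h2, hβ, one_mul, one_mul], ?_⟩
    rw [mul_form hee (hue b) (heu d), h3, smul_smul]
  have hPone : P 1 1 := by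
    refine ⟨c⁻¹, by rw [inv_pow, hcn, inv_one], ?_⟩
    rw [hc, smul_smul, inv_mul_cancel₀ hc0, one_smul, add_sub_cancel]
  have hPinv : ∀ {b : B} {t : (MonoidAlgebra k A)ˣ}, P b (t : MonoidAlgebra k A) →
      P b⁻¹ ((t⁻¹ : (MonoidAlgebra k A)ˣ) : MonoidAlgebra k A) := by
    rintro b t ⟨ζ, h1, h2⟩
    obtain ⟨γ, hγ, hγ0, h3⟩ := hinv b
    have hζ0 : ζ ≠ 0 := by
      intro h0
      rw [h0, zero_pow hn.ne'] at h1
      exact zero_ne_one h1
    refine ⟨(ζ * γ)⁻¹, by rw [inv_pow, mul_pow, h1, hγ, one_mul, inv_one], ?_⟩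
    apply Units.inv_eq_of_mul_eq_one_right
    rw [h2, mul_form hee (hue b) (heu b⁻¹), h3, smul_smul]
    have h4 : ζ * (ζ * γ)⁻¹ * γ = 1 := by field_simp
    rw [h4, one_smul, add_sub_cancel]
  let U : Subgroup (B × (MonoidAlgebra k A)ˣ) :=
    { carrier := {w | P w.1 (w.2 : MonoidAlgebra k A)}
      mul_mem' := by
        intro a b ha hb
        have := hPmul ha hb
        exact this
      one_mem' := hPone
      inv_mem' := by
        intro a ha
        exact hPinv ha }
  have hU : ∀ w : U, P w.1.1 (w.1.2 : MonoidAlgebra k A) := fun w => w.2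
  haveI hfin : Finite U := by
    haveI : Finite {ζ : k // ζ ^ n = 1} := by
      have : Set.Finite {ζ : k | ζ ^ n = 1} := by
        refine Set.Finite.subset (Multiset.toFinset (Polynomial.nthRoots n (1 : k))).finite_toSet ?_
        intro ζ hζ
        rw [Finset.mem_coe, Multiset.mem_toFinset, Polynomial.mem_nthRoots hn]
        exact hζ
      exact this.to_subtype
    let f : U → B × {ζ : k // ζ ^ n = 1} := fun w =>
      (w.1.1, ⟨(hU w).choose, (hU w).choose_spec.1⟩)
    refine Finite.of_injective f ?_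
    intro w w' hw
    have h1 : w.1.1 = w'.1.1 := congrArg (fun z : B × {ζ : k // ζ ^ n = 1} => z.1) hw
    have h2 : (hU w).choose = (hU w').choose :=
      congrArg (fun z : B × {ζ : k // ζ ^ n = 1} => (z.2 : k)) hw
    have h3 : (w.1.2 : MonoidAlgebra k A) = w'.1.2 := by
      rw [(hU w).choose_spec.2, (hU w').choose_spec.2, h2, h1]
    exact Subtype.ext (Prod.ext h1 (Units.ext h3))
  let i : Shrink.{u} U ≃* U := Shrink.mulEquiv
  haveI : Finite (Shrink.{u} U) := Finite.of_equiv U i.toEquiv.symm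
  let φ0 : U →* B := (MonoidHom.fst B (MonoidAlgebra k A)ˣ).comp U.subtype
  let φ' : Shrink.{u} U →* B := φ0.comp i.toMonoidHom
  have hφ' : ∀ w, φ' w = (i w).1.1 := fun w => rfl
  -- the value of a unit
  have hval : ∀ w : U, ∃ ζ : k, ζ ^ n = 1 ∧ (w.1.2 : MonoidAlgebra k A) = ζ • u w.1.1 + (1 - e) :=
    fun w => hU w
  have hte : ∀ (w : U) (ζ : k), (w.1.2 : MonoidAlgebra k A) = ζ • u w.1.1 + (1 - e) →
      (w.1.2 : MonoidAlgebra k A) * e = ζ • u w.1.1 := by
    intro w ζ hw
    rw [hw, add_mul, smul_mul_assoc, hue, sub_mul, one_mul, hee, sub_self, add_zero]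
  refine ⟨Shrink.{u} U, inferInstance, inferInstance, φ',
    fun w => ((i w).1.2 : MonoidAlgebra k A) * e, ?_⟩
  refine ⟨h, ?_, ?_, ?_, ?_, ?_, ?_⟩
  · -- surjective
    intro b
    obtain ⟨x, rfl⟩ := h.surj b
    obtain ⟨v, hv, h1, h2⟩ := ln_inv hT (Subgroup.mem_top x) (hmem x) (hne (φ x))
    have hev : e * v = v := (mem_Ln.1 hv).2.2
    have hve : v * e = v := Ln_mul_e hT (Subgroup.mem_top _) hv
    have e1 : (u (φ x) + (1 - e)) * (v + (1 - e)) = 1 := by
      have := mul_form hee (hue (φ x)) hev (1 : k) 1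
      rw [one_smul, one_smul, mul_one, one_smul, h1, add_sub_cancel] at this
      exact this
    have e2 : (v + (1 - e)) * (u (φ x) + (1 - e)) = 1 := by
      have := mul_form hee hve (heu (φ x)) (1 : k) 1
      rw [one_smul, one_smul, mul_one, one_smul, h2, add_sub_cancel] at this
      exact this
    let t : (MonoidAlgebra k A)ˣ := ⟨u (φ x) + (1 - e), v + (1 - e), e1, e2⟩
    have ht : P (φ x) (t : MonoidAlgebra k A) := ⟨1, one_pow n, by rw [one_smul]⟩
    let w : U := ⟨(φ x, t), ht⟩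
    refine ⟨i.symm w, ?_⟩
    rw [hφ', MulEquiv.apply_symm_apply]
  · -- the kernel
    apply no_p_of
    rintro ⟨w, hw⟩ hp
    have hw1 : (i w).1.1 = 1 := hw
    have hp1 : w ^ p = 1 := congrArg Subtype.val hp
    obtain ⟨ζ, h1, h2⟩ := hval (i w)
    rw [hw1, hc, smul_smul] at h2
    have h3 : (i w) ^ p = 1 := by rw [← map_pow, hp1, map_one]
    have h4 : ((i w).1.2 : MonoidAlgebra k A) ^ p = 1 := by
      have := congrArg (fun z : U => ((z.1.2 : (MonoidAlgebra k A)ˣ) : MonoidAlgebra k A)) h3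
      simpa using this
    have h5 : ∀ j : ℕ, ((ζ * c) • e + (1 - e)) ^ (j + 1) = ((ζ * c) ^ (j + 1)) • e + (1 - e) := by
      intro j
      induction j with
      | zero => rw [zero_add, pow_one, pow_one]
      | succ j ih => rw [pow_succ, ih, mul_form hee hee hee, hee, ← pow_succ]
    have hpp : p = (p - 1) + 1 := by
      have := (Fact.out : p.Prime).one_lt
      omega
    rw [h2, hpp, h5, ← hpp] at h4
    have h6 : ((ζ * c) ^ p) = 1 := by
      have h7 : ((ζ * c) ^ p - 1) • e = 0 := by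
        rw [sub_smul, one_smul]
        have h8 : ((ζ * c) ^ p) • e + (1 - e) = e + (1 - e) := by rw [h4, add_sub_cancel]
        rw [add_right_cancel h8, sub_self]
      rcases smul_eq_zero.1 h7 with h9 | h9
      · exact sub_eq_zero.1 h9
      · exact absurd h9 he0
    have h7 : ζ * c = 1 := by
      have h8 : (ζ * c - 1) ^ p = 0 := by
        rw [sub_pow_char, h6, one_pow, sub_self]
      exact sub_eq_zero.1 (pow_eq_zero_iff (Fact.out : p.Prime).ne_zero |>.1 h8)
    rw [h7, one_smul, add_sub_cancel] at h2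
    have h8 : i w = 1 := by
      refine Subtype.ext (Prod.ext hw1 (Units.ext ?_))
      exact h2
    apply Subtype.ext
    have h9 : i w = i 1 := by rw [h8, map_one]
    exact i.injective h9
  · -- mem
    intro w x hwx
    obtain ⟨ζ, h1, h2⟩ := hval (i w)
    show ((i w).1.2 : MonoidAlgebra k A) * e ∈ _
    rw [hte (i w) ζ h2]
    apply Submodule.smul_mem
    rw [show (i w).1.1 = φ x from hwx]
    exact hmem x
  · -- mul
    intro w w'
    obtain ⟨ζ, h1, h2⟩ := hval (i w')
    have h3 : ((i (w * w')).1.2 : MonoidAlgebra k A) =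
        ((i w).1.2 : MonoidAlgebra k A) * ((i w').1.2 : MonoidAlgebra k A) := by
      rw [map_mul]
      rfl
    show ((i (w * w')).1.2 : MonoidAlgebra k A) * e = ((i w).1.2 : MonoidAlgebra k A) * e *
      (((i w').1.2 : MonoidAlgebra k A) * e)
    rw [h3, mul_assoc, mul_assoc, hte (i w') ζ h2, mul_smul_comm ζ e, heu]
  · -- one
    show ((i 1).1.2 : MonoidAlgebra k A) * e = e
    rw [map_one]
    show (1 : MonoidAlgebra k A) * e = e
    rw [one_mul]
  · -- inj
    intro w hw hwe
    have hw1 : (i w).1.1 = 1 := hw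
    obtain ⟨ζ, h1, h2⟩ := hval (i w)
    have h3 : ζ • u (i w).1.1 = e := by
      rw [← hte (i w) ζ h2]
      exact hwe
    rw [h3, add_sub_cancel] at h2
    have h8 : i w = 1 := by
      refine Subtype.ext (Prod.ext hw1 (Units.ext ?_))
      exact h2
    have h9 : i w = i 1 := by rw [h8, map_one]
    exact i.injective h9

end Pool.Agent.Lib.P0c8ca5.Fg
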