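import Mathlib
import Pool.Agent.Lib.P0c8ca5F.Defs

/-!
# Module Cs: central extensions of sections

PROOFS.
* `of_section`: let `K ≤ H`, `f : K → H'` surjective, `π : H → L` surjective with central kernel `Z` of order prime to `p`.  `Z' = f (Z ⊓ K)`
  is a subgroup of the centre of `H'` (`f` is surjective), so normal, of order dividing `|Z|`.  Let `L' = H' ⧸ Z'` and `π' = mk'`.  `L'` is a
  section of `L`: the subgroup `π(K)` of `L` maps onto `L'` by `π x ↦ f x Z'` (well defined: if `π x = π y`, `x, y ∈ K`, then `x⁻¹ y ∈ Z ⊓ K`);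
  e.g. `QuotientGroup.lift` or: `π'.comp f : K → L'` factors through the surjection `K → π(K)` because it kills its kernel
  (`MonoidHom.liftOfSurjective`, `MonoidHom.liftOfRightInverse`).  Then `IsSection.trans`.
* `of_isSection`: `L = H`, `π = id`.
* `of_quot`: `ψ : H' → H ⧸ N` is surjective with central kernel of order prime to `p`; `H ⧸ N` is a section of `G`: with `π : H → L`
  from `CSec p H G`, `π.ker ≤ N` by `hmax` (it is normal of order prime to `p`), so `mk' N` factors through `π`: `H ⧸ N` is an image of `L`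
  (`IsSection.of_surjective`, `IsSection.trans`).
* `index_center_le`: for `K ≤ H`: `Z(H) ⊓ K ≤ Z(K)`, so `|K : Z(K)| ≤ |K : K ⊓ Z(H)| ≤ |H : Z(H)|`; for `f : K → H'` surjective `f (Z(K)) ≤ Z(H')`, so
  `|H' : Z(H')| ≤ |H' : f (Z(K))| ≤ |K : Z(K)|` (`Subgroup.index_map`-lemmas; all groups are finite).
* `index_center_le_of`: `ψ : H' → B` with central kernel: `(center H').index ≤ ψ.ker.index = |B|`.
-/

namespace Pool.Agent.Lib.P0c8ca5.Fg

universe u

namespace CsAux

/-- factorization through a surjective homomorphism -/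
theorem exists_lift {A B C : Type*} [Group A] [Group B] [Group C] (f : A →* B)
    (hf : Function.Surjective f) (g : A →* C) (hg : f.ker ≤ g.ker) :
    ∃ h : B →* C, ∀ x, h (f x) = g x := by
  refine ⟨f.liftOfRightInverse (Function.surjInv hf) (Function.rightInverse_surjInv hf) ⟨g, hg⟩, ?_⟩
  intro x
  exact f.liftOfRightInverseAux_comp_apply _ (Function.rightInverse_surjInv hf) g hg x

theorem map_center_le {K H' : Type*} [Group K] [Group H'] {f : K →* H'}
    (hf : Function.Surjective f) : (Subgroup.center K).map f ≤ Subgroup.center H' := by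
  rintro _ ⟨x, hx, rfl⟩
  rw [Subgroup.mem_center_iff]
  intro y
  obtain ⟨z, rfl⟩ := hf y
  rw [← map_mul, ← map_mul, Subgroup.mem_center_iff.1 hx z]

theorem subgroupOf_center_le {H : Type*} [Group H] (K : Subgroup H) :
    (Subgroup.center H).subgroupOf K ≤ Subgroup.center K := by
  intro x hx
  rw [Subgroup.mem_subgroupOf] at hx
  rw [Subgroup.mem_center_iff]
  intro y
  exact Subtype.ext (Subgroup.mem_center_iff.1 hx y)

end CsAux

theorem CSec.of_section {p : ℕ} {H H' : Type u} [Group H] [Group H'] [Finite H]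
    {G : Type*} [Group G] (hs : IsSection H' H) (h : CSec p H G) : CSec p H' G := by
  obtain ⟨L, instL, π, hπ, hπZ, hπp, hLG⟩ := h
  obtain ⟨K, f, hf⟩ := hs
  have hZc : (π.ker.subgroupOf K).map f ≤ Subgroup.center H' := by
    refine le_trans (Subgroup.map_mono ?_) (CsAux.map_center_le hf)
    refine le_trans ?_ (CsAux.subgroupOf_center_le K)
    intro x hx
    rw [Subgroup.mem_subgroupOf] at hx ⊢
    exact hπZ hx
  have hZn : ((π.ker.subgroupOf K).map f).Normal := by
    refine ⟨fun n hn g => ?_⟩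
    have h1 := Subgroup.mem_center_iff.1 (hZc hn) g
    rw [h1, mul_inv_cancel_right]
    exact hn
  have hker : (QuotientGroup.mk' ((π.ker.subgroupOf K).map f)).ker = (π.ker.subgroupOf K).map f :=
    QuotientGroup.ker_mk' _
  refine ⟨H' ⧸ (π.ker.subgroupOf K).map f, inferInstance,
    QuotientGroup.mk' ((π.ker.subgroupOf K).map f), QuotientGroup.mk'_surjective _, ?_, ?_, ?_⟩
  · rw [hker]
    exact hZc
  · rw [hker]
    intro hd
    apply hπp
    refine hd.trans ((Subgroup.card_map_dvd _ f).trans ?_)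
    have h1 : Nat.card (π.ker.subgroupOf K) = Nat.card (π.ker ⊓ K : Subgroup H) := by
      have h2 : (π.ker.subgroupOf K).map K.subtype = π.ker ⊓ K :=
        Subgroup.subgroupOf_map_subtype _ _
      rw [← h2]
      exact Nat.card_congr ((π.ker.subgroupOf K).equivMapOfInjective _
        K.subtype_injective).toEquiv
    rw [h1]
    exact Subgroup.card_dvd_of_le inf_le_left
  · refine IsSection.trans ?_ hLG
    obtain ⟨φ, hφ⟩ := CsAux.exists_lift (π.subgroupMap K) (π.subgroupMap_surjective K)
      ((QuotientGroup.mk' ((π.ker.subgroupOf K).map f)).comp f) (by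
        intro x hx
        rw [MonoidHom.mem_ker] at hx ⊢
        have h1 : π (x : H) = 1 := congrArg Subtype.val hx
        change QuotientGroup.mk' _ (f x) = 1
        rw [← MonoidHom.mem_ker, hker]
        exact ⟨x, Subgroup.mem_subgroupOf.2 ((MonoidHom.mem_ker).2 h1), rfl⟩)
    refine ⟨K.map π, φ, ?_⟩
    intro y
    obtain ⟨z, rfl⟩ := QuotientGroup.mk'_surjective _ y
    obtain ⟨x, rfl⟩ := hf z
    exact ⟨π.subgroupMap K x, hφ x⟩

theorem CSec.of_isSection {p : ℕ} [Fact p.Prime] {H : Type u} [Group H] {G : Type*} [Group G]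
    (h : IsSection H G) : CSec p H G := by
  have hp : p.Prime := Fact.out
  refine ⟨H, inferInstance, MonoidHom.id H, Function.surjective_id, ?_, ?_, h⟩
  · rw [MonoidHom.ker_id]
    exact bot_le
  · rw [MonoidHom.ker_id, Subgroup.card_bot]
    exact hp.not_dvd_one

theorem CSec.of_quot {p : ℕ} {H H' : Type u} [Group H] [Group H'] [Finite H] {G : Type*}
    [Group G] (h : CSec p H G) {N : Subgroup H} [N.Normal]
    (hmax : ∀ N' : Subgroup H, N'.Normal → ¬ p ∣ Nat.card N' → N' ≤ N)
    (ψ : H' →* H ⧸ N) (hψ : Function.Surjective ψ) (hψZ : ψ.ker ≤ Subgroup.center H')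
    (hψp : ¬ p ∣ Nat.card ψ.ker) : CSec p H' G := by
  obtain ⟨L, instL, π, hπ, hπZ, hπp, hLG⟩ := h
  refine ⟨H ⧸ N, inferInstance, ψ, hψ, hψZ, hψp, IsSection.trans ?_ hLG⟩
  have h1 : π.ker ≤ N := hmax _ inferInstance hπp
  obtain ⟨φ, hφ⟩ := CsAux.exists_lift π hπ (QuotientGroup.mk' N) (by
    rw [QuotientGroup.ker_mk']
    exact h1)
  refine IsSection.of_surjective φ ?_
  intro y
  obtain ⟨z, rfl⟩ := QuotientGroup.mk'_surjective _ y
  exact ⟨π z, hφ z⟩

theorem index_center_le {H H' : Type*} [Group H] [Group H'] [Finite H]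
    (hs : IsSection H' H) : (Subgroup.center H').index ≤ (Subgroup.center H).index := by
  obtain ⟨K, f, hf⟩ := hs
  apply Nat.le_of_dvd (Nat.pos_of_ne_zero Subgroup.index_ne_zero_of_finite)
  refine (Subgroup.index_dvd_of_le (CsAux.map_center_le hf)).trans ?_
  refine (Subgroup.index_map_dvd _ hf).trans ?_
  refine (Subgroup.index_dvd_of_le (CsAux.subgroupOf_center_le K)).trans ?_
  exact Subgroup.relIndex_dvd_index_of_normal (Subgroup.center H) K

theorem index_center_le_of {H' B : Type*} [Group H'] [Group B] [Finite H'] {ψ : H' →* B}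
    (hψ : Function.Surjective ψ) (hψZ : ψ.ker ≤ Subgroup.center H') :
    (Subgroup.center H').index ≤ Nat.card B := by
  have h1 : ψ.ker.index = Nat.card B := by
    rw [Subgroup.index_ker, MonoidHom.range_eq_top.2 hψ]
    exact Nat.card_congr Subgroup.topEquiv.toEquiv
  rw [← h1]
  exact Nat.le_of_dvd (Nat.pos_of_ne_zero Subgroup.index_ne_zero_of_finite)
    (Subgroup.index_dvd_of_le hψZ)

end Pool.Agent.Lib.P0c8ca5.Fg
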