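import Mathlib
import Pool.Agent.Lib.P0c8ca5F.Defs
import Pool.Agent.Lib.P0c8ca5S.HH

/-!
# Module CycA: p-solvable normal subgroups are central

PROOFS.
* `PSolv.of_ker`: `f : G → L` with kernel a p'-group.  Let `s` be a chain for `L`; take the chain `⊥, (s 0).comap f = f.ker, (s 1).comap f, ...,
  (s n).comap f = ⊤` of length `n + 1`; the first step is a p'-step: `x ∈ f.ker` has `x ^ m = 1` with `m = Nat.card f.ker`, `p ∤ m`.
* `core_central`: let `Z = Z(H)`.  `Z` has order prime to `p`: a Sylow p-subgroup `P` of the abelian group `Z` is normal in `H`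
  (its elements are central), so trivial by `hcore`.
* `radical_central`.  Let `M₀ = N ⊔ Z`, suppose `N` is not contained in `Z`; `S = M₀ / Z` (the image of `N` in `H ⧸ Z`) is a nontrivial normal
  subgroup of `H ⧸ Z`, p-solvable (an image of `N`, `PSolv.of_section`).  A nontrivial finite p-solvable group `S` has a nontrivial
  normal subgroup that is a p-group or a p'-group (the first nontrivial term of the chain), so the largest normal p-subgroup
  `P` of `S` (`exists_pcore`) or the largest normal p'-subgroup `Q` of `S` (`exists_core`) is not trivial; both are unique largest, so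
  they are stable under conjugation by `H ⧸ Z`.  Let `M` be the preimage in `H` of this subgroup: `M` is a normal subgroup of `H`,
  `Z < M`, and `M / Z` is a p-group or a p'-group.
 - p'-group: `|M|` is prime to `p`, so `M ≤ Z` by `hcen`, a contradiction.
 - p-group: let `P` be a Sylow p-subgroup of `M`; `M = Z ⊔ P` (`|Z|` is prime to `p`, `|M : Z|` is a power of `p`), `Z` central, so `P` is the set of
   the elements of `M` of p-power order (`(z x) ^ p ^ n = z ^ p ^ n x ^ p ^ n`), so `P` is normal in `H`, `P = ⊥` by `hcore`, `M = Z`, a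
   contradiction.
-/

namespace Pool.Agent.Lib.P0c8ca5.Fg

open Ps

namespace CycAAux

theorem map_normal {H : Type*} [Group H] {N : Subgroup H} (hNn : N.Normal) (R : Subgroup N → Prop)
    (hinv : ∀ (φ : N ≃* N) (Q : Subgroup N), R Q → R (Q.map φ.toMonoidHom)) {Q : Subgroup N}
    (hQ : R Q) (hmax : ∀ Q', R Q' → Q' ≤ Q) : (Q.map N.subtype).Normal := by
  constructor
  rintro _ ⟨x, hx, rfl⟩ g
  have hx' : x ∈ Q := hx
  have h1 := hmax _ (hinv (MulAut.conjNormal g) Q hQ)
  have h2 : (MulAut.conjNormal g : MulAut N) x ∈ Q := h1 ⟨x, hx', rfl⟩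
  refine ⟨(MulAut.conjNormal g : MulAut N) x, h2, ?_⟩
  rw [Subgroup.coe_subtype, MulAut.conjNormal_apply]

theorem normal_map {G : Type*} [Group G] (φ : G ≃* G) {Q : Subgroup G} (hQ : Q.Normal) :
    (Q.map φ.toMonoidHom).Normal := hQ.map _ φ.surjective

theorem card_map {G : Type*} [Group G] (φ : G ≃* G) (Q : Subgroup G) :
    Nat.card (Q.map φ.toMonoidHom) = Nat.card Q :=
  (Nat.card_congr (Q.equivMapOfInjective φ.toMonoidHom φ.injective).toEquiv).symm

theorem card_map_subtype {H : Type*} [Group H] {N : Subgroup H} (Q : Subgroup N) :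
    Nat.card (Q.map N.subtype) = Nat.card Q :=
  (Nat.card_congr (Q.equivMapOfInjective N.subtype N.subtype_injective).toEquiv).symm

end CycAAux

theorem psolv_of_ker {p : ℕ} {G L : Type*} [Group G] [Group L] (f : G →* L)
    (hker : ¬ p ∣ Nat.card f.ker) (hL : PSolv p L) : PSolv p G := by
  obtain ⟨n, s, h0, hn, hN, hst⟩ := hL
  refine ⟨n + 1, fun i => Nat.casesOn i ⊥ fun j => (s j).comap f, rfl, ?_, ?_, ?_⟩
  · change (s n).comap f = ⊤
    rw [hn, Subgroup.comap_top]
  · intro i
    cases i with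
    | zero => exact (inferInstance : (⊥ : Subgroup G).Normal)
    | succ j =>
      have h1 := hN j
      exact h1.comap f
  · intro i hi
    cases i with
    | zero =>
      refine ⟨bot_le, Or.inr ?_⟩
      intro x hx
      have hx' : x ∈ f.ker := by
        have h1 : f x ∈ s 0 := hx
        rw [h0, Subgroup.mem_bot] at h1
        exact h1
      refine ⟨Nat.card f.ker, hker, ?_⟩
      have h2 : (⟨x, hx'⟩ : f.ker) ^ Nat.card f.ker = 1 := pow_card_eq_one'
      have h3 := congrArg Subtype.val h2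
      exact Subgroup.mem_bot.2 h3
    | succ j =>
      obtain ⟨h1, h2⟩ := hst j (by omega)
      refine ⟨Subgroup.comap_mono h1, ?_⟩
      rcases h2 with h2 | h2
      · left
        intro x hx
        obtain ⟨m, hm⟩ := h2 (f x) hx
        refine ⟨m, ?_⟩
        change f (x ^ p ^ m) ∈ s j
        rw [map_pow]
        exact hm
      · right
        intro x hx
        obtain ⟨m, hpm, hm⟩ := h2 (f x) hx
        refine ⟨m, hpm, ?_⟩
        change f (x ^ m) ∈ s j
        rw [map_pow]
        exact hm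

theorem core_central {p : ℕ} [Fact p.Prime] {H : Type*} [Group H] [Finite H]
    (hcore : ∀ P : Subgroup H, P.Normal → IsPGroup p P → P = ⊥) :
    ¬ p ∣ Nat.card (Subgroup.center H) := by
  intro hd
  have hp : p.Prime := Fact.out
  obtain ⟨z, hz⟩ := exists_prime_orderOf_dvd_card' p hd
  have h1 : orderOf (z : H) = p := by
    rw [← hz]
    exact Subgroup.orderOf_coe z
  have h2 : (Subgroup.zpowers (z : H)).Normal := by
    constructor
    intro x hx g
    have h3 : x ∈ Subgroup.center H := by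
      obtain ⟨k, rfl⟩ := Subgroup.mem_zpowers_iff.1 hx
      exact Subgroup.zpow_mem _ z.2 k
    have h4 : g * x * g⁻¹ = x := by
      rw [Subgroup.mem_center_iff.1 h3 g, mul_assoc, mul_inv_cancel, mul_one]
    rw [h4]
    exact hx
  have h3 : IsPGroup p (Subgroup.zpowers (z : H)) :=
    IsPGroup.of_card (n := 1) (by rw [Nat.card_zpowers, h1, pow_one])
  have h4 := hcore _ h2 h3
  rw [Subgroup.zpowers_eq_bot] at h4
  rw [h4, orderOf_one] at h1
  exact hp.one_lt.ne h1

theorem radical_central {p : ℕ} [Fact p.Prime] {H : Type*} [Group H] [Finite H]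
    {N : Subgroup H} (hNn : N.Normal) (hN : PSolv p N)
    (hcore : ∀ P : Subgroup H, P.Normal → IsPGroup p P → P = ⊥)
    (hcen : ∀ N : Subgroup H, N.Normal → ¬ p ∣ Nat.card N → N ≤ Subgroup.center H) :
    N ≤ Subgroup.center H := by
  have hp : p.Prime := Fact.out
  obtain ⟨O, hOn, hOp, hOmax⟩ := exists_core (p := p) N
  obtain ⟨Q, hQn, hQp, hQmax⟩ := HHAux.exists_pcore (p := p) N
  have h1 : (O.map N.subtype).Normal :=
    CycAAux.map_normal hNn (fun Q => Q.Normal ∧ ¬ p ∣ Nat.card Q)
      (fun φ Q hQ => ⟨CycAAux.normal_map φ hQ.1, by rw [CycAAux.card_map]; exact hQ.2⟩)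
      ⟨hOn, hOp⟩ (fun Q' hQ' => hOmax Q' hQ'.1 hQ'.2)
  have h2 : O.map N.subtype ≤ Subgroup.center H :=
    hcen _ h1 (by rw [CycAAux.card_map_subtype]; exact hOp)
  by_cases hO : O = ⊤
  · rw [hO] at h2
    intro x hx
    exact h2 ⟨⟨x, hx⟩, Subgroup.mem_top _, rfl⟩
  exfalso
  have h3 : (Q.map N.subtype).Normal :=
    CycAAux.map_normal hNn (fun Q => Q.Normal ∧ IsPGroup p Q)
      (fun φ Q hQ => ⟨CycAAux.normal_map φ hQ.1, hQ.2.map _⟩)
      ⟨hQn, hQp⟩ (fun Q' hQ' => hQmax Q' hQ'.1 hQ'.2)
  have h4 : Q.map N.subtype = ⊥ := hcore _ h3 (hQp.map _)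
  have h5 : Q = ⊥ := by
    rw [Subgroup.map_eq_bot_iff_of_injective _ N.subtype_injective] at h4
    exact h4
  obtain ⟨P, hPp, hPne, hOP, _⟩ := exists_up hN hOn hOp hOmax hO
  have h6 : P.Normal := by
    constructor
    intro x hx g
    have h7 : g * x * g⁻¹ ∈ O ⊔ P :=
      hOP.conj_mem x ((le_sup_right : P ≤ O ⊔ P) hx) g
    rw [Subgroup.mem_sup_of_normal_left] at h7
    obtain ⟨o, ho, y, hy, hoy⟩ := h7
    have h8 : ∀ w : N, o * w = w * o := by
      intro w
      have h9 : (o : H) ∈ Subgroup.center H := h2 ⟨o, ho, rfl⟩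
      have h10 := Subgroup.mem_center_iff.1 h9 (w : H)
      apply Subtype.ext
      exact h10.symm
    obtain ⟨a, ha⟩ := hPp ⟨x, hx⟩
    obtain ⟨b, hb⟩ := hPp ⟨y, hy⟩
    have ha' : x ^ p ^ a = 1 := congrArg Subtype.val ha
    have hb' : y ^ p ^ b = 1 := congrArg Subtype.val hb
    have hx2 : x ^ p ^ (a + b) = 1 := by
      rw [pow_add, pow_mul, ha', one_pow]
    have hy2 : y ^ p ^ (a + b) = 1 := by
      rw [pow_add, mul_comm, pow_mul, hb', one_pow]
    have h11 : (o * y) ^ p ^ (a + b) = 1 := by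
      rw [hoy, conj_pow, hx2, mul_one, mul_inv_cancel]
    have h12 : o ^ p ^ (a + b) = 1 := by
      have h13 : Commute o y := h8 y
      rw [h13.mul_pow, hy2, mul_one] at h11
      exact h11
    have h14 : orderOf o ∣ p ^ (a + b) := orderOf_dvd_of_pow_eq_one h12
    have h15 : orderOf o ∣ Nat.card O := by
      have h16 : orderOf (⟨o, ho⟩ : O) ∣ Nat.card O := orderOf_dvd_natCard _
      rwa [Subgroup.orderOf_mk] at h16
    have h17 : Nat.Coprime (p ^ (a + b)) (Nat.card O) :=
      Nat.Coprime.pow_left _ ((Nat.Prime.coprime_iff_not_dvd hp).2 hOp)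
    have h18 : orderOf o = 1 := Nat.eq_one_of_dvd_coprimes h17 h14 h15
    have h19 : o = 1 := orderOf_eq_one_iff.1 h18
    rw [← hoy, h19, one_mul]
    exact hy
  apply hPne
  rw [eq_bot_iff, ← h5]
  exact hQmax P h6 hPp

end Pool.Agent.Lib.P0c8ca5.Fg
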