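import Mathlib
import Pool.Agent.Lib.P0c8ca5F.Fong
import Pool.Agent.Lib.P0c8ca5F.ExB
import Pool.Agent.Lib.P0c8ca5F.Cs
import Pool.Agent.Lib.P0c8ca5F.CycA
import Pool.Agent.Lib.P0c8ca5T.Pair2

/-!
# Reduction of the blockwise weight conjecture to reduced blocks with central `O_{p'}`
-/

namespace Pool.Agent.Lib.P0c8ca5

open MonoidAlgebra

universe u v

/-- `b` is the idempotent of a strongly reduced block of `H`: `O^p(H) = H`, `O_p(H) = 1`, every normal
subgroup of order prime to `p` is central, the centre of `H` is cyclic, for every normal subgroup `N`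
of `H` there is only one block `c` of `N` which is covered by the block, and the block is faithful (only
the identity of `H` acts trivially on `kHb`). -/
structure Reduced3 (p : ℕ) {k : Type*} [Field k] {H : Type*} [Group H] (b : MonoidAlgebra k H) :
    Prop where
  block : IsBlock ⊤ b
  residual : ∀ (N : Subgroup H) [N.Normal], IsPGroup p (H ⧸ N) → N = ⊤
  core : ∀ P : Subgroup H, P.Normal → IsPGroup p P → P = ⊥
  central : ∀ N : Subgroup H, N.Normal → ¬ p ∣ Nat.card N → N ≤ Subgroup.center H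
  cyclic : IsCyclic (Subgroup.center H)
  prim : ∀ N : Subgroup H, N.Normal → ∃! c : MonoidAlgebra k H, IsBlock N c ∧ b * c ≠ 0
  faithful : ∀ x : H, single x (1 : k) * b = b → x = 1

namespace Red3Aux

open Fg Ps Bq

section

variable {p : ℕ} {k : Type*} [Field k] {A A' B : Type*} [Group A] [Group A'] [Group B]
  {φ : A →* B} {e : MonoidAlgebra k A} {φ' : A' →* B} {υ : A' → MonoidAlgebra k A}

theorem isSection_of_map [Fact p.Prime] [Finite A'] (hker' : ¬ p ∣ Nat.card φ'.ker)
    {P : Subgroup A} {P' : Subgroup A'} (hP' : IsPGroup p P')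
    (h : P.map φ = P'.map φ') : IsSection P' P := by
  let g : ↥P' →* B := φ'.comp P'.subtype
  have hg : Function.Injective g := by
    rw [injective_iff_map_eq_one]
    intro x hx
    exact Subtype.ext (map_inj hker' hP' x.2 hx)
  have hr : ∀ y, y ∈ g.range ↔ y ∈ P.map φ := by
    intro y
    rw [h]
    constructor
    · rintro ⟨x, rfl⟩
      exact ⟨x, x.2, rfl⟩
    · rintro ⟨x, hx, rfl⟩
      exact ⟨⟨x, hx⟩, rfl⟩
  let f : ↥P →* ↥g.range := (φ.comp P.subtype).codRestrict g.range (fun x =>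
    (hr _).2 ⟨x, x.2, rfl⟩)
  have hf : Function.Surjective f := by
    rintro ⟨y, hy⟩
    obtain ⟨x, hx, rfl⟩ := (hr y).1 hy
    exact ⟨⟨x, hx⟩, rfl⟩
  refine IsSection.of_surjective ((MonoidHom.ofInjective hg).symm.toMonoidHom.comp f) ?_
  exact (MonoidHom.ofInjective hg).symm.surjective.comp hf

theorem hasBr_iff [Fact p.Prime] [CharP k p] [IsAlgClosed k] [Fintype A] [Fintype A']
    (h : Star p φ e φ' υ) {b' : MonoidAlgebra k A'} (hb' : InvBy ⊤ b')
    (heb' : es φ' e υ * b' = b') {P : Subgroup A} (hP : IsPGroup p P) {P' : Subgroup A'}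
    (hP' : IsPGroup p P') (hPP : P.map φ = P'.map φ') :
    HasBr P' b' ↔ HasBr P (ex υ b') := by
  have h1 : b' ∈ Tc φ'.ker ⊤ (es φ' e υ) 1 :=
    ⟨fun _ _ => Subgroup.mem_top _, hb'.mono le_top, heb'⟩
  rw [h.cov'.hasBr_iff hP' h1, h.cov.hasBr_iff hP (h.ex_mem b'), hPP]
  have h2 : ex υ (cutC φ' (P'.map φ') b') = cutC φ (P'.map φ') (ex υ b') :=
    h.ex_cut (Subgroup.centralizer ((P'.map φ' : Subgroup B) : Set B) : Set B) b'
  rw [← h2]
  have h3 := h.cov'.mul_cutC heb' (P'.map φ')
  constructor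
  · intro h4 h5
    exact h4 (h.ex_inj h3 (mul_zero _) (by rw [h5, map_zero]))
  · intro h4 h5
    rw [h5, map_zero] at h4
    exact h4 rfl

theorem hasBr_cut [Finite A] {b : MonoidAlgebra k A} {U : Subgroup B} {P : Subgroup A}
    (h : HasBr P (cutC φ U b)) : HasBr P b := by
  obtain ⟨x, hx, hx0⟩ := h
  refine ⟨x, hx, fun h0 => hx0 ?_⟩
  change (resS _ b).coeff x = 0
  rw [coeff_resS]
  split_ifs
  · exact h0
  · rfl

/-- a block below a central idempotent -/
theorem hasBr_below [Fact p.Prime] [CharP k p] [IsAlgClosed k] [Fintype A] {Y : Subgroup A}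
    {b c : MonoidAlgebra k A} (hb : SuppIn Y b) (hbi : InvBy Y b) (hbb : b * b = b)
    (hc : IsBlock Y c) (hcb : c * b ≠ 0) {P : Subgroup A} (hPY : P ≤ Y) (hP : IsPGroup p P)
    (hbr : HasBr P c) : HasBr P b := by
  have hcomm : b * c = c * b := commute_of hb hc.invBy
  have hcb' : c * b = c := by
    rcases hc.mul_eq (mem_fixAlg.2 ⟨hb, hbi⟩) hbb with h | h
    · rw [hcomm] at h
      exact absurd h hcb
    · rw [← hcomm]
      exact h
  exact hasBr_of_mul (p := p) hP (hc.invBy.mono hPY) (hbi.mono hPY) hcb' hbr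

/-- the weight equality for a part over a chain -/
theorem weq_cut [Fact p.Prime] [CharP k p] [IsAlgClosed k] [Fintype A] (h : Cov p φ e)
    {b : MonoidAlgebra k A} (hb : InvBy ⊤ b) (hbb : b * b = b) (heb : e * b = b)
    {τ : Finset (Subgroup B)} (hτ : PCh p τ)
    (IH : ∀ c : MonoidAlgebra k A, IsBlock ((stab ⊤ τ).comap φ) c →
      (∀ P : Subgroup A, P ≤ (stab ⊤ τ).comap φ → IsPGroup p P → HasBr P c → HasBr P b) →
      NavarroEq p ((stab ⊤ τ).comap φ) ((stab ⊤ τ).comap φ) c) :
    Cy.WEq p ((stab ⊤ τ).comap φ) (cutC φ (τ.sup id) b) := by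
  have h1 : SuppIn ((stab ⊤ τ).comap φ) (cutC φ (τ.sup id) b) :=
    cutC_suppIn (cent_le_stab τ) b
  have h2 : InvBy ((stab ⊤ τ).comap φ) (cutC φ (τ.sup id) b) :=
    cutC_invBy (fun y hy => stab_le_norm_sup hτ.chain hy) (hb.mono le_top)
  have h3 := h.cutC_idem hb hbb heb (U := τ.sup id)
    (hτ.pgrp _ (sup_mem_chain hτ.ne hτ.chain)).1
  apply Cy.weq_of_blocks h1 h2 h3
  intro c hc hcb
  apply IH c hc
  intro P hPY hP hbr
  exact hasBr_cut (hasBr_below h1 h2 h3 hc hcb hPY hP hbr)

end

/-- the step: a reduced block with a noncentral normal p'-subgroup -/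
theorem step_star {p : ℕ} [Fact p.Prime] {k : Type v} [Field k] [IsAlgClosed k] [CharP k p]
    {A : Type u} [Group A] [Finite A] {b : MonoidAlgebra k A} (hb : Reduced2 p b)
    {N : Subgroup A} (hN : N.Normal) (hpN : ¬ p ∣ Nat.card N)
    (hP₀ : ∃ P : Subgroup A, IsPGroup p P ∧ HasBr P b ∧ P ≠ ⊥)
    (IH1 : ∀ Y : Subgroup A, Y ≠ ⊤ → ∀ c : MonoidAlgebra k A, IsBlock Y c →
      (∀ P : Subgroup A, P ≤ Y → IsPGroup p P → HasBr P c → HasBr P b) → NavarroEq p Y Y c)
    (IH2 : ∀ (A' : Type u) [Group A'] [Finite A'] (φ' : A' →* A ⧸ N),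
      Function.Surjective φ' → φ'.ker ≤ Subgroup.center A' → ¬ p ∣ Nat.card φ'.ker →
      ∀ (Y : Subgroup A') (c : MonoidAlgebra k A'), IsBlock Y c →
      (∀ P' : Subgroup A', P' ≤ Y → IsPGroup p P' → HasBr P' c → ∃ P : Subgroup A,
        IsPGroup p P ∧ HasBr P b ∧ P.map (QuotientGroup.mk' N) = P'.map φ') →
      NavarroEq p Y Y c) :
    NavarroEq p ⊤ ⊤ b := by
  classical
  have : Fintype A := Fintype.ofFinite A
  -- the block of `N`
  obtain ⟨e, ⟨he, hbe⟩, huniq⟩ := hb.prim N hN
  have hinv : InvBy (⊤ : Subgroup A) e := by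
    rw [invBy_iff_cj]
    intro g _
    apply huniq
    refine ⟨orb_isBlock (K := ⊤) (fun x _ => mem_norm_of_normal N x) he _
      (mem_orb.2 ⟨g, Subgroup.mem_top g, rfl⟩), ?_⟩
    intro h0
    apply hbe
    have h1 := congrArg (cj g⁻¹) h0
    rw [cj_mul, Fr.cj_top hb.block.mem, cj_cj, inv_mul_cancel, cj_one_left, cj_zero] at h1
    exact h1
  have hmem : e ∈ fixAlg k (⊤ : Subgroup A) ⊤ :=
    mem_fixAlg.2 ⟨fun _ _ => Subgroup.mem_top _, hinv⟩
  have heb : e * b = b := by
    rcases hb.block.mul_eq hmem he.idem with h | h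
    · exfalso
      apply hbe
      rw [Fr.comm_top hb.block.mem e, h]
    · exact h
  have hcov : Cov p (QuotientGroup.mk' N) e :=
    { surj := QuotientGroup.mk'_surjective N
      tri := by
        rw [QuotientGroup.ker_mk']
        exact
          { le := le_top
            nm := fun x _ => mem_norm_of_normal N x
            pp := hpN
            blk := he
            inv := hinv } }
  obtain ⟨A', _, _, φ', υ, hst⟩ := exists_star hcov
  have : Fintype A' := Fintype.ofFinite A'
  obtain ⟨b', heb', hexb, hb'⟩ := hst.exists_block hb.block heb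
  have hkc := hst.ker_central
  have hbr' : ∀ P' : Subgroup A', IsPGroup p P' → HasBr P' b' → ∃ P : Subgroup A,
      IsPGroup p P ∧ HasBr P b ∧ P.map (QuotientGroup.mk' N) = P'.map φ' := by
    intro P' hP' hbr
    have h1 : IsPGroup p ↥(P'.map φ') := hP'.map φ'
    obtain ⟨P, hP, hPm⟩ := exists_lift (p := p) hst.cov.surj h1
    refine ⟨P, hP, ?_, hPm⟩
    rw [← hexb]
    exact (hasBr_iff hst hb'.invBy heb' hP hP' hPm).1 hbr
  have h1 : ∀ τ : Finset (Subgroup (A ⧸ N)), PCh p τ →
      Cy.WEq p ((stab ⊤ τ).comap (QuotientGroup.mk' N))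
        (cutC (QuotientGroup.mk' N) (τ.sup id) (ex υ b')) := by
    intro τ hτ
    rw [hexb]
    apply weq_cut hcov hb.block.invBy hb.block.idem heb hτ
    intro c hc hbr
    apply IH1 _ ?_ c hc hbr
    intro htop
    obtain ⟨Q, hQτ, hQmin⟩ := exists_least hτ.ne hτ.chain
    obtain ⟨hQp, hQne⟩ := hτ.pgrp Q hQτ
    have hst' : stab (⊤ : Subgroup (A ⧸ N)) τ = ⊤ := by
      rw [eq_top_iff]
      intro y _
      obtain ⟨x, rfl⟩ := hcov.surj y
      have h2 : x ∈ (stab ⊤ τ).comap (QuotientGroup.mk' N) := by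
        rw [htop]
        exact Subgroup.mem_top x
      exact h2
    have hQn : Q.Normal := by
      rw [← Subgroup.normalizer_eq_top_iff, eq_top_iff, ← hst']
      exact stab_le_norm hQτ
    have hM := hb.quot N (Q.comap (QuotientGroup.mk' N)) hN (hQn.comap _) (by
        intro x hx
        have h2 : QuotientGroup.mk' N x = 1 := (QuotientGroup.eq_one_iff (N := N) x).2 hx
        rw [Subgroup.mem_comap, h2]
        exact Q.one_mem) hpN (by
        intro x hx
        obtain ⟨n, hn⟩ := hQp ⟨_, hx⟩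
        refine ⟨n, ?_⟩
        have h2 := congrArg Subtype.val hn
        change (QuotientGroup.mk' N x) ^ p ^ n = 1 at h2
        rw [← map_pow] at h2
        exact (QuotientGroup.eq_one_iff (N := N) _).1 h2)
    apply hQne
    rw [eq_bot_iff]
    intro y hy
    obtain ⟨x, rfl⟩ := hcov.surj y
    have h2 : x ∈ Q.comap (QuotientGroup.mk' N) := hy
    rw [hM] at h2
    exact Subgroup.mem_bot.2 ((QuotientGroup.eq_one_iff (N := N) x).2 h2)
  have h2 : ∀ τ : Finset (Subgroup (A ⧸ N)), PCh p τ →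
      Cy.WEq p ((stab ⊤ τ).comap φ') (cutC φ' (τ.sup id) b') := by
    intro τ hτ
    apply weq_cut hst.cov' hb'.invBy hb'.idem heb' hτ
    intro c hc hbr
    apply IH2 A' φ' hst.surj hkc hst.ker _ c hc
    intro P' hPY hP' hPc
    exact hbr' P' hP' (hbr P' hPY hP' hPc)
  have h3 : Cy.WEq p ⊤ b' := by
    apply Cy.weq_of_blocks (fun _ _ => Subgroup.mem_top _) hb'.invBy hb'.idem
    intro c hc hcb
    have h4 : c = b' := by
      rcases hc.eq_or_mul_eq_zero hb' with h | h
      · exact h
      · exact absurd h hcb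
    rw [h4]
    apply IH2 A' φ' hst.surj hkc hst.ker _ b' hb'
    intro P' _ hP' hPc
    exact hbr' P' hP' hPc
  obtain ⟨P, hP, hPb, hPne⟩ := hP₀
  have h4 : wN p ⊤ ⊥ (ex υ b') = 0 := by
    rw [hexb]
    exact wN_zero hb.block hP hPne hPb
  have h5 : wN p ⊤ ⊥ b' = 0 := by
    obtain ⟨P', hP', hPm⟩ := exists_lift (p := p) hst.surj (hP.map (QuotientGroup.mk' N))
    apply wN_zero hb' hP' ?_ ((hasBr_iff hst hb'.invBy heb' hP hP' hPm.symm).2
      (by rw [hexb]; exact hPb))
    intro h0
    apply hPne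
    rw [h0, Subgroup.map_bot] at hPm
    rw [eq_bot_iff]
    intro x hx
    rw [Subgroup.mem_bot]
    apply map_inj hcov.tri.pp hP hx
    have h6 : (QuotientGroup.mk' N) x ∈ P.map (QuotientGroup.mk' N) := ⟨x, hx, rfl⟩
    rw [← hPm] at h6
    exact Subgroup.mem_bot.1 h6
  apply Red2Aux.navarro_of_weq hb.block
  have h6 := hst.weq_of hb'.invBy hb'.idem heb' h1 h2 h3 h4 h5
  rwa [hexb] at h6

end Red3Aux

open Red3Aux

/-- the reduction of the blockwise weight conjecture to reduced blocks with central `O_{p'}`; the condition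
`C` on the pairs `(H, P)` is inherited by the images of subgroups and by the central extensions of `H / N` by
`p'`-groups, `N` the largest normal `p'`-subgroup of `H` -/
theorem baw_of_reduced3 {p : ℕ} [Fact p.Prime] {k : Type v} [Field k] [IsAlgClosed k] [CharP k p]
    (C : ∀ (H : Type u) [Group H], Subgroup H → Prop)
    (hC : ∀ (H H' : Type u) [Group H] [Group H'] (P : Subgroup H) (P' : Subgroup H'),
      PairSec P' P → C H P → C H' P')
    (hC' : ∀ (H A : Type u) [Group H] [Finite H] [Group A] [Finite A] (N : Subgroup H) [N.Normal]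
      (ψ : A →* H ⧸ N) (P : Subgroup H) (P' : Subgroup A),
      (∀ N' : Subgroup H, N'.Normal → ¬ p ∣ Nat.card N' → N' ≤ N) →
      Function.Surjective ψ → ψ.ker ≤ Subgroup.center A → ¬ p ∣ Nat.card ψ.ker →
      IsPGroup p P' → P.map (QuotientGroup.mk' N) = P'.map ψ → C H P → C A P')
    (hred : ∀ (H : Type u) [Group H] [Finite H] (b : MonoidAlgebra k H),
      Reduced3 p b → PairCond C p b →
      (∃ P : Subgroup H, IsPGroup p P ∧ HasBr P b ∧ ¬ IsCyclic P) → NavarroEq p ⊤ ⊤ b) :
    ∀ (m n : ℕ) (H : Type u) [Group H] [Finite H], (Subgroup.center H).index = m →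
      Nat.card H = n →
      ∀ b : MonoidAlgebra k H, IsBlock ⊤ b → PairCond C p b → NavarroEq p ⊤ ⊤ b := by
  intro m
  induction m using Nat.strong_induction_on with
  | _ m ihm =>
  intro n
  induction n using Nat.strong_induction_on with
  | _ n ihn =>
  intro H _ _ hidx hcard b hb hdef
  -- the combined induction hypothesis
  have IH : ∀ (H' : Type u) [Group H'] [Finite H'], (Subgroup.center H').index ≤ m →
      ((Subgroup.center H').index < m ∨ Nat.card H' < n) →
      ∀ b : MonoidAlgebra k H', IsBlock ⊤ b → PairCond C p b → NavarroEq p ⊤ ⊤ b := by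
    intro H' _ _ h1 h2 b' hb' hdef'
    rcases h2 with h2 | h2
    · exact ihm _ h2 _ H' rfl rfl b' hb' hdef'
    · rcases lt_or_eq_of_le h1 with h4 | h4
      · exact ihm _ h4 _ H' rfl rfl b' hb' hdef'
      · exact ihn _ h2 H' h4 rfl b' hb' hdef'
  refine baw_of_reduced2_pair (p := p) (k := k) (G₀ := H) C hC ?_ n H hcard (IsSection.refl H)
    b hb hdef
  intro H' _ _ hsec' b' hb' hdef' hncyc
  have hidx' : (Subgroup.center H').index ≤ m := by
    rw [← hidx]
    exact Fg.index_center_le hsec'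
  have hcard' : Nat.card H' ≤ n := by
    rw [← hcard]
    exact hsec'.card_le
  by_cases hlt : (Subgroup.center H').index < m ∨ Nat.card H' < n
  · exact IH H' hidx' hlt b' hb'.block hdef'
  push Not at hlt
  have heqi : (Subgroup.center H').index = m := le_antisymm hidx' hlt.1
  have heqc : Nat.card H' = n := le_antisymm hcard' hlt.2
  have hcore : ∀ P : Subgroup H', P.Normal → IsPGroup p P → P = ⊥ := by
    intro P hPn hP
    apply hb'.quot ⊥ P inferInstance hPn bot_le
    · rw [Subgroup.card_bot]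
      exact (Fact.out : p.Prime).one_lt.ne' ∘ Nat.dvd_one.1
    · intro x hx
      obtain ⟨j, hj⟩ := hP ⟨x, hx⟩
      refine ⟨j, ?_⟩
      have h2 := congrArg Subtype.val hj
      exact Subgroup.mem_bot.2 h2
  obtain ⟨N, hN, hpN, hmax⟩ := Ps.exists_core (p := p) H'
  by_cases hNc : N ≤ Subgroup.center H'
  · exact hred H' b' ⟨hb'.block, hb'.residual, hcore,
      fun N' hN' hpN' => (hmax N' hN' hpN').trans hNc, hb'.cyclic, hb'.prim, hb'.faithful⟩
      hdef' hncyc
  -- the noncentral case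
  have hZp : ¬ p ∣ Nat.card (Subgroup.center H') := Fg.core_central hcore
  have hZN : Subgroup.center H' ≤ N := hmax _ inferInstance hZp
  have hidxN : Nat.card (H' ⧸ N) < m := by
    rw [← heqi]
    change N.index < _
    have h1 := Subgroup.relIndex_mul_index hZN
    have h2 : (Subgroup.center H').relIndex N ≠ 1 := by
      intro h0
      exact hNc (Subgroup.relIndex_eq_one.1 h0)
    have h3 : 0 < (Subgroup.center H').relIndex N := by
      rcases Nat.eq_zero_or_pos ((Subgroup.center H').relIndex N) with h0 | h0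
      · rw [h0, zero_mul] at h1
        exact absurd h1.symm (Subgroup.index_ne_zero_of_finite)
      · exact h0
    have h4 : 0 < N.index := Nat.pos_of_ne_zero Subgroup.index_ne_zero_of_finite
    rw [← h1]
    have h5 : 1 < (Subgroup.center H').relIndex N := by omega
    exact lt_mul_of_one_lt_left h4 h5
  have hP₀ : ∃ P : Subgroup H', IsPGroup p P ∧ HasBr P b' ∧ P ≠ ⊥ := by
    obtain ⟨P, h1, h2, h3⟩ := hncyc
    refine ⟨P, h1, h2, fun h0 => h3 ?_⟩
    rw [h0]
    infer_instance
  apply step_star hb' hN hpN hP₀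
  · intro Y hY c hc hbr
    apply navarro_transport hc
    refine IH Y ((Fg.index_center_le (IsSection.of_subgroup Y)).trans hidx') (Or.inr ?_)
      _ (dn_isBlock hc) ?_
    · rw [← heqc]
      exact lt_of_le_of_ne (Subgroup.card_le_card_group Y)
        (fun h => hY (Subgroup.eq_top_of_card_eq Y h))
    · intro P hpP hbrP
      refine hC _ _ _ _ (PairSec.of_subgroup P) (hdef' _ (hpP.map _) (hbr _ ?_ (hpP.map _)
        (RedAux.hasBr_up' hbrP)))
      rintro _ ⟨x, _, rfl⟩
      exact x.2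
  · intro A' _ _ φ' hφ' hφZ hφp Y c hc hbr
    have h2 : (Subgroup.center A').index < m :=
      (Fg.index_center_le_of hφ' hφZ).trans_lt hidxN
    have h3 : (Subgroup.center ↥Y).index < m :=
      (Fg.index_center_le (IsSection.of_subgroup Y)).trans_lt h2
    have : Fintype A' := Fintype.ofFinite A'
    apply navarro_transport hc
    refine IH Y h3.le (Or.inl h3) _ (dn_isBlock hc) ?_
    intro P' hpP' hbrP'
    obtain ⟨P, h4, h5, h6⟩ := hbr _ (by
      rintro _ ⟨x, _, rfl⟩
      exact x.2) (hpP'.map _) (RedAux.hasBr_up' hbrP')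
    exact hC _ _ _ _ (PairSec.of_subgroup P')
      (hC' _ _ N φ' P _ hmax hφ' hφZ hφp (hpP'.map _) h6 (hdef' P h4 h5))

end Pool.Agent.Lib.P0c8ca5
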