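import Mathlib
import Pool.Agent.Lib.P0c8ca5F.CycA

/-!
# Module CycR: groups with a p-solvable normal subgroup whose quotient has cyclic Sylow p-subgroups

PROOF.  Let `π : H → L` be surjective with central kernel of order prime to `p`, `K ≤ G`, `f : K → L` surjective.  `R_L = f (R ⊓ K)` is a normal
subgroup of `L`, an image of a subgroup of `R`, so p-solvable (`PSolv.of_section`); `R_H = R_L.comap π` is a normal subgroup of `H`, p-solvable by
`psolv_of_ker` (`R_H → R_L`, the kernel is contained in `π.ker`).  So `R_H ≤ Z(H)` (`radical_central`), and `|Z(H)|` is prime to `p` (`core_central`).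
Let `P ≤ H` be a p-group.  `P ⊓ R_H = ⊥` (`R_H` has order prime to `p`).  So `P` is isomorphic to its image in `L ⧸ R_L` (the kernel of
`H → L ⧸ R_L` is `R_H`).  `L ⧸ R_L` is an image of `K ⧸ (R ⊓ K)`, which is isomorphic to the image of `K` in `G ⧸ R`.  So there is a subgroup
`K₁` of `G ⧸ R` (the image of `K`) and a surjective homomorphism `g : K₁ → L ⧸ R_L`.  Let `P₂` be the image of `P` in `L ⧸ R_L`; there is a p-subgroup
`P₁` of `K₁` with `g(P₁) = P₂` (a Sylow p-subgroup of `g⁻¹(P₂)`; it is `exists_lift` in P0c8ca5F.GrA for the group `K₁`); its image in `G ⧸ R` is a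
p-group, so cyclic by `hcyc`, so `P₁` and `P₂` are cyclic, and `P ≃ P₂` is cyclic.
-/

namespace Pool.Agent.Lib.P0c8ca5.Fg

open Ps

universe u

namespace CycRAux

theorem exists_lift' {p : ℕ} [Fact p.Prime] {A B : Type*} [Group A] [Group B] [Finite A]
    {φ : A →* B} (hφ : Function.Surjective φ) {T : Subgroup B}
    (hT : IsPGroup p T) : ∃ S : Subgroup A, IsPGroup p S ∧ S.map φ = T := by
  obtain ⟨f, hfd⟩ : ∃ f, f = φ.subgroupComap T := ⟨_, rfl⟩
  have hf : Function.Surjective f := by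
    rw [hfd]; exact MonoidHom.subgroupComap_surjective_of_surjective φ T hφ
  obtain ⟨P₀⟩ : Nonempty (Sylow p (T.comap φ)) := inferInstance
  have h1 : (P₀ : Subgroup (T.comap φ)).map f = ⊤ := by
    have h2 : (⊤ : Subgroup T) = ((P₀.mapSurjective hf : Sylow p T) : Subgroup T) :=
      (P₀.mapSurjective hf).is_maximal' (Q := ⊤)
        (hT.of_equiv (Subgroup.topEquiv (G := T)).symm) le_top
    rw [Sylow.coe_mapSurjective] at h2
    exact h2.symm
  refine ⟨(P₀ : Subgroup (T.comap φ)).map (T.comap φ).subtype, P₀.isPGroup'.map _, ?_⟩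
  ext b
  constructor
  · rintro ⟨a, ⟨y, hy, rfl⟩, rfl⟩
    exact y.2
  · intro hb
    have h3 : (⟨b, hb⟩ : T) ∈ (P₀ : Subgroup (T.comap φ)).map f := by rw [h1]; trivial
    obtain ⟨y, hy, hyb⟩ := h3
    refine ⟨(y : A), ⟨y, hy, rfl⟩, ?_⟩
    have h4 := congrArg Subtype.val hyb
    rw [hfd] at h4
    exact h4

theorem not_dvd_ker {p : ℕ} {A B : Type*} [Group A] [Group B] [Finite A] {π : A →* B}
    (h : ¬ p ∣ Nat.card π.ker) (T : Subgroup B) : ¬ p ∣ Nat.card (π.subgroupComap T).ker := by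
  intro hd
  apply h
  refine hd.trans ?_
  have h1 : ((π.subgroupComap T).ker.map (T.comap π).subtype) ≤ π.ker := by
    rintro _ ⟨y, hy, rfl⟩
    have h2 := congrArg Subtype.val (MonoidHom.mem_ker.1 hy)
    exact h2
  have h2 : Nat.card ((π.subgroupComap T).ker.map (T.comap π).subtype)
      = Nat.card (π.subgroupComap T).ker :=
    Nat.card_congr ((π.subgroupComap T).ker.equivMapOfInjective _
      (Subgroup.subtype_injective _)).symm.toEquiv
  rw [← h2]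
  exact Subgroup.card_dvd_of_le h1

end CycRAux

theorem cyclic_of_radical {p : ℕ} [Fact p.Prime] {G : Type*} [Group G] [Finite G]
    {R : Subgroup G} [R.Normal] (hR : PSolv p R)
    (hcyc : ∀ P : Subgroup (G ⧸ R), IsPGroup p P → IsCyclic P)
    {H : Type u} [Group H] [Finite H] (hs : CSec p H G)
    (hcore : ∀ P : Subgroup H, P.Normal → IsPGroup p P → P = ⊥)
    (hcen : ∀ N : Subgroup H, N.Normal → ¬ p ∣ Nat.card N → N ≤ Subgroup.center H) :
    ∀ P : Subgroup H, IsPGroup p P → IsCyclic P := by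
  intro P hP
  obtain ⟨L, _, π, hπ, hπc, hπp, K, f, hf⟩ := hs
  -- the radical of `L`
  obtain ⟨RL, hRL⟩ : ∃ RL, RL = (R.subgroupOf K).map f := ⟨_, rfl⟩
  have hRLn : RL.Normal := by
    rw [hRL]
    have : (R.subgroupOf K).Normal := inferInstance
    exact this.map f hf
  have hRLs : PSolv p RL := by
    refine hR.of_section ⟨K.subgroupOf R, ?_⟩
    refine ⟨
      { toFun := fun x => ⟨f ⟨(x : R), Subgroup.mem_subgroupOf.1 x.2⟩, ?_⟩
        map_one' := ?_
        map_mul' := ?_ }, ?_⟩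
    · rw [hRL]
      exact ⟨⟨(x : R), Subgroup.mem_subgroupOf.1 x.2⟩, Subgroup.mem_subgroupOf.2 (x : R).2, rfl⟩
    · exact Subtype.ext (map_one f)
    · intro x y
      exact Subtype.ext (map_mul f ⟨(x : R), _⟩ ⟨(y : R), _⟩)
    · rintro ⟨l, hl⟩
      rw [hRL] at hl
      obtain ⟨x, hx, rfl⟩ := hl
      exact ⟨⟨⟨(x : G), Subgroup.mem_subgroupOf.1 hx⟩, Subgroup.mem_subgroupOf.2 x.2⟩, rfl⟩
  obtain ⟨RH, hRH⟩ : ∃ RH, RH = RL.comap π := ⟨_, rfl⟩
  have hRHn : RH.Normal := by rw [hRH]; exact hRLn.comap π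
  have hRHs : PSolv p RH := by
    rw [hRH]
    exact psolv_of_ker (π.subgroupComap RL) (CycRAux.not_dvd_ker hπp RL) hRLs
  have hRHc := radical_central hRHn hRHs hcore hcen
  have hRHp : ¬ p ∣ Nat.card RH := fun h =>
    core_central hcore (h.trans (Subgroup.card_dvd_of_le hRHc))
  -- `P ⊓ RH = ⊥`
  have hPR : ∀ x ∈ P, x ∈ RH → x = 1 := by
    intro x hx hxR
    obtain ⟨n, hn⟩ := hP ⟨x, hx⟩
    have hn' : x ^ p ^ n = 1 := congrArg Subtype.val hn
    have h1 : orderOf x ∣ p ^ n := orderOf_dvd_of_pow_eq_one hn'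
    have h2 : orderOf x ∣ Nat.card RH := by
      have := orderOf_dvd_natCard (⟨x, hxR⟩ : RH)
      rwa [Subgroup.orderOf_mk] at this
    have h3 : Nat.Coprime (p ^ n) (Nat.card RH) :=
      ((Nat.Prime.coprime_iff_not_dvd (Fact.out : p.Prime)).2 hRHp).pow_left n
    exact orderOf_eq_one_iff.1 (Nat.eq_one_of_dvd_coprimes h3 h1 h2)
  -- the lift to `K`
  obtain ⟨χ, hχ⟩ : ∃ χ : H →* L ⧸ RL, χ = (QuotientGroup.mk' RL).comp π := ⟨_, rfl⟩
  obtain ⟨ψ, hψ⟩ : ∃ ψ : K →* L ⧸ RL, ψ = (QuotientGroup.mk' RL).comp f := ⟨_, rfl⟩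
  have hψs : Function.Surjective ψ := by
    rw [hψ]; exact (QuotientGroup.mk'_surjective RL).comp hf
  obtain ⟨S, hS, hSP⟩ := CycRAux.exists_lift' (p := p) hψs (hP.map χ)
  have hcy := hcyc ((S.map K.subtype).map (QuotientGroup.mk' R)) ((hS.map _).map _)
  obtain ⟨⟨g, hg⟩, hgen⟩ := IsCyclic.exists_generator
    (α := ((S.map K.subtype).map (QuotientGroup.mk' R) : Subgroup (G ⧸ R)))
  obtain ⟨_, ⟨s₀, hs₀, rfl⟩, rfl⟩ := hg
  have hgenS : ∀ s ∈ S, ∃ n : ℤ, ψ s = ψ s₀ ^ n := by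
    intro s hs
    obtain ⟨n, hn⟩ := Subgroup.mem_zpowers_iff.1 (hgen ⟨QuotientGroup.mk' R (K.subtype s),
      ⟨K.subtype s, ⟨s, hs, rfl⟩, rfl⟩⟩)
    refine ⟨n, ?_⟩
    have h1 := congrArg Subtype.val hn
    have h2 : QuotientGroup.mk' R (K.subtype (s₀ ^ n)) = QuotientGroup.mk' R (K.subtype s) := by
      rw [map_zpow, map_zpow]
      exact h1
    have h3 : (K.subtype (s₀ ^ n))⁻¹ * K.subtype s ∈ R := QuotientGroup.eq.1 h2
    have h4 : (f (s₀ ^ n))⁻¹ * f s ∈ RL := by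
      rw [← map_inv, ← map_mul, hRL]
      exact ⟨(s₀ ^ n)⁻¹ * s, Subgroup.mem_subgroupOf.2 h3, rfl⟩
    have h5 : QuotientGroup.mk' RL (f (s₀ ^ n)) = QuotientGroup.mk' RL (f s) :=
      QuotientGroup.eq.2 h4
    rw [← map_zpow, hψ]
    exact h5.symm
  have hy : ψ s₀ ∈ P.map χ := by rw [← hSP]; exact ⟨s₀, hs₀, rfl⟩
  obtain ⟨y, hyP, hyχ⟩ := hy
  refine ⟨⟨⟨y, hyP⟩, ?_⟩⟩
  rintro ⟨x, hx⟩
  have hxS : χ x ∈ S.map ψ := by rw [hSP]; exact ⟨x, hx, rfl⟩
  obtain ⟨s, hsS, hsx⟩ := hxS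
  obtain ⟨n, hn⟩ := hgenS s hsS
  refine Subgroup.mem_zpowers_iff.2 ⟨n, Subtype.ext ?_⟩
  have h1 : χ (y ^ n) = χ x := by rw [map_zpow, hyχ, ← hn, hsx]
  have h2 : (y ^ n)⁻¹ * x ∈ RH := by
    rw [hRH, Subgroup.mem_comap, map_mul, map_inv]
    rw [hχ] at h1
    exact QuotientGroup.eq.1 h1
  have h3 := hPR _ (P.mul_mem (P.inv_mem (P.zpow_mem hyP n)) hx) h2
  have h4 : y ^ n = x := by
    rw [inv_mul_eq_one] at h3
    exact h3
  exact h4

end Pool.Agent.Lib.P0c8ca5.Fg
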