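import Mathlib
import Pool.Agent.Lib.P0c8ca5F.Red3
import Pool.Agent.Lib.P0c8ca5F.CycR
import Pool.Agent.Lib.P0c8ca5T.LocS

/-!
# Central extensions of sections: pairs
-/

namespace Pool.Agent.Lib.P0c8ca5.Fg

open MonoidAlgebra Ps

universe u v w

/-- `H` is a central extension by a group of order prime to `p` of the image of a subgroup `K'` of `K`, and
the image of `P` is contained in the image of `K' ∩ E`. -/
def CPair (p : ℕ) {H : Type u} [Group H] (P : Subgroup H) {K : Type w} [Group K]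
    (E : Subgroup K) : Prop :=
  ∃ (L : Type u) (_ : Group L) (π : H →* L), Function.Surjective π ∧
    π.ker ≤ Subgroup.center H ∧ ¬ p ∣ Nat.card π.ker ∧ PairSec (P.map π) E

theorem CPair.cSec {p : ℕ} {H : Type u} [Group H] {P : Subgroup H} {K : Type w} [Group K]
    {E : Subgroup K} (h : CPair p P E) : CSec p H K := by
  obtain ⟨L, _, π, h1, h2, h3, h4⟩ := h
  exact ⟨L, inferInstance, π, h1, h2, h3, h4.isSection⟩

theorem CPair.mono {p : ℕ} {H : Type u} [Group H] {P : Subgroup H} {K : Type w} [Group K]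
    {E : Subgroup K} {K' : Type*} [Group K'] {E' : Subgroup K'} (h : CPair p P E)
    (hE : PairSec E E') : CPair p P E' := by
  obtain ⟨L, _, π, h1, h2, h3, h4⟩ := h
  exact ⟨L, inferInstance, π, h1, h2, h3, h4.trans hE⟩

theorem CPair.of_section {p : ℕ} {H H' : Type u} [Group H] [Group H']
    {P : Subgroup H} {P' : Subgroup H'} {K : Type w} [Group K] {E : Subgroup K}
    (hs : PairSec P' P) (h : CPair p P E) : CPair p P' E := by
  obtain ⟨L, instL, π, hπ, hπZ, hπp, hLG⟩ := h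
  obtain ⟨K, f, hf, hP⟩ := hs
  have hZc : (π.ker.subgroupOf K).map f ≤ Subgroup.center H' := by
    refine le_trans (Subgroup.map_mono ?_) (CsAux.map_center_le hf)
    refine le_trans ?_ (CsAux.subgroupOf_center_le K)
    intro x hx
    rw [Subgroup.mem_subgroupOf] at hx ⊢
    exact hπZ hx
  have hZn : ((π.ker.subgroupOf K).map f).Normal := by
    refine ⟨fun n hn g => ?_⟩
    have h1 := Subgroup.mem_center_iff.1 (hZc hn) g
    rw [h1, mul_inv_cancel_right]
    exact hn
  have hker : (QuotientGroup.mk' ((π.ker.subgroupOf K).map f)).ker = (π.ker.subgroupOf K).map f :=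
    QuotientGroup.ker_mk' _
  refine ⟨H' ⧸ (π.ker.subgroupOf K).map f, inferInstance,
    QuotientGroup.mk' ((π.ker.subgroupOf K).map f), QuotientGroup.mk'_surjective _, ?_, ?_, ?_⟩
  · rw [hker]
    exact hZc
  · rw [hker]
    intro hd
    apply hπp
    refine hd.trans ((Subgroup.card_map_dvd _ f).trans ?_)
    have h1 : Nat.card (π.ker.subgroupOf K) = Nat.card (π.ker ⊓ K : Subgroup H) := by
      have h2 : (π.ker.subgroupOf K).map K.subtype = π.ker ⊓ K :=
        Subgroup.subgroupOf_map_subtype _ _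
      rw [← h2]
      exact Nat.card_congr ((π.ker.subgroupOf K).equivMapOfInjective _
        K.subtype_injective).toEquiv
    rw [h1]
    exact Subgroup.card_dvd_of_le inf_le_left
  · refine PairSec.trans ?_ hLG
    obtain ⟨φ, hφ⟩ := CsAux.exists_lift (π.subgroupMap K) (π.subgroupMap_surjective K)
      ((QuotientGroup.mk' ((π.ker.subgroupOf K).map f)).comp f) (by
        intro x hx
        rw [MonoidHom.mem_ker] at hx ⊢
        have h1 : π (x : H) = 1 := congrArg Subtype.val hx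
        change QuotientGroup.mk' _ (f x) = 1
        rw [← MonoidHom.mem_ker, hker]
        exact ⟨x, Subgroup.mem_subgroupOf.2 ((MonoidHom.mem_ker).2 h1), rfl⟩)
    refine ⟨K.map π, φ, ?_, ?_⟩
    · intro y
      obtain ⟨z, rfl⟩ := QuotientGroup.mk'_surjective _ y
      obtain ⟨x, rfl⟩ := hf z
      exact ⟨π.subgroupMap K x, hφ x⟩
    · rintro _ ⟨z, hz, rfl⟩
      obtain ⟨x, hx, rfl⟩ := hP hz
      exact ⟨π.subgroupMap K x, Subgroup.mem_subgroupOf.2 ⟨x, Subgroup.mem_subgroupOf.1 hx, rfl⟩,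
        hφ x⟩

theorem CPair.of_pairSec {p : ℕ} [Fact p.Prime] {H : Type u} [Group H] {P : Subgroup H}
    {K : Type w} [Group K] {E : Subgroup K} (h : PairSec P E) : CPair p P E := by
  have hp : p.Prime := Fact.out
  refine ⟨H, inferInstance, MonoidHom.id H, Function.surjective_id, ?_, ?_, ?_⟩
  · rw [MonoidHom.ker_id]
    exact bot_le
  · rw [MonoidHom.ker_id, Subgroup.card_bot]
    exact hp.not_dvd_one
  · rwa [Subgroup.map_id]

theorem CPair.of_quot {p : ℕ} {H A : Type u} [Group H] [Group A] {P : Subgroup H}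
    {P' : Subgroup A} {K : Type w} [Group K] {E : Subgroup K} (h : CPair p P E)
    {N : Subgroup H} [N.Normal]
    (hmax : ∀ N' : Subgroup H, N'.Normal → ¬ p ∣ Nat.card N' → N' ≤ N)
    (ψ : A →* H ⧸ N) (hψ : Function.Surjective ψ) (hψZ : ψ.ker ≤ Subgroup.center A)
    (hψp : ¬ p ∣ Nat.card ψ.ker) (hP : P.map (QuotientGroup.mk' N) = P'.map ψ) :
    CPair p P' E := by
  obtain ⟨L, instL, π, hπ, hπZ, hπp, hLG⟩ := h
  refine ⟨H ⧸ N, inferInstance, ψ, hψ, hψZ, hψp, PairSec.trans ?_ hLG⟩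
  have h1 : π.ker ≤ N := hmax _ inferInstance hπp
  obtain ⟨φ, hφ⟩ := CsAux.exists_lift π hπ (QuotientGroup.mk' N) (by
    rw [QuotientGroup.ker_mk']
    exact h1)
  refine PairSec.of_hom φ ?_ ?_
  · intro y
    obtain ⟨z, rfl⟩ := QuotientGroup.mk'_surjective _ y
    exact ⟨π z, hφ z⟩
  · rw [← hP]
    rintro _ ⟨x, hx, rfl⟩
    exact ⟨π x, ⟨x, hx, rfl⟩, hφ x⟩

/-- The blockwise weight conjecture holds for the reduced blocks with noncyclic defect groups such that all
defect groups satisfy the condition `C`. -/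
def BAWRed (p : ℕ) (k : Type v) [Field k] (C : ∀ (L : Type u) [Group L], Subgroup L → Prop) :
    Prop :=
  ∀ (L : Type u) [Group L] [Finite L] (b : MonoidAlgebra k L),
    Reduced3 p b → (∃ D, IsDefectGroup p ⊤ b D ∧ ¬ IsCyclic D) →
    (∀ D : Subgroup L, IsDefectGroup p ⊤ b D → C L D) → NavarroEq p ⊤ ⊤ b

/-- the pairs that come from a family -/
def CFam (p : ℕ) {K : Type w} [Group K] (𝓔 : Set (Subgroup K)) (H : Type u) [Group H]
    (P : Subgroup H) : Prop :=
  ∃ E ∈ 𝓔, CPair p P E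

theorem base_fam {p : ℕ} [Fact p.Prime] {k : Type v} [Field k] [IsAlgClosed k] [CharP k p]
    {K : Type w} [Group K] {𝓔 : Set (Subgroup K)}
    (hyp : BAWRed.{u, v} p k (fun L _ D => CFam p 𝓔 L D)) :
    Base.{u, v} p k (fun L _ D => CFam p 𝓔 L D) := by
  refine ⟨fun H H' _ _ P P' hs ⟨E, hE, h⟩ => ⟨E, hE, h.of_section hs⟩, ?_⟩
  intro B _ _ e he hC
  refine baw_of_reduced3 (p := p) (k := k) (fun L _ D => CFam p 𝓔 L D)
    (fun H H' _ _ P P' hs ⟨E, hE, h⟩ => ⟨E, hE, h.of_section hs⟩)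
    (fun H A _ _ _ _ N _ ψ P P' hmax hψ hψZ hψp _ hP ⟨E, hE, h⟩ =>
      ⟨E, hE, h.of_quot hmax ψ hψ hψZ hψp hP⟩) ?_ _ _ B rfl rfl e he hC
  intro H _ _ b hb hC hnc
  have : Fintype H := Fintype.ofFinite H
  apply hyp H b hb
  · obtain ⟨P, h1, h2, h3⟩ := hnc
    obtain ⟨D, h4, h5⟩ := exists_defect (p := p) (N := ⊤) le_top h1 h2
    refine ⟨D, h4, fun hc => h3 ?_⟩
    exact isCyclic_of_injective (Subgroup.inclusion h5) (Subgroup.inclusion_injective h5)
  · intro D hD
    exact hC D hD.isPGroup hD.br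

/-- the p-subgroups of a reduced group that are cyclic modulo p-solvable normal subgroups -/
theorem cyclic_of_cpair {p : ℕ} [Fact p.Prime] {K : Type w} [Group K] {E : Subgroup K}
    (hE : CycModPs p K E) {H : Type u} [Group H] [Finite H]
    (hcore : ∀ P : Subgroup H, P.Normal → IsPGroup p P → P = ⊥)
    (hcen : ∀ N : Subgroup H, N.Normal → ¬ p ∣ Nat.card N → N ≤ Subgroup.center H)
    {P : Subgroup H} (hP : IsPGroup p P) (hs : CPair p P E) : IsCyclic P := by
  obtain ⟨L, _, π, hπ, hπc, hπp, hsec⟩ := hs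
  obtain ⟨S, hSn, hS, hc⟩ := hE.of_pairSec hsec
  have hRn : (S.comap π).Normal := hSn.comap π
  have hRs : PSolv p ↥(S.comap π) :=
    psolv_of_ker (π.subgroupComap S) (CycRAux.not_dvd_ker hπp S) hS
  have hRc := radical_central hRn hRs hcore hcen
  have hRp : ¬ p ∣ Nat.card ↥(S.comap π) := fun h =>
    core_central hcore (h.trans (Subgroup.card_dvd_of_le hRc))
  have hPR : ∀ x ∈ P, x ∈ S.comap π → x = 1 := by
    intro x hx hxR
    obtain ⟨n, hn⟩ := hP ⟨x, hx⟩
    have hn' : x ^ p ^ n = 1 := congrArg Subtype.val hn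
    have h1 : orderOf x ∣ p ^ n := orderOf_dvd_of_pow_eq_one hn'
    have h2 : orderOf x ∣ Nat.card ↥(S.comap π) := by
      have := orderOf_dvd_natCard (⟨x, hxR⟩ : ↥(S.comap π))
      rwa [Subgroup.orderOf_mk] at this
    have h3 : Nat.Coprime (p ^ n) (Nat.card ↥(S.comap π)) :=
      ((Nat.Prime.coprime_iff_not_dvd (Fact.out : p.Prime)).2 hRp).pow_left n
    exact orderOf_eq_one_iff.1 (Nat.eq_one_of_dvd_coprimes h3 h1 h2)
  let g : ↥P →* ↥((P.map π).map (QuotientGroup.mk' S)) :=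
    { toFun := fun x => ⟨QuotientGroup.mk' S (π x), ⟨π x, ⟨x, x.2, rfl⟩, rfl⟩⟩
      map_one' := Subtype.ext (by
        change QuotientGroup.mk' S (π ((1 : ↥P) : H)) = 1
        rw [Subgroup.coe_one, map_one, map_one])
      map_mul' := fun x y => Subtype.ext (by
        change QuotientGroup.mk' S (π ((x * y : ↥P) : H)) =
          QuotientGroup.mk' S (π x) * QuotientGroup.mk' S (π y)
        rw [Subgroup.coe_mul, map_mul, map_mul]) }
  refine isCyclic_of_injective g ?_
  rw [injective_iff_map_eq_one]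
  intro x hx
  have h1 : QuotientGroup.mk' S (π x) = 1 := congrArg Subtype.val hx
  have h2 : π x ∈ S := (QuotientGroup.eq_one_iff (N := S) _).1 h1
  exact Subtype.ext (hPR x x.2 h2)

theorem cycModPs_of_cycPs {p : ℕ} {A : Type u} [Group A] {H E : Subgroup A}
    (h : CycPs p H E) (hEH : E ≤ H) : CycModPs p ↥H (E.subgroupOf H) := by
  obtain ⟨S, hSH, hSn, hS, hc⟩ := h
  have hSn' : (S.subgroupOf H).Normal := by
    refine ⟨fun n hn' g => ?_⟩
    rw [Subgroup.mem_subgroupOf] at hn' ⊢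
    exact (Subgroup.mem_normalizer_iff.1 (hSn g.2) _).1 hn'
  refine ⟨S.subgroupOf H, hSn', hS.of_equiv (Subgroup.subgroupOfEquivOfLe hSH).symm, ?_⟩
  have hn : E ≤ Subgroup.normalizer (S : Set A) := hEH.trans hSn
  rw [← qhom_range hn] at hc
  let ι : ↥(E.subgroupOf H) →* ↥E := (Subgroup.subgroupOfEquivOfLe hEH).toMonoidHom
  let β : ↥(E.subgroupOf H) →* ↥H ⧸ S.subgroupOf H :=
    (QuotientGroup.mk' (S.subgroupOf H)).comp (E.subgroupOf H).subtype
  have hβ : (E.subgroupOf H).map (QuotientGroup.mk' (S.subgroupOf H)) = β.range := by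
    ext w
    constructor
    · rintro ⟨x, hx, rfl⟩
      exact ⟨⟨x, hx⟩, rfl⟩
    · rintro ⟨x, rfl⟩
      exact ⟨x.1, x.2, rfl⟩
  rw [hβ]
  refine cyc_of_ker (α := (qhom hn).comp ι) ?_ ?_
  · intro x hx
    have h3 : ι x ∈ (qhom hn).ker := hx
    rw [qhom_ker] at h3
    rw [MonoidHom.mem_ker]
    have h4 : (x : ↥H) ∈ S.subgroupOf H := Subgroup.mem_subgroupOf.2 h3
    exact (QuotientGroup.eq_one_iff (N := S.subgroupOf H) _).2 h4
  · refine cyc_of_le ?_ hc
    rintro _ ⟨x, rfl⟩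
    exact ⟨ι x, rfl⟩

end Pool.Agent.Lib.P0c8ca5.Fg
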