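import Mathlib
import Pool.Agent.Lib.P0c8ca5F.CPr

/-!
# The local condition
-/

namespace Pool.Agent.Lib.P0c8ca5.Fg

open MonoidAlgebra Ps Cy

universe u v w

/-- `K` has subgroups `M ≤ N ≤ H` such that `T ⊆ M`, `H` is normal in `K`, `K / H` is a p-group, `N` is normal in
`H`, `H / N` is cyclic of order prime to `p`, `M` is normal in `H`, `N / M` is a p-group, and one of the
following holds: for each `E ∈ 𝓔` the image of `E ∩ M` modulo some p-solvable normal subgroup of `H` is cyclic; or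
the blockwise weight conjecture holds for the reduced blocks with noncyclic defect groups of the groups `L` such
that the defect groups `D` of `b` are contained in the image of `E ∩ M`, `E ∈ 𝓔`. -/
def RedCond (p : ℕ) (k : Type v) [Field k] {Γ : Type u} [Group Γ] (K : Subgroup Γ) (T : Set Γ)
    (𝓔 : Set (Subgroup Γ)) : Prop :=
  ∃ M N H : Subgroup Γ, Hyp3 p M N H K ∧ T ⊆ M ∧
    ((∀ E ∈ 𝓔, CycPs p H (E ⊓ M)) ∨
      BAWRed.{u, v} p k (fun L _ D => ∃ E ∈ 𝓔, CPair p D ((E ⊓ M).subgroupOf H)))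

variable {p : ℕ} {k : Type v} [Field k]

/-- the first alternative implies the second -/
theorem bawRed_of_cycPs [Fact p.Prime] {Γ : Type u} [Group Γ] {M H : Subgroup Γ}
    {𝓔 : Set (Subgroup Γ)} (hMH : M ≤ H) (h : ∀ E ∈ 𝓔, CycPs p H (E ⊓ M)) :
    BAWRed.{u, v} p k (fun L _ D => ∃ E ∈ 𝓔, CPair p D ((E ⊓ M).subgroupOf H)) := by
  intro L _ _ b hb hnc hD
  exfalso
  obtain ⟨D, h1, h2⟩ := hnc
  obtain ⟨E, hE, h3⟩ := hD D h1
  exact h2 (cyclic_of_cpair (cycModPs_of_cycPs (h E hE) (inf_le_right.trans hMH)) hb.core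
    hb.central h1.isPGroup h3)

theorem pairSec_incl {Γ : Type u} [Group Γ] {K H : Subgroup Γ} (hKH : K ≤ H) {P : Subgroup ↥K}
    {E : Subgroup Γ} (hE : P.map K.subtype ≤ E) : PairSec P (E.subgroupOf H) := by
  refine (pairSec_of_injective (Subgroup.inclusion hKH) (Subgroup.inclusion_injective hKH)
    P).trans (PairSec.of_le ?_)
  rintro _ ⟨x, hx, rfl⟩
  rw [Subgroup.mem_subgroupOf]
  exact hE ⟨x, hx, rfl⟩

theorem cFam_iff {Γ : Type u} [Group Γ] {M H : Subgroup Γ} {𝓔 : Set (Subgroup Γ)} :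
    (fun (L : Type u) [Group L] (D : Subgroup L) =>
      CFam p {E' | ∃ E ∈ 𝓔, E' = (E ⊓ M).subgroupOf H} L D) =
    (fun (L : Type u) [Group L] (D : Subgroup L) =>
      ∃ E ∈ 𝓔, CPair p D ((E ⊓ M).subgroupOf H)) := by
  funext L _ D
  apply propext
  constructor
  · rintro ⟨_, ⟨E, hE, rfl⟩, h⟩
    exact ⟨E, hE, h⟩
  · rintro ⟨E, hE, h⟩
    exact ⟨_, ⟨E, hE, rfl⟩, h⟩

/-- the weight equality for the chain stabilizers -/
theorem weq_redCond [Fact p.Prime] [CharP k p] [IsAlgClosed k]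
    {A : Type u} [Group A] [Fintype A] {G : Subgroup A} {e c : MonoidAlgebra k A}
    {Q K : Subgroup A} (hQp : IsPGroup p Q)
    (hKQ : K ≤ G ⊓ Subgroup.normalizer (Q : Set A))
    (hCK : G ⊓ Subgroup.centralizer (Q : Set A) ≤ K)
    (hsub : ∀ x, c.coeff x ≠ 0 → e.coeff x ≠ 0)
    (hcen : ∀ x, c.coeff x ≠ 0 → x ∈ Subgroup.centralizer (Q : Set A))
    (hcC : SuppIn (G ⊓ Subgroup.centralizer (Q : Set A)) c)
    (hcN : InvBy (Subgroup.normalizer (Q : Set A)) c) (hcc : c * c = c)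
    (hU : RedCond p k (G ⊓ Subgroup.normalizer (Q : Set A))
      {x | x ∈ Subgroup.centralizer (Q : Set A) ∧ e.coeff x ≠ 0}
      {E | IsDefectGroup p ⊤ e E ∧ Q ≤ E}) : WEq p K c := by
  classical
  obtain ⟨M, N, H, hMN, hreg, hcyc⟩ := hU
  have hMH : M ≤ H := hMN.hyp.CN.trans hMN.hyp.ext.NH
  have hbaw : BAWRed.{u, v} p k (fun L _ D => ∃ E ∈ {E | IsDefectGroup p ⊤ e E ∧ Q ≤ E},
      CPair p D ((E ⊓ M).subgroupOf H)) := hcyc.elim (fun h => bawRed_of_cycPs hMH h) id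
  rw [← cFam_iff] at hbaw
  have hbase := base_fam hbaw
  rw [cFam_iff] at hbase
  have hcinv : InvBy K c := hcN.mono (hKQ.trans inf_le_right)
  have hcM : SuppIn (M ⊓ K) c := fun x hx =>
    Subgroup.mem_inf.2 ⟨hreg ⟨hcen x hx, hsub x hx⟩, hCK (hcC x hx)⟩
  have hh := hMN.sub hKQ
  refine weq_star3C hbase hh hcM hcinv hcc ?_
  intro P hP hPp hbr
  set P₁ : Subgroup A := P.map (H ⊓ K).subtype with hP₁
  have hP₁M : P₁ ≤ M ⊓ K := by
    rintro _ ⟨x, hx, rfl⟩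
    exact Subgroup.mem_subgroupOf.1 (hP hx)
  have hP₁p : IsPGroup p P₁ := hPp.map _
  have hP₁Q : P₁ ≤ Subgroup.normalizer (Q : Set A) :=
    (hP₁M.trans inf_le_right).trans (hKQ.trans inf_le_right)
  have hbr' : HasBr (P₁ ⊔ Q) c := by
    obtain ⟨y, hy, hy0⟩ : HasBr P₁ c :=
      hasBr_map (H ⊓ K).subtype (fun y hy => by rwa [coeff_dn] at hy) hbr
    refine ⟨y, ?_, hy0⟩
    have h1 : ∀ T : Subgroup A, y ∈ Subgroup.centralizer (T : Set A) ↔
        T ≤ Subgroup.centralizer ({y} : Set A) := by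
      intro T
      rw [Subgroup.mem_centralizer_iff]
      constructor
      · intro h t ht
        rw [Subgroup.mem_centralizer_iff]
        intro z hz
        rw [Set.mem_singleton_iff] at hz
        rw [hz]
        exact (h t ht).symm
      · intro h t ht
        exact (Subgroup.mem_centralizer_iff.1 (h ht) y rfl).symm
    rw [h1]
    exact sup_le ((h1 _).1 hy) ((h1 _).1 (hcen y hy0))
  have hsup : IsPGroup p ↥(P₁ ⊔ Q) := hP₁p.to_sup_of_normal_right' hQp hP₁Q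
  obtain ⟨E, hE, hle⟩ := exists_defect_ge (p := p) hsup (hasBr_sub hsub hbr')
  exact ⟨E, ⟨hE, le_sup_right.trans hle⟩, CPair.of_pairSec (pairSec_incl inf_le_left
    (le_inf (le_sup_left.trans hle) (hP₁M.trans inf_le_left)))⟩

theorem RedCond.mono [Fact p.Prime] {Γ : Type u} [Group Γ] [Finite Γ] {K K' : Subgroup Γ}
    {T T' : Set Γ} {𝓔 𝓔' : Set (Subgroup Γ)} (h : RedCond p k K T 𝓔) (hK : K' ≤ K)
    (hT : ∀ x ∈ T', x ∈ T ∧ x ∈ K') (hE : ∀ E' ∈ 𝓔', ∃ E ∈ 𝓔, K ⊓ E' ≤ E) :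
    RedCond p k K' T' 𝓔' := by
  obtain ⟨M, N, H, hMN, hreg, hcyc⟩ := h
  have hMH : M ≤ H := hMN.hyp.CN.trans hMN.hyp.ext.NH
  have hbaw := hcyc.elim (fun h => bawRed_of_cycPs hMH h) id
  refine ⟨M ⊓ K', N ⊓ K', H ⊓ K', hMN.sub hK, fun x hx => ⟨hreg (hT x hx).1, (hT x hx).2⟩,
    Or.inr ?_⟩
  intro L _ _ b hb hnc hD
  apply hbaw L b hb hnc
  intro D hD'
  obtain ⟨E', hE', h1⟩ := hD D hD'
  obtain ⟨E, hEE, h2⟩ := hE E' hE'
  refine ⟨E, hEE, h1.mono (pairSec_incl inf_le_left ?_)⟩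
  rintro _ ⟨x, hx, rfl⟩
  have h3 := Subgroup.mem_subgroupOf.1 hx
  refine ⟨h2 ⟨?_, h3.1⟩, h3.2.1⟩
  exact hMN.HK (hMH h3.2.1)

end Pool.Agent.Lib.P0c8ca5.Fg
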